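import Pool.Agent.H54.TM.Crit

/-!
# Twisted palindromes (MP_0ea415_nt)

`w₁w₂ = R u`, `w₂w₁ = R v`, `N = M(u) - M(v)`, `Z' = adj(N) J⁻¹`, `Z = Z'ᵗ`. As `M(R) N = M(w₁)M(w₂) - M(w₂)M(w₁)` has the trace `0`,
`M(R) Z = Z' M(R)ᵗ`; the matrix `T = M(R) Z` is symmetric and `M(wᵢ) T = T M(wᵢ)ᵗ`, so the same holds for `wᵢR` in place of `R`.
`det N ≠ 0` if `w₁w₂ ≠ w₂w₁`: a commutator `K ≠ 0` with `det K = 0` would give `M(w₁)` a rational eigenvector.
-/

set_option autoImplicit false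

namespace Pool.Agent.H54.TM

open Pool.Agent.H2.MC Pool.Agent.H2.Sturm Matrix

/-- the inverse of `J` -/
def Ji : Matrix (Fin 2) (Fin 2) ℤ := !![0, -1; 1, 0]

/-- the twist `adj(M(u) - M(v)) J⁻¹` -/
def tws (u v : List ℕ) : Matrix (Fin 2) (Fin 2) ℤ := (cfZ u - cfZ v).adjugate * Ji

lemma mat_sym {A B C N : Matrix (Fin 2) (Fin 2) ℤ} (h : A * B - B * A = C * N) :
    C * (N.adjugate * Ji)ᵀ = (N.adjugate * Ji) * Cᵀ := by
  have ht : (C * N) 0 0 + (C * N) 1 1 = 0 := by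
    rw [← h]
    simp only [Matrix.sub_apply, Matrix.mul_apply, Fin.sum_univ_two]
    ring
  simp only [Matrix.mul_apply, Fin.sum_univ_two] at ht
  rw [Matrix.adjugate_fin_two]
  unfold Ji
  ext i j
  fin_cases i <;> fin_cases j <;>
    simp [Matrix.mul_apply, Fin.sum_univ_two, Matrix.transpose_apply] <;> linarith

lemma mat_T {A B C N : Matrix (Fin 2) (Fin 2) ℤ} (h : A * B - B * A = C * N) :
    (N.adjugate * Ji) * Cᵀ = (A * B - B * A).adjugate * Ji := by
  rw [h, Matrix.adjugate_mul_distrib, Matrix.mul_assoc, Matrix.mul_assoc]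
  congr 1
  rw [Matrix.adjugate_fin_two]
  unfold Ji
  ext i j
  fin_cases i <;> fin_cases j <;> simp [Matrix.mul_apply, Fin.sum_univ_two, Matrix.transpose_apply]

lemma comm_T (A B : Matrix (Fin 2) (Fin 2) ℤ) :
    A * ((A * B - B * A).adjugate * Ji) = ((A * B - B * A).adjugate * Ji) * Aᵀ := by
  rw [Matrix.adjugate_fin_two]
  unfold Ji
  ext i j
  fin_cases i <;> fin_cases j <;>
    simp [Matrix.mul_apply, Matrix.sub_apply, Fin.sum_univ_two, Matrix.transpose_apply] <;> ring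

lemma comm_T' (A B : Matrix (Fin 2) (Fin 2) ℤ) :
    B * ((A * B - B * A).adjugate * Ji) = ((A * B - B * A).adjugate * Ji) * Bᵀ := by
  rw [Matrix.adjugate_fin_two]
  unfold Ji
  ext i j
  fin_cases i <;> fin_cases j <;>
    simp [Matrix.mul_apply, Matrix.sub_apply, Fin.sum_univ_two, Matrix.transpose_apply] <;> ring

lemma word_comm {w1 w2 R u v : List ℕ} (h1 : w1 ++ w2 = R ++ u) (h2 : w2 ++ w1 = R ++ v) :
    cfZ w1 * cfZ w2 - cfZ w2 * cfZ w1 = cfZ R * (cfZ u - cfZ v) := by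
  rw [← cfZ_append, ← cfZ_append, h1, h2, cfZ_append, cfZ_append, Matrix.mul_sub]

theorem tw_R {w1 w2 R u v : List ℕ} (h1 : w1 ++ w2 = R ++ u) (h2 : w2 ++ w1 = R ++ v) :
    cfZ R * (tws u v)ᵀ = tws u v * (cfZ R)ᵀ := mat_sym (word_comm h1 h2)

theorem tw_1 {w1 w2 R u v : List ℕ} (h1 : w1 ++ w2 = R ++ u) (h2 : w2 ++ w1 = R ++ v) :
    cfZ (w1 ++ R) * (tws u v)ᵀ = tws u v * (cfZ (w1 ++ R))ᵀ := by
  have h := word_comm h1 h2
  have hT := mat_T h
  rw [cfZ_append, Matrix.mul_assoc, tw_R h1 h2, Matrix.transpose_mul, ← Matrix.mul_assoc (tws u v)]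
  unfold tws
  rw [hT, comm_T]

theorem tw_2 {w1 w2 R u v : List ℕ} (h1 : w1 ++ w2 = R ++ u) (h2 : w2 ++ w1 = R ++ v) :
    cfZ (w2 ++ R) * (tws u v)ᵀ = tws u v * (cfZ (w2 ++ R))ᵀ := by
  have h := word_comm h1 h2
  have hT := mat_T h
  rw [cfZ_append, Matrix.mul_assoc, tw_R h1 h2, Matrix.transpose_mul, ← Matrix.mul_assoc (tws u v)]
  unfold tws
  rw [hT, comm_T']

lemma tws_bd {u v : List ℕ} (hu : ∀ x ∈ u, 0 < x) (hv : ∀ x ∈ v, 0 < x) (i j : Fin 2) :
    |(tws u v i j : ℝ)| ≤ siz u + siz v := by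
  have hN : ∀ i j, |(((cfZ u - cfZ v) i j : ℤ) : ℝ)| ≤ siz u + siz v := by
    intro i j
    rw [Matrix.sub_apply]
    push_cast
    exact (abs_sub _ _).trans (add_le_add (cfZ_bd hu i j) (cfZ_bd hv i j))
  have hA := adj_bd hN
  unfold tws Ji
  rw [Matrix.mul_apply, Fin.sum_univ_two]
  fin_cases j
  · have : ((cfZ u - cfZ v).adjugate i 0 * (!![0, -1; 1, 0] : Matrix (Fin 2) (Fin 2) ℤ) 0 0 +
        (cfZ u - cfZ v).adjugate i 1 * (!![0, -1; 1, 0] : Matrix (Fin 2) (Fin 2) ℤ) 1 0) =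
        (cfZ u - cfZ v).adjugate i 1 := by simp
    show |(((cfZ u - cfZ v).adjugate i 0 * (!![0, -1; 1, 0] : Matrix (Fin 2) (Fin 2) ℤ) 0 0 +
        (cfZ u - cfZ v).adjugate i 1 * (!![0, -1; 1, 0] : Matrix (Fin 2) (Fin 2) ℤ) 1 0 : ℤ) : ℝ)| ≤ _
    rw [this]
    exact hA i 1
  · have : ((cfZ u - cfZ v).adjugate i 0 * (!![0, -1; 1, 0] : Matrix (Fin 2) (Fin 2) ℤ) 0 1 +
        (cfZ u - cfZ v).adjugate i 1 * (!![0, -1; 1, 0] : Matrix (Fin 2) (Fin 2) ℤ) 1 1) =
        -(cfZ u - cfZ v).adjugate i 0 := by simp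
    show |(((cfZ u - cfZ v).adjugate i 0 * (!![0, -1; 1, 0] : Matrix (Fin 2) (Fin 2) ℤ) 0 1 +
        (cfZ u - cfZ v).adjugate i 1 * (!![0, -1; 1, 0] : Matrix (Fin 2) (Fin 2) ℤ) 1 1 : ℤ) : ℝ)| ≤ _
    rw [this, Int.cast_neg, abs_neg]
    exact hA i 0

lemma tws_det (u v : List ℕ) : (tws u v).det = (cfZ u - cfZ v).det := by
  unfold tws
  rw [Matrix.det_mul, Matrix.det_adjugate, Fintype.card_fin]
  show (cfZ u - cfZ v).det ^ 1 * Ji.det = _
  unfold Ji
  rw [Matrix.det_fin_two (!![0, -1; 1, 0] : Matrix (Fin 2) (Fin 2) ℤ)]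
  simp

/-- the matrix determines the word if the length is known -/
lemma cfMat_inj : ∀ {u v : List ℕ}, u.length = v.length → (∀ x ∈ u, 0 < x) → (∀ x ∈ v, 0 < x) →
    cfMat u = cfMat v → u = v := by
  intro u
  induction u with
  | nil =>
    intro v hl _ _ _
    exact (List.length_eq_zero_iff.1 hl.symm).symm
  | cons a l ih =>
    intro v hl hu hv h
    match v, hl, hv, h with
    | [], hl, _, _ => simp at hl
    | b :: l', hl, hv, h =>
      have hl' : l.length = l'.length := by simpa using hl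
      have hpl : ∀ x ∈ l, 0 < x := fun x hx => hu x (by simp [hx])
      have hpl' : ∀ x ∈ l', 0 < x := fun x hx => hv x (by simp [hx])
      have e00 : cfMat (a :: l) 0 0 = cfMat (b :: l') 0 0 := by rw [h]
      have e01 : cfMat (a :: l) 0 1 = cfMat (b :: l') 0 1 := by rw [h]
      have e10 : cfMat (a :: l) 1 0 = cfMat (b :: l') 1 0 := by rw [h]
      have e11 : cfMat (a :: l) 1 1 = cfMat (b :: l') 1 1 := by rw [h]
      rw [cfMat_cons_00, cfMat_cons_00] at e00
      rw [cfMat_cons_01, cfMat_cons_01] at e01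
      rw [cfMat_cons_10, cfMat_cons_10] at e10
      rw [cfMat_cons_11, cfMat_cons_11] at e11
      obtain ⟨g1, g2, g3, g4, -⟩ := cfMat_ineq l hpl
      obtain ⟨k1, k2, k3, k4, -⟩ := cfMat_ineq l' hpl'
      have hab : a = b := by
        by_cases hnil : l = []
        · subst hnil
          have hnil' : l' = [] := List.length_eq_zero_iff.1 (by simpa using hl'.symm)
          subst hnil'
          simpa [cfMat_nil] using e00
        · have hnil' : l' ≠ [] := by
            intro h0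
            subst h0
            exact hnil (List.length_eq_zero_iff.1 (by simpa using hl'))
          have p1 : 1 ≤ cfMat l 1 0 := by
            have := cfMat_01_pos l.reverse (fun x hx => hpl x (List.mem_reverse.1 hx)) (by simpa using hnil)
            rw [cfMat_reverse] at this
            exact this
          have p2 : 1 ≤ cfMat l' 1 0 := by
            have := cfMat_01_pos l'.reverse (fun x hx => hpl' x (List.mem_reverse.1 hx)) (by simpa using hnil')
            rw [cfMat_reverse] at this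
            exact this
          rw [← e10] at e00 k3
          rcases Nat.lt_trichotomy a b with hlt | heq | hgt
          · have : (a + 1) * cfMat l 0 0 ≤ b * cfMat l 0 0 := Nat.mul_le_mul_right _ hlt
            nlinarith
          · exact heq
          · have : (b + 1) * cfMat l 0 0 ≤ a * cfMat l 0 0 := Nat.mul_le_mul_right _ hgt
            nlinarith
      subst hab
      congr 1
      refine ih hl' hpl hpl' ?_
      ext i j
      fin_cases i <;> fin_cases j
      · exact e10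
      · exact e11
      · show cfMat l 1 0 = cfMat l' 1 0
        rw [e10] at e00
        omega
      · show cfMat l 1 1 = cfMat l' 1 1
        rw [e11] at e01
        omega

lemma cfZ_inj {u v : List ℕ} (hl : u.length = v.length) (hu : ∀ x ∈ u, 0 < x) (hv : ∀ x ∈ v, 0 < x)
    (h : cfZ u = cfZ v) : u = v := by
  refine cfMat_inj hl hu hv ?_
  ext i j
  have h1 : cfZ u i j = cfZ v i j := by rw [h]
  rw [cfZ_apply, cfZ_apply] at h1
  exact_mod_cast h1

/-- the discriminant of the matrix of a word is not a rational square -/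
lemma disc_ns {w : List ℕ} (hw : ∀ x ∈ w, 0 < x) (hne : w ≠ []) {X b : ℤ} (hb : b ≠ 0)
    (h : X ^ 2 = ((cfZ w 0 0 + cfZ w 1 1) ^ 2 - 4 * (cfZ w).det) * b ^ 2) : False := by
  have h1 : b ^ 2 ∣ X ^ 2 := ⟨(cfZ w 0 0 + cfZ w 1 1) ^ 2 - 4 * (cfZ w).det, by rw [h]; ring⟩
  have h2 : b ∣ X := (Int.pow_dvd_pow_iff two_ne_zero).1 h1
  obtain ⟨y, rfl⟩ := h2
  have h3 : y ^ 2 = (cfZ w 0 0 + cfZ w 1 1) ^ 2 - 4 * (cfZ w).det := by
    have h4 : b ^ 2 * (y ^ 2) = b ^ 2 * ((cfZ w 0 0 + cfZ w 1 1) ^ 2 - 4 * (cfZ w).det) := by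
      linear_combination h
    exact mul_left_cancel₀ (pow_ne_zero 2 hb) h4
  obtain ⟨g1, g2, g3, g4, -⟩ := cfMat_ineq w hw
  have q1 := cfMat_01_pos w hw hne
  have q2 : 1 ≤ cfMat w 1 0 := by
    have := cfMat_01_pos w.reverse (fun x hx => hw x (List.mem_reverse.1 hx)) (by simpa using hne)
    rw [cfMat_reverse] at this
    exact this
  have p1 : (1 : ℤ) ≤ cfZ w 0 0 := by rw [cfZ_apply]; exact_mod_cast g1
  have p2 : (0 : ℤ) ≤ cfZ w 1 1 := by rw [cfZ_apply]; positivity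
  have p3 : (1 : ℤ) ≤ cfZ w 0 1 := by rw [cfZ_apply]; exact_mod_cast q1
  have p4 : (1 : ℤ) ≤ cfZ w 1 0 := by rw [cfZ_apply]; exact_mod_cast q2
  have hdet := cfZ_det_sq w
  have hd : (cfZ w).det = cfZ w 0 0 * cfZ w 1 1 - cfZ w 0 1 * cfZ w 1 0 := Matrix.det_fin_two _
  generalize cfZ w 0 0 = p at *
  generalize cfZ w 1 1 = s at *
  generalize cfZ w 0 1 = q at *
  generalize cfZ w 1 0 = r at *
  generalize (cfZ w).det = δ at *
  have hδ : δ = 1 ∨ δ = -1 := by
    have : (δ - 1) * (δ + 1) = 0 := by linear_combination hdet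
    rcases mul_eq_zero.1 this with h5 | h5
    · left; omega
    · right; omega
  -- replace y by its absolute value
  obtain ⟨z, hz0, hz⟩ : ∃ z : ℤ, 0 ≤ z ∧ z ^ 2 = (p + s) ^ 2 - 4 * δ := ⟨|y|, abs_nonneg _, by rw [sq_abs]; exact h3⟩
  rcases hδ with h5 | h5
  · subst h5
    have h6 : p * s = 1 + q * r := by linarith
    have h7 : 2 ≤ p * s := by nlinarith
    have h8 : 3 ≤ p + s := by
      by_contra hcon
      have : p + s ≤ 2 := by omega
      nlinarith [sq_nonneg (p - s)]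
    have h9 : z < p + s := by nlinarith
    have h10 : z ≤ p + s - 1 := by omega
    nlinarith
  · subst h5
    have h6 : 1 ≤ p + s := by linarith
    have h9 : p + s < z := by nlinarith
    have h10 : z < p + s + 2 := by nlinarith
    have h11 : z = p + s + 1 := by omega
    rw [h11] at hz
    have h12 : 2 * (p + s) = 3 := by linarith
    omega

lemma K_zero {A K : Matrix (Fin 2) (Fin 2) ℤ} (htr : K 0 0 + K 1 1 = 0) (hdet : K.det = 0)
    (hKA : (K * A) 0 0 + (K * A) 1 1 = 0) (hA01 : A 0 1 ≠ 0)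
    (hns : ∀ X b : ℤ, b ≠ 0 → X ^ 2 ≠ ((A 0 0 + A 1 1) ^ 2 - 4 * A.det) * b ^ 2) : K = 0 := by
  rw [Matrix.det_fin_two] at hdet
  simp only [Matrix.mul_apply, Fin.sum_univ_two] at hKA
  have hAd : A.det = A 0 0 * A 1 1 - A 0 1 * A 1 0 := Matrix.det_fin_two _
  rw [hAd] at hns
  have hs : K 1 1 = -K 0 0 := by linarith
  rw [hs] at hdet hKA
  by_cases hb : K 0 1 = 0
  · rw [hb] at hdet hKA
    have ha : K 0 0 = 0 := by
      have : K 0 0 ^ 2 = 0 := by linarith
      exact pow_eq_zero_iff two_ne_zero |>.1 this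
    rw [ha] at hKA hs
    have hc : K 1 0 = 0 := by
      have : K 1 0 * A 0 1 = 0 := by linarith
      rcases mul_eq_zero.1 this with h | h
      · exact h
      · exact absurd h hA01
    ext i j
    fin_cases i <;> fin_cases j
    · exact ha
    · exact hb
    · exact hc
    · show K 1 1 = 0
      rw [hs]
      norm_num
  · exfalso
    refine hns (2 * A 0 1 * K 0 0 - (A 0 0 - A 1 1) * K 0 1) (K 0 1) hb ?_
    have h1 : K 0 0 ^ 2 = -(K 0 1 * K 1 0) := by linarith
    have h2 : K 0 0 * K 0 1 * (A 0 0 - A 1 1) + K 0 1 ^ 2 * A 1 0 - K 0 0 ^ 2 * A 0 1 = 0 := by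
      rw [h1]
      linear_combination K 0 1 * hKA
    linear_combination (-4 * A 0 1) * h2

theorem tws_det_ne {w1 w2 R u v : List ℕ} (h1 : w1 ++ w2 = R ++ u) (h2 : w2 ++ w1 = R ++ v)
    (hp1 : ∀ x ∈ w1, 0 < x) (hp2 : ∀ x ∈ w2, 0 < x) (hne : w1 ≠ []) (hcomm : w1 ++ w2 ≠ w2 ++ w1) :
    (tws u v).det ≠ 0 := by
  intro h0
  rw [tws_det] at h0
  have hK := word_comm h1 h2
  set K := cfZ w1 * cfZ w2 - cfZ w2 * cfZ w1 with hKdef
  have hKdet : K.det = 0 := by
    rw [hK, Matrix.det_mul, h0, mul_zero]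
  have htr : K 0 0 + K 1 1 = 0 := by
    rw [hKdef]
    simp only [Matrix.sub_apply, Matrix.mul_apply, Fin.sum_univ_two]
    ring
  have hKA : (K * cfZ w1) 0 0 + (K * cfZ w1) 1 1 = 0 := by
    rw [hKdef]
    simp only [Matrix.sub_apply, Matrix.mul_apply, Fin.sum_univ_two]
    ring
  have hA01 : cfZ w1 0 1 ≠ 0 := by
    have := cfMat_01_pos w1 hp1 hne
    rw [cfZ_apply]
    exact_mod_cast (by omega : cfMat w1 0 1 ≠ 0)
  have hz : K = 0 := K_zero htr hKdet hKA hA01 (fun X b hb h => disc_ns hp1 hne hb h)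
  have h3 : cfZ (w1 ++ w2) = cfZ (w2 ++ w1) := by
    rw [cfZ_append, cfZ_append]
    exact sub_eq_zero.1 hz
  refine hcomm (cfZ_inj (by simp [Nat.add_comm]) ?_ ?_ h3)
  · intro x hx
    rcases List.mem_append.1 hx with h | h
    · exact hp1 x h
    · exact hp2 x h
  · intro x hx
    rcases List.mem_append.1 hx with h | h
    · exact hp2 x h
    · exact hp1 x h

end Pool.Agent.H54.TM
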