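import Pool.Agent.H54.TM.Crit

/-!
# Twisted mirror criterion for rational Moebius images (MP_0ea415_nt)

`crit0`: the integer matrix `P` of module `Crit` (columns close to the direction `(α,1)`, rows close to the direction `(β,1)`), with
all its bounds. `critG`: for integer matrices `g`, `h` with nonzero determinant the matrix `g P hᵗ` does the same for the images
`g α`, `h β`, with other constants.
-/

set_option autoImplicit false

namespace Pool.Agent.H54.TM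

open Pool.Agent.H2.MC Pool.Agent.H2.Sturm Matrix

theorem crit0 {α β : ℝ} (hα : ∀ n, 0 < pq α n) (hβ : ∀ n, 0 < pq β n) {A : ℕ} (hA : ∀ n, pq α n ≤ A) :
    ∃ C : ℝ, 1 ≤ C ∧ ∀ (i j : ℕ) (za Va zb Vb : List ℕ) (Z Z' : Matrix (Fin 2) (Fin 2) ℤ) (z : ℝ),
      (∀ k l, |(Z k l : ℝ)| ≤ z) → (∀ k l, |(Z' k l : ℝ)| ≤ z) → Z.det ≠ 0 →
      win (pq α) i Va.length = Va → win (pq β) j Vb.length = Vb →
      (∀ e ∈ za, 0 < e) → (∀ e ∈ zb, 0 < e) →
      cfZ (za ++ Va) * Z = Z' * (cfZ (zb ++ Vb))ᵀ →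
      siz zb ≤ siz Va → siz za ≤ siz Vb →
      1 ≤ z ∧ ∃ P : Matrix (Fin 2) (Fin 2) ℤ, P.det ≠ 0 ∧
        |(P 1 1 : ℝ)| ≤ C * z * siz (win (pq α) 0 i) * siz (win (pq β) 0 j) * siz Vb / siz za ∧
        (∀ k, |(P 0 k : ℝ) - α * P 1 k| ≤
          C * z * siz zb * siz (win (pq β) 0 j) / (siz (win (pq α) 0 i) * siz Va)) ∧
        ∀ k, |(P k 0 : ℝ) - β * P k 1| ≤
          C * z * siz za * siz (win (pq α) 0 i) / (siz (win (pq β) 0 j) * siz Vb) := by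
  set cα : ℝ := |(⌊α⌋ : ℝ)| + 1 with hcα
  set cβ : ℝ := |(⌊β⌋ : ℝ)| + 1 with hcβ
  have hcα1 : 1 ≤ cα := by
    have := abs_nonneg (⌊α⌋ : ℝ)
    linarith
  have hcβ1 : 1 ≤ cβ := by
    have := abs_nonneg (⌊β⌋ : ℝ)
    linarith
  set X : ℝ := (A : ℝ) + 1 with hX
  have hX1 : 1 ≤ X := by
    have : (0 : ℝ) ≤ A := Nat.cast_nonneg _
    linarith
  refine ⟨256 * (2 + 8 * X) * cα * cβ, ?_, ?_⟩
  · have h1 : 1 ≤ cα * cβ := one_le_mul_of_one_le_of_one_le hcα1 hcβ1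
    nlinarith
  intro i j za Va zb Vb Z Z' z hZ hZ' hdet hVa hVb hza hzb hrel hs1 hs2
  have hVap : ∀ e ∈ Va, 0 < e := by
    rw [← hVa]
    exact win_pos hα _ _
  have hVbp : ∀ e ∈ Vb, 0 < e := by
    rw [← hVb]
    exact win_pos hβ _ _
  have hz0 : 0 ≤ z := (abs_nonneg _).trans (hZ 0 0)
  have hz1 : 1 ≤ z := by
    by_contra hcon
    have h1 : ∀ k l, Z k l = 0 := by
      intro k l
      have h2 := (hZ k l).trans_lt (not_le.1 hcon)
      have h3 : |Z k l| < 1 := by exact_mod_cast h2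
      exact Int.abs_lt_one_iff.1 h3
    apply hdet
    rw [Matrix.det_fin_two, h1, h1, h1, h1]
    norm_num
  -- sizes
  have hTa : (1 : ℝ) ≤ (siz (win (pq α) 0 i) : ℝ) := by exact_mod_cast siz_pos (win_pos hα 0 i)
  have hTb : (1 : ℝ) ≤ (siz (win (pq β) 0 j) : ℝ) := by exact_mod_cast siz_pos (win_pos hβ 0 j)
  have hsVa : (1 : ℝ) ≤ siz Va := by exact_mod_cast siz_pos hVap
  have hsVb : (1 : ℝ) ≤ siz Vb := by exact_mod_cast siz_pos hVbp
  have hsza : (1 : ℝ) ≤ siz za := by exact_mod_cast siz_pos hza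
  have hszb : (1 : ℝ) ≤ siz zb := by exact_mod_cast siz_pos hzb
  have hs1' : (siz zb : ℝ) ≤ siz Va := by exact_mod_cast hs1
  have hs2' : (siz za : ℝ) ≤ siz Vb := by exact_mod_cast hs2
  set Ta : ℝ := (siz (win (pq α) 0 i) : ℝ) with hTadef
  set Tb : ℝ := (siz (win (pq β) 0 j) : ℝ) with hTbdef
  set va : ℝ := (siz Va : ℝ) with hva
  set vb : ℝ := (siz Vb : ℝ) with hvb
  set sa : ℝ := (siz za : ℝ) with hsa
  set sb : ℝ := (siz zb : ℝ) with hsb
  -- the matrices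
  set Mα := cm α i with hMα
  set Mβ := cm β j with hMβ
  set K := cfZ Va * (Z * ((cfZ zb).adjugate)ᵀ) with hK
  set P := Mα * K * Mβᵀ with hP
  have hMαVa : Mα * cfZ Va = cm α (i + Va.length) := by
    rw [cm_add, hVa]
  have hMβVb : Mβ * cfZ Vb = cm β (j + Vb.length) := by
    rw [cm_add, hVb]
  have hP1 : P = cm α (i + Va.length) * (Z * ((cfZ zb).adjugate)ᵀ * Mβᵀ) := by
    rw [← hMαVa, hP, hK]
    simp only [Matrix.mul_assoc]
  -- the second form of the middle matrix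
  have hK2 : cfZ za * K = (cfZ zb).det • (Z' * (cfZ Vb)ᵀ) := by
    rw [hK, ← Matrix.mul_assoc, ← cfZ_append, ← Matrix.mul_assoc, hrel, Matrix.mul_assoc,
      ← Matrix.transpose_mul, adj_mul_cfZ, Matrix.transpose_smul, Matrix.mul_smul]
  have hK3 : K = ((cfZ za).det * (cfZ zb).det) • ((cfZ za).adjugate * (Z' * (cfZ Vb)ᵀ)) := by
    have h1 : (cfZ za).adjugate * (cfZ za * K) = (cfZ za).det • K := by
      rw [← Matrix.mul_assoc, cfZ_adj, Matrix.smul_mul, Matrix.one_mul]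
    have h2 : (cfZ za).det • ((cfZ za).det • K) = K := smul_sq_one (cfZ_det_sq za) K
    rw [← h2, ← h1, hK2, Matrix.mul_smul, smul_smul]
  have hP2 : P = ((cfZ za).det * (cfZ zb).det) •
      (Mα * (cfZ za).adjugate * Z' * (cm β (j + Vb.length))ᵀ) := by
    rw [← hMβVb, hP, hK3, Matrix.mul_smul, Matrix.smul_mul, Matrix.transpose_mul]
    simp only [Matrix.mul_assoc]
  have hdd : ((cfZ za).det * (cfZ zb).det) ^ 2 = 1 := by
    rw [mul_pow, cfZ_det_sq, cfZ_det_sq, one_mul]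
  -- determinant
  have hPdet : P.det ^ 2 = Z.det ^ 2 := by
    have h1 : (cfZ zb).adjugate.det ^ 2 = 1 := by
      rw [Matrix.det_adjugate, Fintype.card_fin]
      show ((cfZ zb).det ^ 1) ^ 2 = 1
      rw [pow_one]
      exact cfZ_det_sq zb
    rw [hP, hK, Matrix.det_mul, Matrix.det_mul, Matrix.det_mul, Matrix.det_mul, Matrix.det_transpose,
      Matrix.det_transpose, mul_pow, mul_pow, mul_pow, mul_pow, h1, cm_det_sq, cm_det_sq, cfZ_det_sq]
    ring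
  have hPdet1 : P.det ≠ 0 := by
    intro h0
    rw [h0] at hPdet
    exact hdet (pow_eq_zero_iff two_ne_zero |>.1 (by simpa using hPdet.symm))
  -- entries of the factors
  have hZb : ∀ k l, |((Z * ((cfZ zb).adjugate)ᵀ) k l : ℝ)| ≤ 2 * z * sb :=
    mul_bd hZ (tr_bd (adj_bd (cfZ_bd hzb)))
  have hR : ∀ k l, |((Z * ((cfZ zb).adjugate)ᵀ * Mβᵀ) k l : ℝ)| ≤ 2 * (2 * z * sb) * (cβ * Tb) :=
    mul_bd hZb (tr_bd (cm_bd hβ j))
  have hcol : ∀ k, |(P 0 k : ℝ) - α * P 1 k| ≤ 8 * z * cβ * sb * Tb / (Ta * va) := by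
    intro k
    have h1 := col_bd (cm_err hα (i + Va.length)) hR k
    rw [← hP1] at h1
    refine h1.trans ?_
    have h2 : Ta * va ≤ siz (win (pq α) 0 (i + Va.length)) := by
      rw [win_add, Nat.zero_add, hVa, hTadef, hva]
      exact_mod_cast siz_append_ge (win (pq α) 0 i) Va
    have h3 : 1 / (siz (win (pq α) 0 (i + Va.length)) : ℝ) ≤ 1 / (Ta * va) :=
      one_div_le_one_div_of_le (by positivity) h2
    have h4 : 2 * (1 / (siz (win (pq α) 0 (i + Va.length)) : ℝ)) * (2 * (2 * z * sb) * (cβ * Tb)) ≤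
        2 * (1 / (Ta * va)) * (2 * (2 * z * sb) * (cβ * Tb)) := by
      refine mul_le_mul_of_nonneg_right (mul_le_mul_of_nonneg_left h3 (by norm_num)) (by positivity)
    refine h4.trans (le_of_eq ?_)
    field_simp
    ring
  have hrow : ∀ k, |(P k 0 : ℝ) - β * P k 1| ≤ 8 * z * cα * sa * Ta / (Tb * vb) := by
    intro k
    have hL : ∀ k l, |((Mα * (cfZ za).adjugate * Z') k l : ℝ)| ≤ 2 * (2 * (cα * Ta) * sa) * z :=
      mul_bd (mul_bd (cm_bd hα i) (adj_bd (cfZ_bd hza))) hZ'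
    have h1 := col_bd (M := cm β (j + Vb.length)) (N := (Mα * (cfZ za).adjugate * Z')ᵀ)
      (cm_err hβ (j + Vb.length)) (tr_bd hL) k
    rw [← Matrix.transpose_transpose (cm β (j + Vb.length)), ← Matrix.transpose_mul] at h1
    have hPk : ∀ _ : ℕ, |(P k 0 : ℝ) - β * P k 1| =
        |(((Mα * (cfZ za).adjugate * Z' * (cm β (j + Vb.length))ᵀ)ᵀ 0 k : ℤ) : ℝ) -
          β * ((Mα * (cfZ za).adjugate * Z' * (cm β (j + Vb.length))ᵀ)ᵀ 1 k : ℤ)| := by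
      intro _
      rw [hP2]
      simp only [Matrix.smul_apply, smul_eq_mul, Matrix.transpose_apply]
      set d := (cfZ za).det * (cfZ zb).det with hd
      have hd1 : |(d : ℝ)| = 1 := by
        have h5 : ((d : ℝ)) ^ 2 = 1 := by exact_mod_cast hdd
        rw [← sq_abs] at h5
        exact (pow_eq_one_iff_of_nonneg (abs_nonneg _) two_ne_zero).mp h5
      push_cast
      rw [show ∀ a b : ℝ, (d : ℝ) * a - β * ((d : ℝ) * b) = d * (a - β * b) from fun a b => by ring,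
        abs_mul, hd1, one_mul]
    rw [hPk 0]
    refine h1.trans ?_
    have h2 : Tb * vb ≤ siz (win (pq β) 0 (j + Vb.length)) := by
      rw [win_add, Nat.zero_add, hVb, hTbdef, hvb]
      exact_mod_cast siz_append_ge (win (pq β) 0 j) Vb
    have h3 : 1 / (siz (win (pq β) 0 (j + Vb.length)) : ℝ) ≤ 1 / (Tb * vb) :=
      one_div_le_one_div_of_le (by positivity) h2
    have h4 : 2 * (1 / (siz (win (pq β) 0 (j + Vb.length)) : ℝ)) * (2 * (2 * (cα * Ta) * sa) * z) ≤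
        2 * (1 / (Tb * vb)) * (2 * (2 * (cα * Ta) * sa) * z) := by
      refine mul_le_mul_of_nonneg_right (mul_le_mul_of_nonneg_left h3 (by norm_num)) (by positivity)
    refine h4.trans (le_of_eq ?_)
    field_simp
    ring
  -- the middle matrix
  have hmid : ∀ k l, |(K k l : ℝ)| ≤ (2 + 8 * X) * z * vb / sa := by
    have hQ : ∀ k l, |((cfZ za * K) k l : ℝ)| ≤ 2 * z * vb := by
      intro k l
      rw [hK2, Matrix.smul_apply, smul_eq_mul, Int.cast_mul]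
      have hd1 : |((cfZ zb).det : ℝ)| = 1 := by
        have h5 : (((cfZ zb).det : ℝ)) ^ 2 = 1 := by exact_mod_cast cfZ_det_sq zb
        rw [← sq_abs] at h5
        exact (pow_eq_one_iff_of_nonneg (abs_nonneg _) two_ne_zero).mp h5
      rw [abs_mul, hd1, one_mul]
      exact mul_bd hZ' (tr_bd (cfZ_bd hVbp)) k l
    have hxq := one_lt_q hα i
    have hxX : cq α (i + 1) ≤ X := q_le hα (hA i)
    have hKe : ∀ l, |(K 0 l : ℝ) - cq α (i + 1) * K 1 l| ≤ 4 * z * X := by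
      intro l
      have h1 := col_bd (M := cfZ Va) (N := Z * ((cfZ zb).adjugate)ᵀ) (x := cq α (i + 1))
        (e := cq α (i + 1) / va) (fun k => by
          have := win_err hα i Va.length k
          rw [hVa] at this
          exact this) hZb l
      refine h1.trans ?_
      have h2 : 2 * (cq α (i + 1) / va) * (2 * z * sb) = 4 * z * cq α (i + 1) * (sb / va) := by
        ring
      rw [h2]
      have h3 : sb / va ≤ 1 := by
        rw [div_le_one (by linarith)]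
        exact hs1'
      have h4 : 0 ≤ 4 * z * cq α (i + 1) := by
        have : 0 ≤ cq α (i + 1) := by linarith
        positivity
      calc 4 * z * cq α (i + 1) * (sb / va) ≤ 4 * z * cq α (i + 1) * 1 := mul_le_mul_of_nonneg_left h3 h4
        _ ≤ 4 * z * X := by
          rw [mul_one]
          exact mul_le_mul_of_nonneg_left hxX (by positivity)
    have hfin : 2 * z * vb / sa + 2 * (4 * z * X) ≤ (2 + 8 * X) * z * vb / sa := by
      have h1 : 1 ≤ vb / sa := by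
        rw [le_div_iff₀ (by linarith)]
        linarith
      have h2 : (2 + 8 * X) * z * vb / sa = 2 * z * vb / sa + 8 * z * X * (vb / sa) := by ring
      rw [h2]
      have h3 : 0 ≤ 8 * z * X := by positivity
      nlinarith [mul_le_mul_of_nonneg_left h1 h3]
    have hent : ∀ l, |(K 0 l : ℝ)| ≤ 2 * z * vb / sa + 2 * (4 * z * X) ∧
        |(K 1 l : ℝ)| ≤ 2 * z * vb / sa + 2 * (4 * z * X) := by
      intro l
      have h1 := hQ 0 l
      rw [Matrix.mul_apply, Fin.sum_univ_two] at h1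
      push_cast at h1
      have h2 : (cfZ za 0 0 : ℝ) = sa := by
        rw [cfZ_apply]
        push_cast
        rfl
      have h3 : (0 : ℝ) ≤ cfZ za 0 1 := by
        rw [cfZ_apply]
        positivity
      rw [h2] at h1
      exact mid_bd hsza h3 hxq.le (hKe l) h1
    intro k l
    fin_cases k
    · exact ((hent l).1).trans hfin
    · exact ((hent l).2).trans hfin
  -- the entry P 1 1
  have hP11 : |(P 1 1 : ℝ)| ≤ 4 * ((2 + 8 * X) * z * vb / sa) * Ta * Tb := by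
    have h1 : ∀ l, |((Mα * K) 1 l : ℝ)| ≤ 2 * Ta * ((2 + 8 * X) * z * vb / sa) := by
      intro l
      rw [Matrix.mul_apply, Fin.sum_univ_two]
      push_cast
      have g1 := cm_row hα i 0
      have g2 := cm_row hα i 1
      have k1 := hmid 0 l
      have k2 := hmid 1 l
      have t0 : (0 : ℝ) ≤ Ta := by linarith
      have e1 : |(Mα 1 0 : ℝ) * K 0 l| ≤ Ta * ((2 + 8 * X) * z * vb / sa) := by
        rw [abs_mul]
        exact mul_le_mul g1 k1 (abs_nonneg _) t0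
      have e2 : |(Mα 1 1 : ℝ) * K 1 l| ≤ Ta * ((2 + 8 * X) * z * vb / sa) := by
        rw [abs_mul]
        exact mul_le_mul g2 k2 (abs_nonneg _) t0
      refine (abs_add_le _ _).trans ?_
      linarith
    rw [hP, Matrix.mul_apply, Fin.sum_univ_two]
    push_cast
    have g1 : |((Mβᵀ 0 1 : ℤ) : ℝ)| ≤ Tb := cm_row hβ j 0
    have g2 : |((Mβᵀ 1 1 : ℤ) : ℝ)| ≤ Tb := cm_row hβ j 1
    have k0 : 0 ≤ 2 * Ta * ((2 + 8 * X) * z * vb / sa) := by positivity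
    have e1 : |((Mα * K) 1 0 : ℝ) * (Mβᵀ 0 1 : ℤ)| ≤ 2 * Ta * ((2 + 8 * X) * z * vb / sa) * Tb := by
      rw [abs_mul]
      exact mul_le_mul (h1 0) g1 (abs_nonneg _) k0
    have e2 : |((Mα * K) 1 1 : ℝ) * (Mβᵀ 1 1 : ℤ)| ≤ 2 * Ta * ((2 + 8 * X) * z * vb / sa) * Tb := by
      rw [abs_mul]
      exact mul_le_mul (h1 1) g2 (abs_nonneg _) k0
    refine (abs_add_le _ _).trans ?_
    linarith
  have hcc : 1 ≤ cα * cβ := one_le_mul_of_one_le_of_one_le hcα1 hcβ1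
  refine ⟨hz1, P, hPdet1, ?_, fun k => (hcol k).trans ?_, fun k => (hrow k).trans ?_⟩
  · refine hP11.trans ?_
    have h2 : 4 * ((2 + 8 * X) * z * vb / sa) * Ta * Tb = 4 * (2 + 8 * X) * (z * Ta * Tb * vb / sa) := by ring
    have h3 : 256 * (2 + 8 * X) * cα * cβ * z * Ta * Tb * vb / sa =
        256 * (2 + 8 * X) * (cα * cβ) * (z * Ta * Tb * vb / sa) := by ring
    rw [h2, h3]
    refine mul_le_mul_of_nonneg_right ?_ (by positivity)
    nlinarith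
  · have h2 : 8 * z * cβ * sb * Tb / (Ta * va) = 8 * cβ * (z * sb * Tb / (Ta * va)) := by ring
    have h3 : 256 * (2 + 8 * X) * cα * cβ * z * sb * Tb / (Ta * va) =
        256 * (2 + 8 * X) * (cα * cβ) * (z * sb * Tb / (Ta * va)) := by ring
    rw [h2, h3]
    refine mul_le_mul_of_nonneg_right ?_ (by positivity)
    have h4 : cβ ≤ cα * cβ := by nlinarith
    nlinarith
  · have h2 : 8 * z * cα * sa * Ta / (Tb * vb) = 8 * cα * (z * sa * Ta / (Tb * vb)) := by ring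
    have h3 : 256 * (2 + 8 * X) * cα * cβ * z * sa * Ta / (Tb * vb) =
        256 * (2 + 8 * X) * (cα * cβ) * (z * sa * Ta / (Tb * vb)) := by ring
    rw [h2, h3]
    refine mul_le_mul_of_nonneg_right ?_ (by positivity)
    have h4 : cα ≤ cα * cβ := by nlinarith
    nlinarith

/-- columns of `g P hᵗ` -/
lemma bar_col {P g h : Matrix (Fin 2) (Fin 2) ℤ} {x y E G : ℝ}
    (hrel : ((g 0 0 : ℝ) - y * g 1 0) * x + ((g 0 1 : ℝ) - y * g 1 1) = 0)
    (hG : |(g 0 0 : ℝ) - y * g 1 0| ≤ G) (hH : ∀ k l, |(h k l : ℝ)| ≤ G)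
    (hP : ∀ k, |(P 0 k : ℝ) - x * P 1 k| ≤ E) (k : Fin 2) :
    |((g * P * hᵀ) 0 k : ℝ) - y * (g * P * hᵀ) 1 k| ≤ 2 * G ^ 2 * E := by
  have hG0 : 0 ≤ G := (abs_nonneg _).trans hG
  have hE0 : 0 ≤ E := (abs_nonneg _).trans (hP 0)
  have e1 : ((g * P * hᵀ) 0 k : ℝ) - y * (g * P * hᵀ) 1 k =
      ((g 0 0 : ℝ) - y * g 1 0) * (((P 0 0 : ℝ) - x * P 1 0) * h k 0 + ((P 0 1 : ℝ) - x * P 1 1) * h k 1) := by
    simp only [Matrix.mul_apply, Fin.sum_univ_two, Matrix.transpose_apply]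
    push_cast
    linear_combination ((P 1 0 : ℝ) * h k 0 + P 1 1 * h k 1) * hrel
  rw [e1, abs_mul]
  have h1 : |((P 0 0 : ℝ) - x * P 1 0) * h k 0| ≤ E * G := by
    rw [abs_mul]
    exact mul_le_mul (hP 0) (hH k 0) (abs_nonneg _) hE0
  have h2 : |((P 0 1 : ℝ) - x * P 1 1) * h k 1| ≤ E * G := by
    rw [abs_mul]
    exact mul_le_mul (hP 1) (hH k 1) (abs_nonneg _) hE0
  have h3 : |((P 0 0 : ℝ) - x * P 1 0) * h k 0 + ((P 0 1 : ℝ) - x * P 1 1) * h k 1| ≤ 2 * (E * G) := by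
    refine (abs_add_le _ _).trans ?_
    linarith
  calc |(g 0 0 : ℝ) - y * g 1 0| * |((P 0 0 : ℝ) - x * P 1 0) * h k 0 + ((P 0 1 : ℝ) - x * P 1 1) * h k 1|
      ≤ G * (2 * (E * G)) := mul_le_mul hG h3 (abs_nonneg _) hG0
    _ = 2 * G ^ 2 * E := by ring

/-- all entries of `P` -/
lemma all_bd {P : Matrix (Fin 2) (Fin 2) ℤ} {x y E E' G Q : ℝ} (hG : 1 ≤ G) (hx : |x| ≤ G) (hy : |y| ≤ G)
    (hc : ∀ k, |(P 0 k : ℝ) - x * P 1 k| ≤ E) (hr : ∀ k, |(P k 0 : ℝ) - y * P k 1| ≤ E') (hE : E ≤ Q) (hE' : E' ≤ Q)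
    (h11 : |(P 1 1 : ℝ)| ≤ Q) (k l : Fin 2) : |(P k l : ℝ)| ≤ 3 * G ^ 2 * Q := by
  have hQ0 : 0 ≤ Q := (abs_nonneg _).trans h11
  have hG0 : 0 ≤ G := by linarith
  have t1 : |(P 0 1 : ℝ)| ≤ 2 * G * Q := by
    have h1 : |(P 0 1 : ℝ)| ≤ |(P 0 1 : ℝ) - x * P 1 1| + |x * P 1 1| := by
      have := abs_add_le ((P 0 1 : ℝ) - x * P 1 1) (x * P 1 1)
      rwa [sub_add_cancel] at this
    rw [abs_mul] at h1
    have h2 : |x| * |(P 1 1 : ℝ)| ≤ G * Q := mul_le_mul hx h11 (abs_nonneg _) hG0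
    have h3 := hc 1
    nlinarith
  have t2 : |(P 1 0 : ℝ)| ≤ 2 * G * Q := by
    have h1 : |(P 1 0 : ℝ)| ≤ |(P 1 0 : ℝ) - y * P 1 1| + |y * P 1 1| := by
      have := abs_add_le ((P 1 0 : ℝ) - y * P 1 1) (y * P 1 1)
      rwa [sub_add_cancel] at this
    rw [abs_mul] at h1
    have h2 : |y| * |(P 1 1 : ℝ)| ≤ G * Q := mul_le_mul hy h11 (abs_nonneg _) hG0
    have h3 := hr 1
    nlinarith
  have t3 : |(P 0 0 : ℝ)| ≤ 3 * G ^ 2 * Q := by
    have h1 : |(P 0 0 : ℝ)| ≤ |(P 0 0 : ℝ) - x * P 1 0| + |x * P 1 0| := by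
      have := abs_add_le ((P 0 0 : ℝ) - x * P 1 0) (x * P 1 0)
      rwa [sub_add_cancel] at this
    rw [abs_mul] at h1
    have h2 : |x| * |(P 1 0 : ℝ)| ≤ G * (2 * G * Q) := mul_le_mul hx t2 (abs_nonneg _) hG0
    have h3 := hc 0
    have h4 : 1 ≤ G ^ 2 := one_le_pow₀ hG
    nlinarith
  have e1 : 2 * G * Q ≤ 3 * G ^ 2 * Q := by
    refine mul_le_mul_of_nonneg_right ?_ hQ0
    nlinarith
  have e2 : Q ≤ 3 * G ^ 2 * Q := by nlinarith
  fin_cases k <;> fin_cases l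
  · exact t3
  · exact t1.trans e1
  · exact t2.trans e1
  · exact h11.trans e2

/-- the image of `x` under the integer matrix `g` -/
noncomputable def mob (g : Matrix (Fin 2) (Fin 2) ℤ) (x : ℝ) : ℝ :=
  ((g 0 0 : ℝ) * x + g 0 1) / ((g 1 0 : ℝ) * x + g 1 1)

lemma mob_rel {g : Matrix (Fin 2) (Fin 2) ℤ} {x : ℝ} (h : (g 1 0 : ℝ) * x + g 1 1 ≠ 0) :
    ((g 0 0 : ℝ) - mob g x * g 1 0) * x + ((g 0 1 : ℝ) - mob g x * g 1 1) = 0 := by
  have h1 : mob g x * ((g 1 0 : ℝ) * x + g 1 1) = (g 0 0 : ℝ) * x + g 0 1 := div_mul_cancel₀ _ h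
  linear_combination -h1

theorem critG {α β : ℝ} (hα : ∀ n, 0 < pq α n) (hβ : ∀ n, 0 < pq β n) {A : ℕ} (hA : ∀ n, pq α n ≤ A)
    {g h : Matrix (Fin 2) (Fin 2) ℤ} (hg : g.det ≠ 0) (hh : h.det ≠ 0) (hga : (g 1 0 : ℝ) * α + g 1 1 ≠ 0)
    (hhb : (h 1 0 : ℝ) * β + h 1 1 ≠ 0) :
    ∃ C : ℝ, 1 ≤ C ∧ ∀ (i j : ℕ) (za Va zb Vb : List ℕ) (Z Z' : Matrix (Fin 2) (Fin 2) ℤ) (z : ℝ),
      (∀ k l, |(Z k l : ℝ)| ≤ z) → (∀ k l, |(Z' k l : ℝ)| ≤ z) → Z.det ≠ 0 →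
      win (pq α) i Va.length = Va → win (pq β) j Vb.length = Vb →
      (∀ e ∈ za, 0 < e) → (∀ e ∈ zb, 0 < e) →
      cfZ (za ++ Va) * Z = Z' * (cfZ (zb ++ Vb))ᵀ →
      siz zb ≤ siz Va → siz za ≤ siz Vb →
      C * z ^ 2 * siz za * siz zb < siz Va * siz Vb →
      ∃ q : ℕ, 0 < q ∧
        (q : ℝ) ≤ C * z * siz (win (pq α) 0 i) * siz (win (pq β) 0 j) * siz Vb / siz za ∧
        (q : ℝ) * nd (q * mob g α) * nd (q * mob h β) ≤
          C * z ^ 3 * siz (win (pq α) 0 i) * siz (win (pq β) 0 j) * siz zb / siz Va := by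
  obtain ⟨C0, hC0, hcr⟩ := crit0 hα hβ hA
  -- one bound for everything which depends on `g`, `h`, `α`, `β`
  obtain ⟨G, hG1, hGa, hGb, hGg, hGh, hGga, hGhb⟩ : ∃ G : ℝ, 1 ≤ G ∧ |α| ≤ G ∧ |β| ≤ G ∧ (∀ k l, |(g k l : ℝ)| ≤ G) ∧
      (∀ k l, |(h k l : ℝ)| ≤ G) ∧ |(g 0 0 : ℝ) - mob g α * g 1 0| ≤ G ∧ |(h 0 0 : ℝ) - mob h β * h 1 0| ≤ G := by
    refine ⟨1 + |α| + |β| + (∑ k, ∑ l, |(g k l : ℝ)|) + (∑ k, ∑ l, |(h k l : ℝ)|) + |(g 0 0 : ℝ) - mob g α * g 1 0| +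
      |(h 0 0 : ℝ) - mob h β * h 1 0|, ?_, ?_, ?_, ?_, ?_, ?_, ?_⟩
    all_goals
      simp only [Fin.sum_univ_two]
      have a1 := abs_nonneg α
      have a2 := abs_nonneg β
      have a3 := abs_nonneg (g 0 0 : ℝ)
      have a4 := abs_nonneg (g 0 1 : ℝ)
      have a5 := abs_nonneg (g 1 0 : ℝ)
      have a6 := abs_nonneg (g 1 1 : ℝ)
      have b3 := abs_nonneg (h 0 0 : ℝ)
      have b4 := abs_nonneg (h 0 1 : ℝ)
      have b5 := abs_nonneg (h 1 0 : ℝ)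
      have b6 := abs_nonneg (h 1 1 : ℝ)
      have b7 := abs_nonneg ((g 0 0 : ℝ) - mob g α * g 1 0)
      have b8 := abs_nonneg ((h 0 0 : ℝ) - mob h β * h 1 0)
      first
        | linarith
        | (intro k l
           fin_cases k <;> fin_cases l <;> simp only [Fin.zero_eta, Fin.mk_one, Fin.isValue] <;> linarith)
  have hG0 : 0 ≤ G := by linarith
  have hG2 : 1 ≤ G ^ 2 := one_le_pow₀ hG1
  have hG4 : 1 ≤ G ^ 4 := one_le_pow₀ hG1
  have hG8 : 1 ≤ G ^ 8 := one_le_pow₀ hG1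
  have hC3 : 1 ≤ C0 ^ 3 := one_le_pow₀ hC0
  refine ⟨48 * G ^ 8 * C0 ^ 3, by nlinarith, ?_⟩
  intro i j za Va zb Vb Z Z' z hZ hZ' hdet hVa hVb hza hzb hrel hs1 hs2 hs3
  obtain ⟨hz1, P, hPd, hP11, hcol, hrow⟩ := hcr i j za Va zb Vb Z Z' z hZ hZ' hdet hVa hVb hza hzb hrel hs1 hs2
  have hVap : ∀ e ∈ Va, 0 < e := by
    rw [← hVa]
    exact win_pos hα _ _
  have hVbp : ∀ e ∈ Vb, 0 < e := by
    rw [← hVb]
    exact win_pos hβ _ _
  have hTa : (1 : ℝ) ≤ (siz (win (pq α) 0 i) : ℝ) := by exact_mod_cast siz_pos (win_pos hα 0 i)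
  have hTb : (1 : ℝ) ≤ (siz (win (pq β) 0 j) : ℝ) := by exact_mod_cast siz_pos (win_pos hβ 0 j)
  have hsVa : (1 : ℝ) ≤ siz Va := by exact_mod_cast siz_pos hVap
  have hsVb : (1 : ℝ) ≤ siz Vb := by exact_mod_cast siz_pos hVbp
  have hsza : (1 : ℝ) ≤ siz za := by exact_mod_cast siz_pos hza
  have hszb : (1 : ℝ) ≤ siz zb := by exact_mod_cast siz_pos hzb
  have hs1' : (siz zb : ℝ) ≤ siz Va := by exact_mod_cast hs1
  have hs2' : (siz za : ℝ) ≤ siz Vb := by exact_mod_cast hs2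
  set Ta : ℝ := (siz (win (pq α) 0 i) : ℝ) with hTadef
  set Tb : ℝ := (siz (win (pq β) 0 j) : ℝ) with hTbdef
  set va : ℝ := (siz Va : ℝ) with hva
  set vb : ℝ := (siz Vb : ℝ) with hvb
  set sa : ℝ := (siz za : ℝ) with hsa
  set sb : ℝ := (siz zb : ℝ) with hsb
  set Q : ℝ := C0 * z * Ta * Tb * vb / sa with hQ
  set E : ℝ := C0 * z * sb * Tb / (Ta * va) with hE
  set E' : ℝ := C0 * z * sa * Ta / (Tb * vb) with hE'
  have hQ0 : 0 ≤ Q := by positivity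
  have hE0 : 0 ≤ E := by positivity
  have hE0' : 0 ≤ E' := by positivity
  have hC0z : 0 ≤ C0 * z := by positivity
  have hQl : C0 * z * Ta * Tb ≤ Q := by
    rw [hQ, le_div_iff₀ (by linarith)]
    exact mul_le_mul_of_nonneg_left hs2' (by positivity)
  have hEQ : E ≤ Q := by
    refine le_trans ?_ hQl
    rw [hE, div_le_iff₀ (by positivity)]
    have h1 : C0 * z * sb * Tb ≤ C0 * z * va * Tb :=
      mul_le_mul_of_nonneg_right (mul_le_mul_of_nonneg_left hs1' hC0z) (by linarith)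
    have h2 : C0 * z * va * Tb * 1 ≤ C0 * z * va * Tb * (Ta * Ta) :=
      mul_le_mul_of_nonneg_left (one_le_mul_of_one_le_of_one_le hTa hTa) (by positivity)
    calc C0 * z * sb * Tb ≤ C0 * z * va * Tb * 1 := by rw [mul_one]; exact h1
      _ ≤ C0 * z * va * Tb * (Ta * Ta) := h2
      _ = C0 * z * Ta * Tb * (Ta * va) := by ring
  have hEQ' : E' ≤ Q := by
    refine le_trans ?_ hQl
    rw [hE', div_le_iff₀ (by positivity)]
    have h1 : C0 * z * sa * Ta ≤ C0 * z * vb * Ta :=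
      mul_le_mul_of_nonneg_right (mul_le_mul_of_nonneg_left hs2' hC0z) (by linarith)
    have h2 : C0 * z * vb * Ta * 1 ≤ C0 * z * vb * Ta * (Tb * Tb) :=
      mul_le_mul_of_nonneg_left (one_le_mul_of_one_le_of_one_le hTb hTb) (by positivity)
    calc C0 * z * sa * Ta ≤ C0 * z * vb * Ta * 1 := by rw [mul_one]; exact h1
      _ ≤ C0 * z * vb * Ta * (Tb * Tb) := h2
      _ = C0 * z * Ta * Tb * (Tb * vb) := by ring
  -- the matrix of the images
  set R : Matrix (Fin 2) (Fin 2) ℤ := g * P * hᵀ with hR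
  have hRd : R.det ≠ 0 := by
    rw [hR, Matrix.det_mul, Matrix.det_mul, Matrix.det_transpose]
    exact mul_ne_zero (mul_ne_zero hg hPd) hh
  have hcolR : ∀ k, |(R 0 k : ℝ) - mob g α * R 1 k| ≤ 2 * G ^ 2 * E :=
    bar_col (mob_rel hga) hGga hGh hcol
  have hrowR : ∀ k, |(R k 0 : ℝ) - mob h β * R k 1| ≤ 2 * G ^ 2 * E' := by
    intro k
    have h1 := bar_col (P := Pᵀ) (g := h) (h := g) (mob_rel hhb) hGhb hGg (fun k => hrow k) k
    have h2 : h * Pᵀ * gᵀ = Rᵀ := by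
      rw [hR, Matrix.transpose_mul, Matrix.transpose_mul, Matrix.transpose_transpose, Matrix.mul_assoc]
    rw [h2] at h1
    exact h1
  have hR11 : |(R 1 1 : ℝ)| ≤ 12 * G ^ 4 * Q := by
    have h1 := all_bd hG1 hGa hGb hcol hrow hEQ hEQ' hP11
    have h2 := mul_bd (mul_bd hGg h1) (tr_bd hGh) 1 1
    refine h2.trans (le_of_eq ?_)
    ring
  have hEE : E * E' = C0 ^ 2 * (z ^ 2 * sa * sb / (va * vb)) := by
    rw [hE, hE']
    field_simp
  have hR0 : R 1 1 ≠ 0 := by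
    intro h0
    have h1 := hcolR 1
    have h2 := hrowR 1
    rw [h0] at h1 h2
    simp only [Int.cast_zero, mul_zero, sub_zero] at h1 h2
    have h3 : |(R.det : ℝ)| = |(R 0 1 : ℝ)| * |(R 1 0 : ℝ)| := by
      rw [Matrix.det_fin_two, h0]
      push_cast
      rw [mul_zero, zero_sub, abs_neg, abs_mul]
    have h4 : |(R 0 1 : ℝ)| * |(R 1 0 : ℝ)| ≤ (2 * G ^ 2 * E) * (2 * G ^ 2 * E') :=
      mul_le_mul h1 h2 (abs_nonneg _) (by positivity)
    have h5 : (2 * G ^ 2 * E) * (2 * G ^ 2 * E') = 4 * G ^ 4 * C0 ^ 2 * (z ^ 2 * sa * sb) / (va * vb) := by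
      calc (2 * G ^ 2 * E) * (2 * G ^ 2 * E') = 4 * G ^ 4 * (E * E') := by ring
        _ = 4 * G ^ 4 * C0 ^ 2 * (z ^ 2 * sa * sb) / (va * vb) := by rw [hEE]; ring
    have h6 : 4 * G ^ 4 * C0 ^ 2 * (z ^ 2 * sa * sb) / (va * vb) < 1 := by
      rw [div_lt_one (by positivity)]
      refine lt_of_le_of_lt ?_ hs3
      have h7 : 4 * G ^ 4 * C0 ^ 2 ≤ 48 * G ^ 8 * C0 ^ 3 := by
        have g1 : G ^ 4 ≤ G ^ 8 := pow_le_pow_right₀ hG1 (by norm_num)
        have g2 : C0 ^ 2 ≤ C0 ^ 3 := pow_le_pow_right₀ hC0 (by norm_num)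
        have g3 : G ^ 4 * C0 ^ 2 ≤ G ^ 8 * C0 ^ 3 := mul_le_mul g1 g2 (by positivity) (by positivity)
        have g4 : 0 ≤ G ^ 8 * C0 ^ 3 := by positivity
        nlinarith
      have h8 : 0 ≤ z ^ 2 * sa * sb := by positivity
      have h9 := mul_le_mul_of_nonneg_right h7 h8
      calc 4 * G ^ 4 * C0 ^ 2 * (z ^ 2 * sa * sb) ≤ 48 * G ^ 8 * C0 ^ 3 * (z ^ 2 * sa * sb) := h9
        _ = 48 * G ^ 8 * C0 ^ 3 * z ^ 2 * sa * sb := by ring
    have h10 : 1 ≤ |(R.det : ℝ)| := by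
      have : 1 ≤ |R.det| := Int.one_le_abs hRd
      exact_mod_cast this
    rw [h3] at h10
    rw [h5] at h4
    linarith
  have hq : ((R 1 1).natAbs : ℝ) = |(R 1 1 : ℝ)| := natAbs_real _
  have hQC : Q = C0 * (z * Ta * Tb * vb / sa) := by rw [hQ]; ring
  refine ⟨(R 1 1).natAbs, Int.natAbs_pos.2 hR0, ?_, ?_⟩
  · rw [hq]
    refine hR11.trans ?_
    rw [hQC]
    have h3 : 48 * G ^ 8 * C0 ^ 3 * z * Ta * Tb * vb / sa = 48 * G ^ 8 * C0 ^ 3 * (z * Ta * Tb * vb / sa) := by ring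
    rw [h3]
    have h4 : 12 * G ^ 4 * C0 ≤ 48 * G ^ 8 * C0 ^ 3 := by
      have g1 : G ^ 4 ≤ G ^ 8 := pow_le_pow_right₀ hG1 (by norm_num)
      have g2 : C0 ≤ C0 ^ 3 := by
        have := pow_le_pow_right₀ hC0 (by norm_num : 1 ≤ 3)
        rwa [pow_one] at this
      have g3 : G ^ 4 * C0 ≤ G ^ 8 * C0 ^ 3 := mul_le_mul g1 g2 (by positivity) (by positivity)
      have g4 : 0 ≤ G ^ 8 * C0 ^ 3 := by positivity
      nlinarith
    have h5 := mul_le_mul_of_nonneg_right h4 (by positivity : 0 ≤ z * Ta * Tb * vb / sa)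
    calc 12 * G ^ 4 * (C0 * (z * Ta * Tb * vb / sa)) = 12 * G ^ 4 * C0 * (z * Ta * Tb * vb / sa) := by ring
      _ ≤ _ := h5
  · have h2 : nd (((R 1 1).natAbs : ℝ) * mob g α) ≤ 2 * G ^ 2 * E :=
      (nd_natAbs (R 1 1) (mob g α) (R 0 1)).trans (hcolR 1)
    have h3 : nd (((R 1 1).natAbs : ℝ) * mob h β) ≤ 2 * G ^ 2 * E' :=
      (nd_natAbs (R 1 1) (mob h β) (R 1 0)).trans (hrowR 1)
    have h4 : 0 ≤ nd (((R 1 1).natAbs : ℝ) * mob g α) := abs_nonneg _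
    have h5 : 0 ≤ nd (((R 1 1).natAbs : ℝ) * mob h β) := abs_nonneg _
    have h6 : ((R 1 1).natAbs : ℝ) * nd (((R 1 1).natAbs : ℝ) * mob g α) * nd (((R 1 1).natAbs : ℝ) * mob h β) ≤
        (12 * G ^ 4 * Q) * (2 * G ^ 2 * E) * (2 * G ^ 2 * E') := by
      refine mul_le_mul (mul_le_mul ?_ h2 h4 (by positivity)) h3 h5 (by positivity)
      rw [hq]
      exact hR11
    refine h6.trans (le_of_eq ?_)
    have h7 : (12 * G ^ 4 * Q) * (2 * G ^ 2 * E) * (2 * G ^ 2 * E') = 48 * G ^ 8 * (Q * (E * E')) := by ring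
    rw [h7, hEE, hQC]
    field_simp

end Pool.Agent.H54.TM
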