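import Pool.Agent.H54.TM.FinT
import Pool.Agent.H54.TM.CritG

/-!
# Real analysis for the rational Moebius images (MP_0ea415_nt): module `FinT` with the criterion `critG`
-/

set_option autoImplicit false

namespace Pool.Agent.H54.TM

open Pool.Agent.H2.MC Pool.Agent.H2.Sturm Matrix

lemma nq_den {x : ℝ} (hx : NotQuad x) {g : Matrix (Fin 2) (Fin 2) ℤ} (hg : g.det ≠ 0) :
    (g 1 0 : ℝ) * x + g 1 1 ≠ 0 := by
  intro h0
  obtain ⟨-, h1, h2⟩ := hx 0 (g 1 0) (g 1 1) (by push_cast; linarith)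
  apply hg
  rw [Matrix.det_fin_two, h1, h2]
  ring

lemma nq_mob {x : ℝ} (hx : NotQuad x) {g : Matrix (Fin 2) (Fin 2) ℤ} (hg : g.det ≠ 0) : NotQuad (mob g x) := by
  intro A B C h
  have hd := nq_den hx hg
  set D : ℝ := (g 1 0 : ℝ) * x + g 1 1 with hD
  set N : ℝ := (g 0 0 : ℝ) * x + g 0 1 with hN
  have hm : mob g x = N / D := rfl
  rw [hm] at h
  have h1 : (A : ℝ) * N ^ 2 + B * N * D + C * D ^ 2 = 0 := by
    have h2 : ((A : ℝ) * (N / D) ^ 2 + B * (N / D) + C) * D ^ 2 = A * N ^ 2 + B * N * D + C * D ^ 2 := by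
      field_simp
    rw [← h2, h, zero_mul]
  obtain ⟨e1, e2, e3⟩ := hx (A * g 0 0 ^ 2 + B * g 0 0 * g 1 0 + C * g 1 0 ^ 2)
    (2 * A * g 0 0 * g 0 1 + B * (g 0 0 * g 1 1 + g 0 1 * g 1 0) + 2 * C * g 1 0 * g 1 1)
    (A * g 0 1 ^ 2 + B * g 0 1 * g 1 1 + C * g 1 1 ^ 2) (by
      push_cast
      rw [hN, hD] at h1
      linear_combination h1)
  rw [Matrix.det_fin_two] at hg
  have hd2 : (g 0 0 * g 1 1 - g 0 1 * g 1 0) ^ 2 ≠ 0 := pow_ne_zero 2 hg
  refine ⟨?_, ?_, ?_⟩
  · have h3 : (g 0 0 * g 1 1 - g 0 1 * g 1 0) ^ 2 * A = 0 := by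
      linear_combination g 1 1 ^ 2 * e1 - g 1 1 * g 1 0 * e2 + g 1 0 ^ 2 * e3
    exact (mul_eq_zero.1 h3).resolve_left hd2
  · have h3 : (g 0 0 * g 1 1 - g 0 1 * g 1 0) ^ 2 * B = 0 := by
      linear_combination -(2 * g 1 1 * g 0 1) * e1 + (g 0 0 * g 1 1 + g 0 1 * g 1 0) * e2 - 2 * g 1 0 * g 0 0 * e3
    exact (mul_eq_zero.1 h3).resolve_left hd2
  · have h3 : (g 0 0 * g 1 1 - g 0 1 * g 1 0) ^ 2 * C = 0 := by
      linear_combination g 0 1 ^ 2 * e1 - g 0 0 * g 0 1 * e2 + g 0 0 ^ 2 * e3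
    exact (mul_eq_zero.1 h3).resolve_left hd2

theorem finG {α β : ℝ} (hα : NotQuad α) (hβ : NotQuad β) {g h : Matrix (Fin 2) (Fin 2) ℤ} (hg : g.det ≠ 0) (hh : h.det ≠ 0) {lam : ℝ} (hlam : 0 < lam)
    (hr : ∀ ε : ℝ, 0 < ε → ∃ C : ℝ, ∀ i n : ℕ, |Real.log (siz (win (pq α) i n)) - lam * n| ≤ ε * n + C ∧
      |Real.log (siz (win (pq β) i n)) - lam * n| ≤ ε * n + C)
    {A : ℕ} (hA : ∀ n, pq α n ≤ A) {c δ : ℝ} (hc0 : 0 ≤ c) (hc1 : c < 1) (hδ : 0 < δ)
    (hgd : ∀ N : ℕ, Gd (pq α) (pq β) c δ N) :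
    PowerLittlewood c (mob g α) (mob h β) := by
  intro ε0 hε0 N0
  have hαp := pq_pos hα
  have hβp := pq_pos hβ
  obtain ⟨η, hη, hηε, hηq⟩ := exists_eta (nq_mob hα hg) (nq_mob hβ hh) c hε0 N0
  obtain ⟨C0, hC0, hcrit⟩ := critG hαp hβp hA hg hh (nq_den hα hg) (nq_den hβ hh)
  set ε : ℝ := lam * δ / 32 with hεdef
  have hε : 0 < ε := by positivity
  obtain ⟨C', hC'⟩ := hr ε hε
  set C : ℝ := max C' 0 with hCdef
  have hC : ∀ i n : ℕ, |Real.log (siz (win (pq α) i n)) - lam * n| ≤ ε * n + C ∧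
      |Real.log (siz (win (pq β) i n)) - lam * n| ≤ ε * n + C := by
    intro i n
    obtain ⟨h1, h2⟩ := hC' i n
    have := le_max_left C' 0
    exact ⟨h1.trans (by linarith), h2.trans (by linarith)⟩
  have hCn : 0 ≤ C := le_max_right _ _
  have hlC0 : 0 ≤ Real.log C0 := Real.log_nonneg hC0
  have hl2 : 0 ≤ Real.log 2 := Real.log_nonneg (by norm_num)
  set K : ℝ := 8 * C + Real.log C0 + 3 * Real.log 2 + 1 with hK
  have hK0 : 0 < K := by positivity
  obtain ⟨N, hN⟩ := exists_nat_gt ((2 * K + 1 + |Real.log η|) / (lam * δ / 4))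
  obtain ⟨X, u, v, i, j, e, e', hNL, hpal, hdet, ⟨p, hp⟩, ⟨pu, hpu⟩, ⟨pv, hpv⟩, hlv, he, he', hwi, hwj, hineq⟩ := hgd (N + 1)
  set L := X.length with hL
  set D := u.length with hD
  have hLN : (2 * K + 1 + |Real.log η|) / (lam * δ / 4) < L := by
    refine hN.trans_le ?_
    exact_mod_cast (by omega : N ≤ L)
  rw [div_lt_iff₀ (by positivity)] at hLN
  have hLpos : (0 : ℝ) < L := by exact_mod_cast (by omega : 0 < L)
  have heL : (e : ℝ) ≤ L := by exact_mod_cast he
  have heL' : (e' : ℝ) ≤ L := by exact_mod_cast he'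
  have hi0 : (0 : ℝ) ≤ i := Nat.cast_nonneg _
  have hj0 : (0 : ℝ) ≤ j := Nat.cast_nonneg _
  have he0 : (0 : ℝ) ≤ e := Nat.cast_nonneg _
  have he0' : (0 : ℝ) ≤ e' := Nat.cast_nonneg _
  have hD0 : (0 : ℝ) ≤ D := Nat.cast_nonneg _
  -- e + e' ≤ L
  have hee : (e : ℝ) + e' ≤ L := by
    by_contra hcon
    have h1 : (L : ℝ) < e + e' := not_le.1 hcon
    have h2 : c * ((e : ℝ) + e' - L) ≤ (e : ℝ) + e' - L := mul_le_of_le_one_left (by linarith) hc1.le
    have h3 : 0 ≤ c * ((i : ℝ) + j + D) := by positivity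
    have h4 : 0 < δ * L := by positivity
    linarith only [h1, h2, h3, h4, hineq, hi0, hj0, hD0]
  have hcterm : 0 ≤ c * ((i : ℝ) + j + L - e - e' + D) := by
    apply mul_nonneg hc0
    linarith
  have hsum : (i : ℝ) + j + e + e' + 3 * D + δ * L ≤ L := by linarith
  have hδL : 0 < δ * L := by positivity
  -- the words
  have hXp : ∀ x ∈ X, 0 < x := by
    rw [← hp]
    exact win_pos hαp _ _
  have hup : ∀ x ∈ u, 0 < x := by
    rw [← hpu]
    exact win_pos hαp _ _
  have hvp : ∀ x ∈ v, 0 < x := by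
    rw [← hpv]
    exact win_pos hαp _ _
  have tk : ∀ k, k ≤ L → X.take k = win (pq α) p k := by
    intro k hk
    conv_lhs => rw [← hp]
    exact win_take _ _ hk
  have dp : ∀ k, k ≤ L → X.drop k = win (pq α) (p + k) (L - k) := by
    intro k hk
    conv_lhs => rw [← hp]
    exact win_drop _ _ hk
  have bα := fun i n => siz_bounds hαp (fun i n => (hC i n).1) i n
  have bβ := fun i n => siz_bounds hβp (fun i n => (hC i n).2) i n
  have b1 := bα p e
  have b1' := bα p e'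
  have b2 := bα (p + e) (L - e)
  have b2' := bα (p + e') (L - e')
  rw [← tk e he] at b1
  rw [← tk e' he'] at b1'
  rw [← dp e he] at b2
  rw [← dp e' he'] at b2'
  have b3 := bα pu D
  have b4 := bα pv v.length
  rw [hpu] at b3
  rw [hpv, hlv] at b4
  have b5 := bα 0 i
  have b6 := bβ 0 j
  have cL1 : ((L - e : ℕ) : ℝ) = L - e := by rw [Nat.cast_sub he]
  have cL2 : ((L - e' : ℕ) : ℝ) = L - e' := by rw [Nat.cast_sub he']
  rw [cL1] at b2
  rw [cL2] at b2'
  set z : ℝ := siz u + siz v with hz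
  have hsu : (1 : ℝ) ≤ siz u := by exact_mod_cast siz_pos hup
  have hsv : (1 : ℝ) ≤ siz v := by exact_mod_cast siz_pos hvp
  have hzb : z ≤ Real.exp (Real.log 2 + (lam * D + (ε * D + C))) := by
    rw [Real.exp_add, Real.exp_log (by norm_num)]
    linarith [b3.1, b4.1]
  have hz0 : 0 < z := by linarith
  -- quantities
  have hεL : 8 * ε * L + 2 * K + 1 < lam * (δ * L) := by
    have h1 : 0 ≤ |Real.log η| := abs_nonneg _
    have h2 : ε * L = lam * δ * L / 32 := by rw [hεdef]; ring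
    have h3 : 0 ≤ lam * δ * L := by positivity
    linarith only [h1, h2, h3, hLN]
  have hεe : ε * (e : ℝ) ≤ ε * L := mul_le_mul_of_nonneg_left heL hε.le
  have hεe' : ε * (e' : ℝ) ≤ ε * L := mul_le_mul_of_nonneg_left heL' hε.le
  have hDL : (D : ℝ) ≤ L := by linarith
  have hεD : ε * (D : ℝ) ≤ ε * L := mul_le_mul_of_nonneg_left hDL hε.le
  have hεD3 : ε * (3 * (D : ℝ) + i + j + e + e') ≤ ε * L := mul_le_mul_of_nonneg_left (by linarith) hε.le
  have hεi : 0 ≤ ε * (i : ℝ) := by positivity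
  have hεj : 0 ≤ ε * (j : ℝ) := by positivity
  have hεe0 : 0 ≤ ε * (e : ℝ) := by positivity
  have hεe0' : 0 ≤ ε * (e' : ℝ) := by positivity
  have hεD0 : 0 ≤ ε * (D : ℝ) := by positivity
  have hlsum : lam * (δ * L) ≤ lam * ((L : ℝ) - e - e' - i - j - 3 * D) :=
    mul_le_mul_of_nonneg_left (by linarith) hlam.le
  have hli : 0 ≤ lam * (i : ℝ) := by positivity
  have hlj : 0 ≤ lam * (j : ℝ) := by positivity
  have hlD : 0 ≤ lam * (D : ℝ) := by positivity
  -- hypotheses of the criterion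
  have g1 : siz (X.take e') ≤ siz (X.drop e) := by
    have h1 : (siz (X.take e') : ℝ) ≤ siz (X.drop e) := by
      refine b1'.1.trans (le_trans (Real.exp_le_exp.2 ?_) b2.2)
      linarith only [hεL, hεe, hεe', hεe0, hεe0', hlsum, hli, hlj, hlD, hK, hCn, hlC0, hl2]
    exact_mod_cast h1
  have g2 : siz (X.take e) ≤ siz (X.drop e') := by
    have h1 : (siz (X.take e) : ℝ) ≤ siz (X.drop e') := by
      refine b1.1.trans (le_trans (Real.exp_le_exp.2 ?_) b2'.2)
      linarith only [hεL, hεe, hεe', hεe0, hεe0', hlsum, hli, hlj, hlD, hK, hCn, hlC0, hl2]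
    exact_mod_cast h1
  have ee0 : (0 : ℝ) ≤ siz (X.take e) := Nat.cast_nonneg _
  have ee0' : (0 : ℝ) ≤ siz (X.take e') := Nat.cast_nonneg _
  have g3 : C0 * z ^ 2 * siz (X.take e) * siz (X.take e') < siz (X.drop e) * siz (X.drop e') := by
    have h1 : C0 * z ^ 2 * siz (X.take e) * siz (X.take e') ≤
        Real.exp (Real.log C0) * Real.exp (Real.log 2 + (lam * D + (ε * D + C))) ^ 2 *
          Real.exp (lam * e + (ε * e + C)) * Real.exp (lam * e' + (ε * e' + C)) := by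
      rw [Real.exp_log (by linarith)]
      refine mul_le_mul (mul_le_mul (mul_le_mul_of_nonneg_left ?_ (by linarith)) b1.1 ee0 (by positivity))
        b1'.1 ee0' (by positivity)
      exact pow_le_pow_left₀ hz0.le hzb 2
    have h2 : Real.exp (lam * (L - e) - (ε * (L - e) + C)) * Real.exp (lam * (L - e') - (ε * (L - e') + C)) ≤
        (siz (X.drop e) : ℝ) * siz (X.drop e') :=
      mul_le_mul b2.2 b2'.2 (Real.exp_pos _).le (Nat.cast_nonneg _)
    refine lt_of_le_of_lt h1 (lt_of_lt_of_le ?_ h2)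
    rw [← Real.exp_nat_mul, ← Real.exp_add, ← Real.exp_add, ← Real.exp_add, ← Real.exp_add]
    refine Real.exp_lt_exp.2 ?_
    push_cast
    linarith only [hεL, hεe, hεe', hεe0, hεe0', hεD, hεD0, hlsum, hli, hlj, hlD, hK, hCn, hlC0, hl2]
  obtain ⟨q, hq0, hq1, hq2⟩ := hcrit i j (X.take e) (X.drop e) (X.take e') (X.drop e') (tws u v)ᵀ (tws u v) z
    (fun k l => tws_bd hup hvp l k) (fun k l => tws_bd hup hvp k l) (by rw [Matrix.det_transpose]; exact hdet)
    (by rw [List.length_drop]; exact hwi) (by rw [List.length_drop]; exact hwj)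
    (fun x hx => hXp x (List.mem_of_mem_take hx)) (fun x hx => hXp x (List.mem_of_mem_take hx))
    (by rw [List.take_append_drop, List.take_append_drop]; exact hpal) g1 g2 g3
  have hq0' : (0 : ℝ) < q := by exact_mod_cast hq0
  have b1p : (0 : ℝ) < siz (X.take e) := lt_of_lt_of_le (Real.exp_pos _) b1.2
  have b2p : (0 : ℝ) < siz (X.drop e) := lt_of_lt_of_le (Real.exp_pos _) b2.2
  -- the bound of q
  have hqb : (q : ℝ) ≤ Real.exp (lam * (i + j + L - e - e' + D) + 4 * ε * L + K) := by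
    refine hq1.trans ?_
    rw [div_le_iff₀ b1p]
    have h1 : C0 * z * siz (win (pq α) 0 i) * siz (win (pq β) 0 j) * siz (X.drop e') ≤
        Real.exp (Real.log C0) * Real.exp (Real.log 2 + (lam * D + (ε * D + C))) *
          Real.exp (lam * i + (ε * i + C)) * Real.exp (lam * j + (ε * j + C)) *
          Real.exp (lam * (L - e') + (ε * (L - e') + C)) := by
      rw [Real.exp_log (by linarith)]
      refine mul_le_mul (mul_le_mul (mul_le_mul (mul_le_mul_of_nonneg_left hzb (by linarith)) b5.1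
        (Nat.cast_nonneg _) (by positivity)) b6.1 (Nat.cast_nonneg _) (by positivity)) b2'.1
        (Nat.cast_nonneg _) (by positivity)
    refine h1.trans ?_
    have h2 : Real.exp (lam * (i + j + L - e - e' + D) + 4 * ε * L + K) * Real.exp (lam * e - (ε * e + C)) ≤
        Real.exp (lam * (i + j + L - e - e' + D) + 4 * ε * L + K) * siz (X.take e) :=
      mul_le_mul_of_nonneg_left b1.2 (Real.exp_pos _).le
    refine le_trans ?_ h2
    rw [← Real.exp_add, ← Real.exp_add, ← Real.exp_add, ← Real.exp_add, ← Real.exp_add]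
    refine Real.exp_le_exp.2 ?_
    linarith only [hεL, hεe, hεe', hεe0, hεe0', hεD, hεD0, hεD3, hεi, hεj, hlsum, hli, hlj, hlD, hK, hCn, hlC0, hl2]
  -- the bound of the product
  have hpb : (q : ℝ) * nd (q * mob g α) * nd (q * mob h β) ≤
      Real.exp (-(lam * (L - e - e' - i - j - 3 * D)) + 4 * ε * L + K) := by
    refine hq2.trans ?_
    rw [div_le_iff₀ b2p]
    have h1 : C0 * z ^ 3 * siz (win (pq α) 0 i) * siz (win (pq β) 0 j) * siz (X.take e') ≤
        Real.exp (Real.log C0) * Real.exp (Real.log 2 + (lam * D + (ε * D + C))) ^ 3 *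
          Real.exp (lam * i + (ε * i + C)) * Real.exp (lam * j + (ε * j + C)) *
          Real.exp (lam * e' + (ε * e' + C)) := by
      rw [Real.exp_log (by linarith)]
      refine mul_le_mul (mul_le_mul (mul_le_mul (mul_le_mul_of_nonneg_left ?_ (by linarith)) b5.1
        (Nat.cast_nonneg _) (by positivity)) b6.1 (Nat.cast_nonneg _) (by positivity)) b1'.1 ee0' (by positivity)
      exact pow_le_pow_left₀ hz0.le hzb 3
    refine h1.trans ?_
    have h2 : Real.exp (-(lam * (L - e - e' - i - j - 3 * D)) + 4 * ε * L + K) *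
        Real.exp (lam * (L - e) - (ε * (L - e) + C)) ≤
        Real.exp (-(lam * (L - e - e' - i - j - 3 * D)) + 4 * ε * L + K) * siz (X.drop e) :=
      mul_le_mul_of_nonneg_left b2.2 (Real.exp_pos _).le
    refine le_trans ?_ h2
    rw [← Real.exp_nat_mul, ← Real.exp_add, ← Real.exp_add, ← Real.exp_add, ← Real.exp_add, ← Real.exp_add]
    refine Real.exp_le_exp.2 ?_
    push_cast
    linarith only [hεL, hεe, hεe', hεe0, hεe0', hεD, hεD0, hεD3, hεi, hεj, hlsum, hli, hlj, hlD, hK, hCn, hlC0, hl2]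
  -- the power
  have hqc : (q : ℝ) ^ c ≤ Real.exp (c * (lam * (i + j + L - e - e' + D) + 4 * ε * L + K)) := by
    rw [Real.rpow_def_of_pos hq0', mul_comm c]
    refine Real.exp_le_exp.2 (mul_le_mul_of_nonneg_right ?_ hc0)
    rw [Real.log_le_iff_le_exp hq0']
    exact hqb
  have hall : (q : ℝ) ^ (1 + c) * nd (q * mob g α) * nd (q * mob h β) < η := by
    have h1 : (q : ℝ) ^ (1 + c) * nd (q * mob g α) * nd (q * mob h β) = (q : ℝ) ^ c * ((q : ℝ) * nd (q * mob g α) * nd (q * mob h β)) := by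
      rw [Real.rpow_add hq0', Real.rpow_one]
      ring
    rw [h1]
    have h2 : 0 ≤ (q : ℝ) * nd (q * mob g α) * nd (q * mob h β) := by
      have := abs_nonneg ((q : ℝ) * mob g α - round ((q : ℝ) * mob g α))
      have := abs_nonneg ((q : ℝ) * mob h β - round ((q : ℝ) * mob h β))
      unfold nd
      positivity
    refine lt_of_le_of_lt (mul_le_mul hqc hpb h2 (Real.exp_pos _).le) ?_
    rw [← Real.exp_add, ← Real.lt_log_iff_exp_lt hη]
    have h3 : -|Real.log η| ≤ Real.log η := neg_abs_le _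
    have h4 : c * (lam * (i + j + L - e - e' + D)) ≤ lam * (L - e - e' - i - j - 3 * D) - lam * (δ * L) := by
      have h5 : c * ((i : ℝ) + j + L - e - e' + D) ≤ (L - e - e' - i - j - 3 * D) - δ * L := by linarith
      have h5' := mul_le_mul_of_nonneg_left h5 hlam.le
      linarith only [h5']
    have h6 : c * (4 * ε * L + K) ≤ 4 * ε * L + K := by
      exact mul_le_of_le_one_left (by positivity) hc1.le
    have h7 : 8 * (ε * L) = lam * δ * L / 4 := by rw [hεdef]; ring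
    exact fin_last h4 h6 h7 hLN (by positivity)
  refine ⟨q, ?_, hq0, ?_⟩
  · by_contra hcon
    exact absurd (hηq q hq0 (not_le.1 hcon)) (not_le.2 hall)
  · exact lt_of_lt_of_le hall hηε

end Pool.Agent.H54.TM
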