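import Pool.Agent.H1.DC.SloD
import Pool.Agent.H1.DC.TraD
import Pool.Agent.H1.DC.LanD
import Pool.Agent.H2.MC.Comb

/-!
# The frequent scales of slope one, all words counted once (MP_0ea415_nt)
-/

set_option autoImplicit false

namespace Pool.Agent.H54.TM

open Filter Pool.Agent.H2.MC Pool.Agent.H1.DC

theorem freqP {b a : ℕ → ℕ} {M : ℕ} (h : Bd b a M) (hb : ¬ EvPer b) {κ : ℝ} (hκ : κ < 2)
    (hc : ∃ᶠ n : ℕ in atTop, ((OccD b a n).ncard : ℝ) ≤ κ * n) :
    ∃ᶠ m : ℕ in atTop, (RecD b a (m + 1)).ncard ≤ (RecD b a m).ncard + 1 ∧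
      (TrD b a (m + 1)).ncard ≤ (TrD b a m).ncard ∧
      ((RecD b a m).ncard : ℝ) + (TrD b a m).ncard ≤ κ * m + 2 := by
  have hmono : ∀ n, (OccD b a n).ncard ≤ (OccD b a (n + 1)).ncard := by
    intro n
    rw [occD_card h, occD_card h]
    have h1 := recD_slope h hb n
    have h2 := trD_mono h n
    omega
  refine (good_scale (W := fun n => (OccD b a n).ncard) hmono hκ hc).mono ?_
  rintro m ⟨h1, h2⟩
  rw [occD_card h, occD_card h] at h1
  rw [occD_card h] at h2
  have h3 := recD_slope h hb m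
  have h4 := trD_mono h m
  refine ⟨by omega, by omega, ?_⟩
  push_cast at h2
  exact h2

end Pool.Agent.H54.TM
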