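import Pool.Agent.H54.TM.CaA
import Pool.Agent.H1.DC.CmT
import Pool.Agent.H1.DC.SloD
import Pool.Agent.H2.MC.CombF

/-!
# Module CaB: boundedly many candidates at a bispecial scale, and at infinitely many scales
-/

set_option autoImplicit false

namespace Pool.Agent.H54.TM

open Filter Pool.Agent.H2.MC Pool.Agent.H2.Sturm Pool.Agent.H1.DC Matrix

private lemma caz_len {b : ℕ → ℕ} {n : ℕ} {w : List ℕ} (h : w ∈ RecB b n) : w.length = n := by
  obtain ⟨i, hi⟩ := Filter.Frequently.exists h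
  rw [← hi, win_length]

private lemma caz_symm {b : ℕ → ℕ} {m c d : ℕ} {R : List ℕ} (h : Lev b m R c d) : Lev b m R d c :=
  ⟨h.cd.symm, h.rd, h.rc, h.uniq, fun e he => (h.two e he).symm, h.card⟩

/-- a loop at `c` which is followed by a loop at `d` -/
private lemma caz_step {b : ℕ → ℕ} {m c d A : ℕ} {R U : List ℕ} (h : Lev b m R c d)
    (hU : Ret b m R c A U) {z : ℕ → ℕ} (hz : In b (m + 1) z) :
    ∀ (n i : ℕ), win z i (m + 1) = R ++ [c] → win z (i + n) (m + 1) = R ++ [d] →
      ∃ i', win z i' (m + 1) = R ++ [c] ∧ win z (i' + A) (m + 1) = R ++ [d] := by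
  intro n
  induction n using Nat.strong_induction_on with
  | _ n ih =>
    intro i h1 h2
    have hA := hU.pos
    have hn0 : n ≠ 0 := by
      rintro rfl
      rw [Nat.add_zero, h1] at h2
      have h3 : [c] = [d] := List.append_cancel_left h2
      have h4 : c = d := by simpa using h3
      exact h.cd h4
    have hR : win z (i + n) m = R := by
      have h3 := congrArg (List.take m) h2
      rw [win_take z _ (Nat.le_succ m)] at h3
      have hRl : R.length = m := by
        have := congrArg List.length h2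
        simp only [win_length, List.length_append, List.length_singleton] at this
        omega
      rw [List.take_append_of_le_length hRl.ge, List.take_of_length_le hRl.le] at h3
      exact h3
    have hAn : A ≤ n := by
      by_contra hcon
      exact hU.no z hz i h1 n (Nat.pos_of_ne_zero hn0) (by omega) hR
    have h5 := ret_next hU hz h1
    have h6 : win z (i + A) (m + 1) = R ++ [z (i + A + m)] := by rw [win_succ, h5]
    have h7 := hz (i + A)
    rw [h6] at h7
    rcases h.two _ h7 with h8 | h8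
    · rw [h8] at h6
      refine ih (n - A) (by omega) (i + A) h6 ?_
      have : i + A + (n - A) = i + n := by omega
      rw [this]
      exact h2
    · rw [h8] at h6
      exact ⟨i, h1, h6⟩

/-- the word `w₁ w₂` occurs in `b`, and it begins with `R c` -/
private lemma caz_trans {b : ℕ → ℕ} {M : ℕ} (hM : ∀ n, b n ≤ M) {m c d A B : ℕ} {R U V : List ℕ} (h : Lev b m R c d)
    (hU : Ret b m R c A U) (hV : Ret b m R d B V) :
    ∃ p, win b p (A + B) = U.take A ++ V.take B ∧ win b p (m + 1) = R ++ [c] := by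
  obtain ⟨T, hT⟩ := in_late hM (m + 1)
  have hz := hT T le_rfl
  obtain ⟨p1, hp1, h1⟩ := frequently_atTop.1 h.rc T
  obtain ⟨p2, hp2, h2⟩ := frequently_atTop.1 h.rd p1
  obtain ⟨i1, rfl⟩ := Nat.exists_eq_add_of_le hp1
  obtain ⟨n, rfl⟩ := Nat.exists_eq_add_of_le hp2
  have h1' : win (fun k => b (T + k)) i1 (m + 1) = R ++ [c] := by rw [win_sh]; exact h1
  have h2' : win (fun k => b (T + k)) (i1 + n) (m + 1) = R ++ [d] := by rw [win_sh, ← Nat.add_assoc]; exact h2
  obtain ⟨i, hi1, hi2⟩ := caz_step h hU hz n i1 h1' h2'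
  have hUi := hU.ret _ hz i hi1
  have hVi := hV.ret _ hz (i + A) hi2
  refine ⟨T + i, ?_, ?_⟩
  · rw [← win_sh, win_add]
    congr 1
    · rw [← hUi, win_take _ _ (Nat.le_add_right A m)]
    · rw [← hVi, win_take _ _ (Nat.le_add_right B m)]
  · rw [← win_sh]
    exact hi1


lemma sd_ex {b : ℕ → ℕ} {M : ℕ} (hM : ∀ n, b n ≤ M) (hb0 : ∀ n, 0 < b n) {m c₀ d₀ : ℕ} {R : List ℕ}
    (h : Lev b m R c₀ d₀) (hbis : Bis b m R) (hlow : m + 1 ≤ (RecB b m).ncard) :
    ∃ (c d A B D : ℕ) (U V u v : List ℕ), SD b m R c d A B D U V u v ∧ A ≤ B ∧ m + D = (RecB b m).ncard + 1 := by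
  obtain ⟨A, U, hU⟩ := ret_ex hM h h.rc
  obtain ⟨B, V, hV⟩ := ret_ex hM h h.rd
  have hcnt := cnt hM h hU hV hbis
  obtain ⟨D, hDdef⟩ : ∃ D, A + B = m + D := Nat.exists_eq_add_of_le (by omega)
  have hUl := caz_len hU.mem
  have hVl := caz_len hV.mem
  have hRl : R.length = m := by
    rw [← hU.tk, List.length_take, hUl]
    omega
  have hUe : U.take A ++ R = U := by
    have h1 := List.take_append_drop A U
    rw [hU.dr] at h1
    exact h1
  have hVe : V.take B ++ R = V := by
    have h1 := List.take_append_drop B V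
    rw [hV.dr] at h1
    exact h1
  obtain ⟨p, hp1, hp2⟩ := caz_trans hM h hU hV
  obtain ⟨p', hp1', hp2'⟩ := caz_trans hM (caz_symm h) hV hU
  have hBA : B + A = A + B := Nat.add_comm _ _
  rw [hBA] at hp1'
  have take1 : ∀ q, ∀ x : ℕ, win b q (m + 1) = R ++ [x] → (win b q (A + B)).take m = R := by
    intro q x hx
    rw [win_take b q (by omega : m ≤ A + B)]
    have h1 := congrArg (List.take m) hx
    rw [win_take b q (Nat.le_succ m), List.take_append_of_le_length hRl.ge, List.take_of_length_le hRl.le] at h1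
    exact h1
  have w12 : U.take A ++ V.take B = R ++ (win b p (A + B)).drop m := by
    rw [← hp1]
    have h1 := List.take_append_drop m (win b p (A + B))
    rw [take1 p _ hp2] at h1
    exact h1.symm
  have w21 : V.take B ++ U.take A = R ++ (win b p' (A + B)).drop m := by
    rw [← hp1']
    have h1 := List.take_append_drop m (win b p' (A + B))
    rw [take1 p' _ hp2'] at h1
    exact h1.symm
  have hu : (win b p (A + B)).drop m = win b (p + m) (A + B - m) := win_drop b p (by omega)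
  have hv : (win b p' (A + B)).drop m = win b (p' + m) (A + B - m) := win_drop b p' (by omega)
  have hABm : A + B - m = D := by omega
  rw [hu, hABm] at w12
  rw [hv, hABm] at w21
  have hcomm : U.take A ++ V.take B ≠ V.take B ++ U.take A := by
    rw [← hp1, ← hp1']
    intro hcon
    have h1 := congrArg (List.take (m + 1)) hcon
    rw [win_take b p (by omega), win_take b p' (by omega), hp2, hp2'] at h1
    have h3 : [c₀] = [d₀] := List.append_cancel_left h1
    have h4 : c₀ = d₀ := by simpa using h3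
    exact h.cd h4
  have posw : ∀ q n, ∀ x ∈ win b q n, 0 < x := fun q n => win_pos hb0 q n
  have hpU : ∀ x ∈ U.take A, 0 < x := by
    intro x hx
    exact posw p (A + B) x (by rw [hp1]; exact List.mem_append_left _ hx)
  have hpV : ∀ x ∈ V.take B, 0 < x := by
    intro x hx
    exact posw p (A + B) x (by rw [hp1]; exact List.mem_append_right _ hx)
  have hne : U.take A ≠ [] := by
    intro hcon
    have h1 := congrArg List.length hcon
    rw [List.length_take, hUl, List.length_nil] at h1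
    have := hU.pos
    omega
  set u := win b (p + m) D with hudef
  set v := win b (p' + m) D with hvdef
  have hul : u.length = D := by rw [hudef, win_length]
  have hvl : v.length = D := by rw [hvdef, win_length]
  have tR := tw_R w12 w21
  have tU := tw_1 w12 w21
  have tV := tw_2 w12 w21
  have hdet := tws_det_ne w12 w21 hpU hpV hne hcomm
  have huw : ∃ q, win b q u.length = u := ⟨p + m, by rw [hul]⟩
  have hvw : ∃ q, win b q v.length = v := ⟨p' + m, by rw [hvl]⟩
  have hSD : SD b m R c₀ d₀ A B D U V u v :=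
    ⟨h, caz_symm h, hU, hV, hDdef, hRl, hUl, hVl, hUe, hVe, tR, tU, tV, hdet, huw, hvw, hul, hvl⟩
  rcases le_total A B with hAB | hAB
  · exact ⟨c₀, d₀, A, B, D, U, V, u, v, hSD, hAB, by omega⟩
  · exact ⟨d₀, c₀, B, A, D, V, U, u, v, hSD.symm, hAB, by omega⟩

/-- a candidate -/
def Cand (b : ℕ → ℕ) (c δ : ℝ) (m : ℕ) (W : List ℕ) : Prop :=
  m ≤ W.length ∧ ∃ u v : List ℕ, cfZ W * (tws u v)ᵀ = tws u v * (cfZ W)ᵀ ∧ (tws u v).det ≠ 0 ∧
    (∃ p, win b p u.length = u) ∧ (∃ p, win b p v.length = v) ∧ v.length = u.length ∧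
    (3 + c) * (u.length : ℝ) + δ * W.length ≤ (1 - c) * W.length

theorem candA {b : ℕ → ℕ} {M : ℕ} (hM : ∀ n, b n ≤ M) (hb0 : ∀ n, 0 < b n) {m c₀ d₀ : ℕ} {R : List ℕ}
    (h : Lev b m R c₀ d₀) (hbis : Bis b m R) (hlow : m + 1 ≤ (RecB b m).ncard) (hm : 0 < m) {c δ : ℝ} {K : ℕ}
    (hc : 0 ≤ c) (hδ : 0 < δ) (hK : 1 ≤ δ * K)
    (hD : (1 + c) * (((RecB b m).ncard : ℝ) + 1 - m) + 3 * δ * m ≤ (1 - c) * m) :
    ∃ 𝒲 : Finset (List ℕ), 𝒲.card ≤ K + 3 ∧ (∀ W ∈ 𝒲, Cand b c δ m W) ∧
      ∀ z, In b (m + 1) z → ∃ W ∈ 𝒲, ∃ i < 8 * m, win z i W.length = W := by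
  classical
  obtain ⟨c₁, d₁, A, B, D, U, V, u, v, hs, hAB, hDc⟩ := sd_ex hM hb0 h hbis hlow
  have hDr : ((RecB b m).ncard : ℝ) + 1 - m = D := by
    have h1 : ((m + D : ℕ) : ℝ) = (((RecB b m).ncard + 1 : ℕ) : ℝ) := by rw [hDc]
    push_cast at h1
    linarith
  rw [hDr] at hD
  have hm0 : (0 : ℝ) < m := by exact_mod_cast hm
  have hD0 : (0 : ℝ) ≤ D := Nat.cast_nonneg _
  have hA0 : (0 : ℝ) ≤ A := Nat.cast_nonneg _
  have hcD : 0 ≤ c * (D : ℝ) := mul_nonneg hc hD0
  have hcm : 0 ≤ c * (m : ℝ) := mul_nonneg hc hm0.le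
  have hδm : 0 < δ * (m : ℝ) := mul_pos hδ hm0
  have hDm' : (D : ℝ) ≤ m := by linarith
  have hDm : D ≤ m := by exact_mod_cast hDm'
  have hABe := hs.AB
  have hABr : (A : ℝ) + B = m + D := by exact_mod_cast hABe
  have hAp := hs.hU.pos
  have hθ : 0 ≤ 1 - c - δ := by
    have h1 : 0 ≤ (1 - c - δ) * (m : ℝ) := by linarith
    by_contra hcon
    have h2 : (1 - c - δ) * (m : ℝ) < 0 := mul_neg_of_neg_of_pos (not_le.1 hcon) hm0
    linarith
  -- long words
  have long : ∀ x : ℝ, 2 * (m : ℝ) + D ≤ x → (3 + c) * (D : ℝ) + δ * x ≤ (1 - c) * x := by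
    intro x hx
    have h1 := mul_le_mul_of_nonneg_left hx hθ
    have h2 : δ * (D : ℝ) ≤ δ * m := mul_le_mul_of_nonneg_left hDm' hδ.le
    have e1 : (1 - c - δ) * (2 * (m : ℝ) + D) =
        2 * ((1 - c) * m) + (1 - c) * D - 2 * (δ * m) - δ * D := by ring
    have e2 : (3 + c) * (D : ℝ) = 2 * ((1 + c) * D) + (1 - c) * D := by ring
    linarith
  set T : ℕ → List ℕ := fun t => V.take B ++ ((List.replicate t (U.take A)).flatten ++ V) with hT
  set W2 : List ℕ := (List.replicate (3 * m / A + 1) (U.take A)).flatten ++ R with hW2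
  have hlA : (U.take A).length = A := by rw [List.length_take, hs.Ul]; omega
  have hlB : (V.take B).length = B := by rw [List.length_take, hs.Vl]; omega
  have hW2l : W2.length = (3 * m / A + 1) * A + m := by
    rw [hW2, List.length_append, rep_len, hlA, hs.Rl]
  have hTl : ∀ t, (T t).length = B + (t * A + (B + m)) := by
    intro t
    rw [hT]
    simp only [List.length_append, rep_len, hlA, hlB, hs.Vl]
  have hdiv : 3 * m < (3 * m / A + 1) * A := by
    have h1 := Nat.lt_div_mul_add (a := 3 * m) hAp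
    have e1 : (3 * m / A + 1) * A = 3 * m / A * A + A := by ring
    omega
  have cW2 : Cand b c δ m W2 := by
    refine ⟨by rw [hW2l]; omega, u, v, tw_pow hs.tR hs.tU _, hs.det, hs.hu, hs.hv, by rw [hs.ul, hs.vl], ?_⟩
    rw [hs.ul]
    apply long
    have h1 : 4 * m ≤ W2.length := by rw [hW2l]; omega
    have h2 : 4 * (m : ℝ) ≤ W2.length := by exact_mod_cast h1
    linarith
  have cT : ∀ t, Cand b c δ m (T t) := by
    intro t
    refine ⟨by rw [hTl]; omega, u, v, ?_, hs.det, hs.hu, hs.hv, by rw [hs.ul, hs.vl], ?_⟩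
    · have h1 := tw_gen hs.tR hs.tV hs.tU t
      rw [hs.Ve] at h1
      exact h1
    · rw [hs.ul]
      apply long
      have h1 : 2 * m + D ≤ (T t).length := by rw [hTl]; omega
      exact_mod_cast h1
  by_cases hVc : (3 + c) * (D : ℝ) + δ * V.length ≤ (1 - c) * V.length
  · -- `V` is long enough
    have cV : Cand b c δ m V := by
      refine ⟨by rw [hs.Vl]; omega, u, v, ?_, hs.det, hs.hu, hs.hv, by rw [hs.ul, hs.vl], ?_⟩
      · have h1 := hs.tV
        rw [hs.Ve] at h1
        exact h1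
      · rw [hs.ul]
        exact hVc
    refine ⟨{V, W2}, ?_, ?_, ?_⟩
    · exact (Finset.card_le_two).trans (by omega)
    · intro W hW
      rw [Finset.mem_insert, Finset.mem_singleton] at hW
      rcases hW with rfl | rfl
      · exact cV
      · exact cW2
    · intro z hz
      rcases read8 hs hM hAB hDm hm hz with ⟨i, hi, hV, -⟩ | ⟨i, hi, hW⟩
      · exact ⟨V, by simp, i, hi, by rw [hs.Vl]; exact hV⟩
      · exact ⟨W2, by simp, i, hi, by rw [hW2l]; exact hW⟩
  · -- `A` is not small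
    have hAl : 3 * (δ * m) < A := by
      rw [not_le, hs.Vl] at hVc
      push_cast at hVc
      have h1 : (B : ℝ) + m = 2 * m + D - A := by linarith
      rw [h1] at hVc
      have h2 := long (2 * (m : ℝ) + D) le_rfl
      have h4 : (1 - c - δ) * (2 * (m : ℝ) + D) =
        2 * ((1 - c) * m) + (1 - c) * D - 2 * (δ * m) - δ * D := by ring
      have h5 : (1 - c - δ) * (2 * (m : ℝ) + D - A) < (3 + c) * D := by linarith
      have h6 : (1 - c - δ) * (A : ℝ) ≤ A := mul_le_of_le_one_left hA0 (by linarith)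
      have h7 : δ * (D : ℝ) ≤ δ * m := mul_le_mul_of_nonneg_left hDm' hδ.le
      have e2 : (3 + c) * (D : ℝ) = 2 * ((1 + c) * D) + (1 - c) * D := by ring
      have e3 : (1 - c - δ) * (2 * (m : ℝ) + D - A) = (1 - c - δ) * (2 * (m : ℝ) + D) - (1 - c - δ) * A := by ring
      linarith
    have hkK : 3 * m / A ≤ K := by
      have h1 : 3 * m ≤ K * A := by
        have h2 : 3 * (m : ℝ) ≤ K * A := by
          have h3 : (3 * (m : ℝ)) * 1 ≤ 3 * m * (δ * K) := mul_le_mul_of_nonneg_left hK (by linarith)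
          have h4 : (K : ℝ) * (3 * (δ * m)) ≤ K * A := mul_le_mul_of_nonneg_left hAl.le (Nat.cast_nonneg _)
          linarith
        exact_mod_cast h2
      exact Nat.div_le_of_le_mul (h1.trans (Nat.mul_comm _ _).le)
    refine ⟨insert W2 ((Finset.range (K + 1)).image T), ?_, ?_, ?_⟩
    · refine (Finset.card_insert_le _ _).trans ?_
      have h1 := Finset.card_image_le (s := Finset.range (K + 1)) (f := T)
      rw [Finset.card_range] at h1
      omega
    · intro W hW
      rw [Finset.mem_insert, Finset.mem_image] at hW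
      rcases hW with rfl | ⟨t, -, rfl⟩
      · exact cW2
      · exact cT t
    · intro z hz
      rcases read8 hs hM hAB hDm hm hz with ⟨i, hi, hV, ⟨hW, hi'⟩ | ⟨t, ht, hW⟩⟩ | ⟨i, hi, hW⟩
      · exact ⟨W2, Finset.mem_insert_self _ _, i + B, hi', by rw [hW2l]; exact hW⟩
      · refine ⟨T t, Finset.mem_insert_of_mem (Finset.mem_image_of_mem T (Finset.mem_range.2 (by omega))), i, hi, ?_⟩
        rw [hTl]
        exact hW
      · exact ⟨W2, Finset.mem_insert_self _ _, i, hi, by rw [hW2l]; exact hW⟩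

theorem combM {b : ℕ → ℕ} {M : ℕ} (hM : ∀ n, b n ≤ M) (hb0 : ∀ n, 0 < b n) (hb : ¬ EvPer b) {κ c : ℝ} (hc : 0 ≤ c)
    (hκ : (1 + c) * κ < 2) (hf : ∃ᶠ n : ℕ in atTop, ((RecB b n).ncard : ℝ) ≤ κ * n) :
    ∃ (δ : ℝ) (K : ℕ), 0 < δ ∧ ∃ᶠ m : ℕ in atTop, ∃ 𝒲 : Finset (List ℕ), 𝒲.card ≤ K ∧
      (∀ W ∈ 𝒲, Cand b c δ m W) ∧ ∀ z, (∀ n, In b n z) → ∃ W ∈ 𝒲, ∃ i < 8 * m, win z i W.length = W := by
  have hκ1 : 1 < κ := by
    obtain ⟨n, hn, hn2⟩ := frequently_atTop.1 hf 1
    have h1 := recB_low hM hb n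
    have h3 : ((n : ℝ) + 1) ≤ (RecB b n).ncard := by exact_mod_cast h1
    have h4 : (1 : ℝ) ≤ n := by exact_mod_cast hn
    by_contra hcon
    have h5 : κ * n ≤ 1 * n := mul_le_mul_of_nonneg_right (not_lt.1 hcon) (by linarith)
    linarith
  have hcκ : 0 ≤ c * κ := mul_nonneg hc (by linarith)
  have hκ2 : κ < 2 := by linarith
  have hmono : ∀ n, ((RecB b n).ncard : ℝ) ≤ ((RecB b (n + 1)).ncard : ℝ) := by
    intro n
    have h1 := recB_slope hM hb n
    exact_mod_cast (by omega : (RecB b n).ncard ≤ (RecB b (n + 1)).ncard)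
  have hfr := good_scale_real (W := fun n => ((RecB b n).ncard : ℝ)) hmono (fun n => Nat.cast_nonneg _) hκ2 hf
  set η : ℝ := 2 - (1 + c) * κ with hη
  have hη0 : 0 < η := by rw [hη]; linarith
  have hc1 : c < 1 := by nlinarith
  obtain ⟨K, hK⟩ := exists_nat_gt (6 / η)
  rw [div_lt_iff₀ hη0] at hK
  refine ⟨η / 6, K + 3, by positivity, ?_⟩
  rw [frequently_atTop]
  intro N
  obtain ⟨N1, hN1⟩ := exists_nat_gt (12 / η)
  rw [div_lt_iff₀ hη0] at hN1
  obtain ⟨m0, hm0, hs1, hs2⟩ := frequently_atTop.1 hfr (max N N1)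
  have hN0 : N ≤ m0 := (le_max_left _ _).trans hm0
  have hN1' : N1 ≤ m0 := (le_max_right _ _).trans hm0
  have hs1' : (RecB b (m0 + 1)).ncard ≤ (RecB b m0).ncard + 1 := by
    have h1 : (RecB b (m0 + 1)).ncard < (RecB b m0).ncard + 2 := by exact_mod_cast hs1
    omega
  obtain ⟨R, c₀, d₀, hLev⟩ := lev_of_slope hM hb hs1'
  obtain ⟨C, hLev', hBis, hcard, hin, -, -⟩ := climbD hM hLev
  set m := C.length + m0 with hm
  have hlow := recB_low hM hb m
  have hmr : (m : ℝ) = C.length + m0 := by rw [hm]; push_cast; ring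
  have hCl : (0 : ℝ) ≤ C.length := Nat.cast_nonneg _
  have hNm : 12 < η * m := by
    have h1 : (N1 : ℝ) ≤ m := by rw [hmr]; have : (N1 : ℝ) ≤ m0 := by exact_mod_cast hN1'
                                 linarith
    have h2 := mul_le_mul_of_nonneg_right h1 hη0.le
    linarith
  have hmpos : (0 : ℝ) < m := by
    by_contra hcon
    have h1 : η * m ≤ 0 := mul_nonpos_of_nonneg_of_nonpos hη0.le (not_lt.1 hcon)
    linarith
  have hcr : ((RecB b m).ncard : ℝ) = (RecB b m0).ncard + C.length := by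
    rw [hcard]
    push_cast
    ring
  have hDc : (1 + c) * (((RecB b m).ncard : ℝ) + 1 - m) + 3 * (η / 6) * m ≤ (1 - c) * m := by
    rw [hcr]
    have h1 : ((RecB b m0).ncard : ℝ) + C.length + 1 - m = (RecB b m0).ncard + 1 - m0 := by rw [hmr]; ring
    rw [h1]
    have h5 : ((RecB b m0).ncard : ℝ) + 1 - m0 ≤ (κ - 1) * m0 + 3 := by linarith
    have h6 := mul_le_mul_of_nonneg_left h5 (by linarith : 0 ≤ 1 + c)
    have h7 : (1 + c) * (κ - 1) * m0 ≤ (1 + c) * (κ - 1) * m := by
      apply mul_le_mul_of_nonneg_left _ (mul_nonneg (by linarith) (by linarith))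
      rw [hmr]
      linarith
    have h8 : (1 + c) * (κ - 1) = (1 - c) - η := by rw [hη]; ring
    rw [h8] at h7
    have h9 : (1 + c) * ((κ - 1) * m0 + 3) = (1 + c) * (κ - 1) * m0 + 3 * (1 + c) := by ring
    rw [h9, h8] at h6
    have h10 : ((1 - c) - η) * (m : ℝ) = (1 - c) * m - η * m := by ring
    rw [h10] at h7
    linarith
  obtain ⟨𝒲, h1, h2, h3⟩ := candA hM hb0 hLev' hBis hlow (by exact_mod_cast hmpos) hc (δ := η / 6) (K := K)
    (by positivity) (by linarith) hDc
  exact ⟨m, by omega, 𝒲, h1, h2, fun z hz => h3 z (hz _)⟩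

end Pool.Agent.H54.TM
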