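import Pool.Agent.H54.TM.CbS2

/-!
# Module CaA: boundedly many twisted palindromes, one of which every sequence reads early

`A ≤ B` the two return times at a bispecial scale, `j = 3m / A + 1`. Every sequence of the subshift reads one of `w₂ R`, `w₁ʲ R`, `w₂ w₁ᵏ w₂ R`
(`k ≤ 3m / A`) before the index `8m` (`stepJ`). If `w₂ R` is too short then `A ≥ η m`, so there are at most `3 / η` words of the third kind,
and `|w₂ w₁ᵏ w₂ R| ≥ 2B + m ≥ 2m + D`.
-/

set_option autoImplicit false

namespace Pool.Agent.H54.TM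

open Filter Pool.Agent.H2.MC Pool.Agent.H2.Sturm Pool.Agent.H1.DC Matrix

/-- the data of a bispecial scale -/
structure SD (b : ℕ → ℕ) (m : ℕ) (R : List ℕ) (c d A B D : ℕ) (U V u v : List ℕ) : Prop where
  lev : Lev b m R c d
  lev' : Lev b m R d c
  hU : Ret b m R c A U
  hV : Ret b m R d B V
  AB : A + B = m + D
  Rl : R.length = m
  Ul : U.length = A + m
  Vl : V.length = B + m
  Ue : U.take A ++ R = U
  Ve : V.take B ++ R = V
  tR : cfZ R * (tws u v)ᵀ = tws u v * (cfZ R)ᵀ
  tU : cfZ (U.take A ++ R) * (tws u v)ᵀ = tws u v * (cfZ (U.take A ++ R))ᵀ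
  tV : cfZ (V.take B ++ R) * (tws u v)ᵀ = tws u v * (cfZ (V.take B ++ R))ᵀ
  det : (tws u v).det ≠ 0
  hu : ∃ p, win b p u.length = u
  hv : ∃ p, win b p v.length = v
  ul : u.length = D
  vl : v.length = D

lemma SD.symm {b : ℕ → ℕ} {m : ℕ} {R : List ℕ} {c d A B D : ℕ} {U V u v : List ℕ} (h : SD b m R c d A B D U V u v) :
    SD b m R d c B A D V U u v :=
  ⟨h.lev', h.lev, h.hV, h.hU, by rw [Nat.add_comm]; exact h.AB, h.Rl, h.Vl, h.Ul, h.Ve, h.Ue, h.tR, h.tV, h.tU, h.det,
    h.hu, h.hv, h.ul, h.vl⟩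

/-- the first `j` steps along `w₁` -/
lemma stepJ {b : ℕ → ℕ} {m : ℕ} {R : List ℕ} {c d A B D : ℕ} {U V u v : List ℕ} (h : SD b m R c d A B D U V u v)
    {z : ℕ → ℕ} (hz : In b (m + 1) z) :
    ∀ j p, win z p m = R → (∃ t < j, win z p (t * A + (B + m)) = (List.replicate t (U.take A)).flatten ++ V) ∨
      win z p (j * A + m) = (List.replicate j (U.take A)).flatten ++ R := by
  intro j
  induction j with
  | zero =>
    intro p hp
    right
    simpa using hp
  | succ j ih =>
    intro p hp
    have hs : win z p (m + 1) = R ++ [z (p + m)] := by rw [win_succ, hp]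
    have hmem := hz p
    rw [hs] at hmem
    rcases h.lev.two _ hmem with hx | hx
    · rw [hx] at hs
      have hUi := h.hU.ret z hz p hs
      have hR := ret_next h.hU hz hs
      have hw : win z p A = U.take A := by rw [← hUi, win_take _ _ (Nat.le_add_right A m)]
      rcases ih (p + A) hR with ⟨t, ht, h1⟩ | h1
      · left
        refine ⟨t + 1, by omega, ?_⟩
        have e1 : (t + 1) * A + (B + m) = A + (t * A + (B + m)) := by ring
        rw [e1, win_add, hw, h1, List.replicate_succ, List.flatten_cons, List.append_assoc]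
      · right
        have e1 : (j + 1) * A + m = A + (j * A + m) := by ring
        rw [e1, win_add, hw, h1, List.replicate_succ, List.flatten_cons, List.append_assoc]
    · rw [hx] at hs
      left
      refine ⟨0, by omega, ?_⟩
      rw [Nat.zero_mul, Nat.zero_add, h.hV.ret z hz p hs]
      simp

lemma tw_pow {w R u v : List ℕ} (tR : cfZ R * (tws u v)ᵀ = tws u v * (cfZ R)ᵀ)
    (tw : cfZ (w ++ R) * (tws u v)ᵀ = tws u v * (cfZ (w ++ R))ᵀ) (k : ℕ) :
    cfZ ((List.replicate k w).flatten ++ R) * (tws u v)ᵀ =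
      tws u v * (cfZ ((List.replicate k w).flatten ++ R))ᵀ := by
  have tW := tw_S tR tw
  have hp : ∀ n : ℕ, cfZ w ^ n * (cfZ R * (tws u v)ᵀ) = (cfZ R * (tws u v)ᵀ) * (cfZ w ^ n)ᵀ := by
    intro n
    induction n with
    | zero => simp
    | succ n ih =>
      rw [pow_succ', Matrix.mul_assoc, ih, ← Matrix.mul_assoc, tW, Matrix.mul_assoc, ← Matrix.transpose_mul, ← pow_succ,
        ← pow_succ']
  rw [cfZ_append, cfZ_rep, Matrix.mul_assoc, hp, tR, Matrix.transpose_mul, Matrix.mul_assoc]

/-- a sequence reads one of the candidates before `8m` -/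
lemma read8 {b : ℕ → ℕ} {m : ℕ} {R : List ℕ} {c d A B D : ℕ} {U V u v : List ℕ} (h : SD b m R c d A B D U V u v)
    {M : ℕ} (hM : ∀ n, b n ≤ M) (hAB : A ≤ B) (hDm : D ≤ m) (hm : 0 < m) {z : ℕ → ℕ} (hz : In b (m + 1) z) :
    (∃ i < 8 * m, win z i (B + m) = V ∧
      ((win z (i + B) ((3 * m / A + 1) * A + m) = (List.replicate (3 * m / A + 1) (U.take A)).flatten ++ R ∧ i + B < 8 * m) ∨
        ∃ t ≤ 3 * m / A, win z i (B + (t * A + (B + m))) =
          V.take B ++ ((List.replicate t (U.take A)).flatten ++ V))) ∨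
    ∃ i < 8 * m, win z i ((3 * m / A + 1) * A + m) = (List.replicate (3 * m / A + 1) (U.take A)).flatten ++ R := by
  have hAp := h.hU.pos
  have hAB' := h.AB
  -- the first `R`
  obtain ⟨p, hp, hR⟩ : ∃ p ≤ m + D, win z p m = R := by
    obtain ⟨e, ⟨he, h1⟩ | ⟨he, h1⟩⟩ := suf_ex hM h.lev h.hU h.hV hz
    · refine ⟨e, by omega, ?_⟩
      have h2 := congrArg (List.drop e) h1
      rw [win_drop _ 0 (Nat.le_add_right e m), List.drop_drop] at h2
      have e1 : e + m - e = m := by omega
      have e2 : A - e + e = A := by omega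
      rw [e1, Nat.zero_add, e2, h.hU.dr] at h2
      exact h2
    · refine ⟨e, by omega, ?_⟩
      have h2 := congrArg (List.drop e) h1
      rw [win_drop _ 0 (Nat.le_add_right e m), List.drop_drop] at h2
      have e1 : e + m - e = m := by omega
      have e2 : B - e + e = B := by omega
      rw [e1, Nat.zero_add, e2, h.hV.dr] at h2
      exact h2
  have hdiv : 3 * m / A * A ≤ 3 * m := Nat.div_mul_le_self _ _
  rcases stepJ h hz (3 * m / A + 1) p hR with ⟨t, ht, h1⟩ | h1
  · left
    have htA : t * A ≤ 3 * m := (Nat.mul_le_mul_right A (by omega : t ≤ 3 * m / A)).trans hdiv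
    rw [win_add] at h1
    have hlA : (U.take A).length = A := by rw [List.length_take, h.Ul]; omega
    have h2 := (List.append_inj h1 (by rw [win_length, rep_len, hlA])).2
    have hlB : (V.take B).length = B := by rw [List.length_take, h.Vl]; omega
    have hR2 : win z (p + t * A + B) m = R := by
      have h3 := congrArg (List.drop B) h2
      rw [win_drop _ _ (Nat.le_add_right B m), h.hV.dr] at h3
      have e1 : B + m - B = m := by omega
      rw [e1] at h3
      exact h3
    have hwB : win z (p + t * A) B = V.take B := by rw [← h2, win_take _ _ (Nat.le_add_right B m)]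
    refine ⟨p + t * A, by omega, h2, ?_⟩
    rcases stepJ h hz (3 * m / A + 1) _ hR2 with ⟨t', ht', h3⟩ | h3
    · right
      exact ⟨t', by omega, by rw [win_add, hwB, h3]⟩
    · left
      exact ⟨h3, by omega⟩
  · right
    exact ⟨p, by omega, h1⟩

end Pool.Agent.H54.TM
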