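import Pool.Agent.H54.TM.CaB
import Pool.Agent.H2.MC.AeA

/-!
# Module CaC: generic points of an ergodic measure without atoms
-/

set_option autoImplicit false

namespace Pool.Agent.H54.TM

open Filter MeasureTheory Pool.Agent.H2.MC Pool.Agent.H2.Sturm Pool.Agent.H1.DC Matrix

/-- the words of length `n` of positive measure -/
def PW (μ : Measure (ℕ → ℕ)) (n : ℕ) : Set (List ℕ) := {w | w.length = n ∧ μ {x | win x 0 n = w} ≠ 0}

/-- a sequence is generic: all its words have positive measure, and all words of positive measure are recurrent -/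
def Gn (μ : Measure (ℕ → ℕ)) (x : ℕ → ℕ) : Prop :=
  (∀ n i, win x i n ∈ PW μ n) ∧ ∀ n, ∀ w ∈ PW μ n, ∃ᶠ i in atTop, win x i n = w

lemma Gn.rec {μ : Measure (ℕ → ℕ)} {x : ℕ → ℕ} (h : Gn μ x) (n : ℕ) : RecB x n = PW μ n := by
  ext w
  constructor
  · intro hw
    obtain ⟨i, hi⟩ := Filter.Frequently.exists hw
    rw [← hi]
    exact h.1 n i
  · intro hw
    exact h.2 n w hw

lemma gn_ae {μ : Measure (ℕ → ℕ)} [IsProbabilityMeasure μ] (hμ : Ergodic shift μ) : ∀ᵐ x ∂μ, Gn μ x := by
  have hMP : ∀ j, MeasurePreserving (shift^[j]) μ μ := fun j => hμ.toMeasurePreserving.iterate j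
  have h1 : ∀ᵐ x ∂μ, ∀ n i, win x i n ∈ PW μ n := by
    rw [ae_all_iff]
    intro n
    rw [ae_all_iff]
    intro i
    have h2 : ∀ᵐ x ∂μ, ∀ w : List ℕ, w ∉ PW μ n → win x i n ≠ w := by
      rw [ae_all_iff]
      intro w
      by_cases hw : w ∈ PW μ n
      · exact Filter.Eventually.of_forall fun x h => absurd hw h
      · have h3 : μ {x | win x i n = w} = 0 := by
          have e1 : {x : ℕ → ℕ | win x i n = w} = shift^[i] ⁻¹' {x | win x 0 n = w} := by
            ext x
            simp [win_shift]
          rw [e1, (hMP i).measure_preimage (measurableSet_win_eq 0 n w).nullMeasurableSet]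
          by_contra h0
          apply hw
          refine ⟨?_, h0⟩
          by_contra hl
          apply h0
          have : {x : ℕ → ℕ | win x 0 n = w} = ∅ := by
            ext x
            simp only [Set.mem_setOf_eq, Set.mem_empty_iff_false, iff_false]
            intro hx
            apply hl
            rw [← hx, win_length]
          rw [this, measure_empty]
        have h4 : ∀ᵐ x ∂μ, ¬ win x i n = w := by
          rw [ae_iff]
          simpa using h3
        filter_upwards [h4] with x hx _
        exact hx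
    filter_upwards [h2] with x hx
    by_contra hcon
    exact hx _ hcon rfl
  have h2 : ∀ᵐ x ∂μ, ∀ n, ∀ w : List ℕ, w ∈ PW μ n → ∃ᶠ i in atTop, win x i n = w := by
    rw [ae_all_iff]
    intro n
    rw [ae_all_iff]
    intro w
    by_cases hw : w ∈ PW μ n
    · -- the points which visit
      set E : Set (ℕ → ℕ) := {x | win x 0 n = w} with hE
      have hEm : MeasurableSet E := measurableSet_win_eq 0 n w
      set G : Set (ℕ → ℕ) := ⋃ j : ℕ, shift^[j] ⁻¹' E with hG
      have hGm : MeasurableSet G := MeasurableSet.iUnion fun j => (hMP j).measurable hEm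
      have hGT : shift ⁻¹' G ⊆ G := by
        intro x hx
        rw [hG, Set.mem_preimage, Set.mem_iUnion] at hx
        obtain ⟨j, hj⟩ := hx
        rw [hG, Set.mem_iUnion]
        refine ⟨j + 1, ?_⟩
        rw [Set.mem_preimage, Function.iterate_succ_apply]
        exact hj
      have hG0 : μ G ≠ 0 := by
        intro h0
        apply hw.2
        refine measure_mono_null ?_ h0
        intro x hx
        rw [hG, Set.mem_iUnion]
        exact ⟨0, hx⟩
      have hG1 : ∀ᵐ x ∂μ, x ∈ G := by
        rcases hμ.ae_empty_or_univ_of_preimage_ae_le hGm.nullMeasurableSet hGT.eventuallyLE with h0 | h1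
        · exact absurd (by rw [measure_congr h0, measure_empty]) hG0
        · exact Filter.eventuallyEq_univ.1 h1
      have hG2 : ∀ᵐ x ∂μ, ∀ p : ℕ, shift^[p] x ∈ G := by
        rw [ae_all_iff]
        intro p
        exact (hMP p).quasiMeasurePreserving.ae hG1
      filter_upwards [hG2] with x hx _
      rw [frequently_atTop]
      intro N
      have h3 := hx N
      rw [hG, Set.mem_iUnion] at h3
      obtain ⟨j, hj⟩ := h3
      refine ⟨j + N, by omega, ?_⟩
      rw [Set.mem_preimage, ← Function.iterate_add_apply] at hj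
      have h4 : win (shift^[j + N] x) 0 n = w := hj
      rwa [win_shift] at h4
    · exact Filter.Eventually.of_forall fun x h => absurd h hw
  filter_upwards [h1, h2] with x h3 h4
  exact ⟨h3, h4⟩

lemma evPer_countable : {x : ℕ → ℕ | EvPer x}.Countable := by
  have h1 : {x : ℕ → ℕ | EvPer x} ⊆ ⋃ (N : ℕ) (p : ℕ), {x | 0 < p ∧ ∀ n, N ≤ n → x (n + p) = x n} := by
    rintro x ⟨N, p, hp, h⟩
    rw [Set.mem_iUnion₂]
    exact ⟨N, p, hp, h⟩
  refine Set.Countable.mono h1 (Set.countable_iUnion fun N => Set.countable_iUnion fun p => ?_)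
  refine Set.MapsTo.countable_of_injOn (f := fun x => win x 0 (N + p)) (t := Set.univ) (fun x _ => Set.mem_univ _) ?_
    (Set.to_countable _)
  rintro x ⟨hp, hx⟩ y ⟨-, hy⟩ hxy
  have hxy' : win x 0 (N + p) = win y 0 (N + p) := hxy
  rw [win_eq_iff] at hxy'
  funext n
  induction n using Nat.strong_induction_on with
  | _ n ih =>
    by_cases hn : n < N + p
    · have h2 := hxy' n hn
      simpa using h2
    · have e1 : n = (n - p) + p := by omega
      have h2 := ih (n - p) (by omega)
      rw [e1, hx (n - p) (by omega), hy (n - p) (by omega), h2]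

lemma notQuad_countable : {x : ℝ | ¬ NotQuad x}.Countable := by
  refine Set.Countable.mono ?_ (Algebraic.countable ℤ ℝ)
  intro x hx
  rw [Set.mem_setOf_eq, NotQuad] at hx
  push Not at hx
  obtain ⟨A, B, C, h, hne⟩ := hx
  refine ⟨Polynomial.monomial 2 A + Polynomial.monomial 1 B + Polynomial.monomial 0 C, ?_, ?_⟩
  · intro h0
    have c2 := congrArg (fun p => Polynomial.coeff p 2) h0
    have c1 := congrArg (fun p => Polynomial.coeff p 1) h0
    have c0 := congrArg (fun p => Polynomial.coeff p 0) h0
    simp only [Polynomial.coeff_add, Polynomial.coeff_monomial, Polynomial.coeff_zero] at c2 c1 c0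
    norm_num at c2 c1 c0
    exact hne c2 c1 c0
  · rw [map_add, map_add, Polynomial.aeval_monomial, Polynomial.aeval_monomial, Polynomial.aeval_monomial]
    simp only [algebraMap_int_eq, eq_intCast, pow_one, pow_zero, mul_one]
    exact h

/-- almost every sequence of partial quotients belongs to numbers which are neither rational nor quadratic -/
lemma nq_ae {μ : Measure (ℕ → ℕ)} (hna : ∀ x, μ {x} = 0) : ∀ᵐ x ∂μ, ∀ α : ℝ, pq α = x → NotQuad α := by
  have : NullSingletonClass μ := ⟨hna⟩
  have h1 : (pq '' {x : ℝ | ¬ NotQuad x}).Countable := notQuad_countable.image _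
  have h2 := h1.ae_notMem μ
  filter_upwards [h2] with x hx α hα
  by_contra hcon
  exact hx ⟨α, hcon, hα⟩

lemma evPer_ae {μ : Measure (ℕ → ℕ)} (hna : ∀ x, μ {x} = 0) : ∀ᵐ x ∂μ, ¬ EvPer x := by
  have : NullSingletonClass μ := ⟨hna⟩
  exact evPer_countable.ae_notMem μ

end Pool.Agent.H54.TM
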