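import Pool.Agent.H54.TM.CbS2
import Pool.Agent.H54.TM.MainG

/-!
# Module MainS2: one sequence of low complexity, simultaneous approximation of quotients of quadratic polynomials (strong form)
-/

set_option autoImplicit false

namespace Pool.Agent.H54.TM

open Filter Pool.Agent.H2.MC Pool.Agent.H2.Sturm Pool.Agent.H1.DC Matrix

private lemma cmt2_freq {b a : ℕ → ℕ} {M : ℕ} (h : Bd b a M) (hb : ¬ EvPer b) {κ : ℝ} (hκ : κ < 2)
    (hc : ∃ᶠ n : ℕ in atTop, ((OccD b a n).ncard : ℝ) ≤ κ * n) :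
    ∃ᶠ m : ℕ in atTop, (RecD b a (m + 1)).ncard ≤ (RecD b a m).ncard + 1 ∧
      (TrD b a (m + 1)).ncard ≤ (TrD b a m).ncard ∧
      ((RecD b a m).ncard : ℝ) + (TrD b a m).ncard ≤ κ * m + 2 := by
  have hW : ∀ n, ((OccD b a n).ncard : ℝ) = ((RecD b a n).ncard : ℝ) + (TrD b a n).ncard := by
    intro n
    rw [occD_card h n]
    push_cast
    ring
  have hc' : ∃ᶠ n : ℕ in atTop, ((RecD b a n).ncard : ℝ) + (TrD b a n).ncard ≤ κ * n :=
    hc.mono fun n hn => by rw [← hW n]; exact hn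
  have hmono : ∀ n, ((RecD b a n).ncard : ℝ) + (TrD b a n).ncard ≤
      ((RecD b a (n + 1)).ncard : ℝ) + (TrD b a (n + 1)).ncard := by
    intro n
    have h1 : ((RecD b a n).ncard : ℝ) + 1 ≤ ((RecD b a (n + 1)).ncard : ℝ) := by
      exact_mod_cast recD_slope h hb n
    have h2 : ((TrD b a n).ncard : ℝ) ≤ ((TrD b a (n + 1)).ncard : ℝ) := by
      exact_mod_cast trD_mono h n
    linarith
  apply (good_scale_real (W := fun n => ((RecD b a n).ncard : ℝ) + (TrD b a n).ncard) hmono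
    (fun n => by positivity) hκ hc').mono
  rintro m ⟨h1, h2⟩
  have h3 : ((RecD b a m).ncard : ℝ) + 1 ≤ ((RecD b a (m + 1)).ncard : ℝ) := by
    exact_mod_cast recD_slope h hb m
  have h4 : ((TrD b a m).ncard : ℝ) ≤ ((TrD b a (m + 1)).ncard : ℝ) := by
    exact_mod_cast trD_mono h m
  refine ⟨?_, ?_, h2⟩
  · by_contra hcon
    have h5 : ((RecD b a m).ncard : ℝ) + 2 ≤ ((RecD b a (m + 1)).ncard : ℝ) := by
      have : (RecD b a m).ncard + 2 ≤ (RecD b a (m + 1)).ncard := by omega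
      exact_mod_cast this
    linarith
  · by_contra hcon
    have h5 : ((TrD b a m).ncard : ℝ) + 1 ≤ ((TrD b a (m + 1)).ncard : ℝ) := by
      have : (TrD b a m).ncard + 1 ≤ (TrD b a (m + 1)).ncard := by omega
      exact_mod_cast this
    linarith

theorem combS2 {b : ℕ → ℕ} {M : ℕ} (h : Bd b b M) (hb0 : ∀ n, 0 < b n) (hb : ¬ EvPer b)
    {κ c : ℝ} (hc : 0 ≤ c) (hκ : 2 * (1 + c) * κ < 3 + c)
    (hf : ∃ᶠ n : ℕ in atTop, ((OccD b b n).ncard : ℝ) ≤ κ * n) :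
    ∃ δ : ℝ, 0 < δ ∧ ∀ N : ℕ, GdS b c δ N := by
  have hκ1 := kappa_gt h hb hf
  have hκ2 : κ < 2 := by nlinarith
  have hfr := cmt2_freq h hb hκ2 hf
  have heq := eqD h hb hb (hfr.mono fun n hn => hn.1)
  have hRB : ∀ n, RecB b n = RecD b b n := fun n => (heq n).1
  have hc1 : c < 1 := by nlinarith
  -- the margin
  set η : ℝ := 3 + c - 2 * (1 + c) * κ with hη
  have hη0 : 0 < η := by rw [hη]; linarith
  refine ⟨η / 30, by positivity, ?_⟩
  intro N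
  obtain ⟨N1, hN1⟩ := exists_nat_gt (16 / η)
  obtain ⟨m0, hm0, hs1, hs2, hs3⟩ := frequently_atTop.1 hfr (max N N1)
  have hN0 : N ≤ m0 := (le_max_left _ _).trans hm0
  have hN1' : N1 ≤ m0 := (le_max_right _ _).trans hm0
  obtain ⟨R, c₀, d₀, hLev⟩ := lev_of_slope h.1 hb (m := m0) (by rw [hRB, hRB]; exact hs1)
  obtain ⟨C, hLev', hBis, hcard, hin, -, -⟩ := climbD h.1 hLev
  obtain ⟨i0, j0, hi0, hj0, hbi, haj⟩ := transD h m0 hs2
  have hz : In b (m0 + 1) (fun k => b (i0 + k)) := by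
    intro i
    rw [win_sh, hRB]
    exact hbi _ (Nat.le_add_right _ _)
  have hzm := hin _ hz
  set m := C.length + m0 with hm
  have hlow := recB_low h.1 hb m
  have hcr : ((RecB b m).ncard : ℝ) = (RecD b b m0).ncard + C.length := by
    rw [hcard, hRB]
    push_cast
    ring
  have hmr : (m : ℝ) = C.length + m0 := by rw [hm]; push_cast; ring
  have hCl : (0 : ℝ) ≤ C.length := Nat.cast_nonneg _
  have hm00 : (0 : ℝ) ≤ m0 := Nat.cast_nonneg _
  have hi0' : (i0 : ℝ) ≤ (TrD b b m0).ncard := by exact_mod_cast hi0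
  have hNm : 16 < η * m := by
    rw [div_lt_iff₀ hη0] at hN1
    have h1 : (N1 : ℝ) ≤ m0 := by exact_mod_cast hN1'
    nlinarith
  have hmpos : (0 : ℝ) < m := by
    by_contra hcon
    have h1 : η * m ≤ 0 := mul_nonpos_of_nonneg_of_nonpos hη0.le (not_lt.1 hcon)
    linarith
  have hDc : 8 * (1 + c) * (((RecB b m).ncard : ℝ) + 1 - m) + 2 * (3 + c) * (1 + c) * (i0 : ℝ) +
      30 * (η / 30) * m ≤ 4 * (1 - c) * m := by
    rw [hcr]
    have h1 : ((RecD b b m0).ncard : ℝ) + C.length + 1 - m = (RecD b b m0).ncard + 1 - m0 := by rw [hmr]; ring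
    rw [h1]
    set F : ℝ := ((RecD b b m0).ncard : ℝ)
    set T : ℝ := ((TrD b b m0).ncard : ℝ) with hT
    have hT0 : 0 ≤ T := Nat.cast_nonneg _
    have h2 : 2 * (3 + c) * (1 + c) * (i0 : ℝ) ≤ 8 * (1 + c) * T := by
      have h4 := mul_le_mul_of_nonneg_left hi0' (by positivity : 0 ≤ 2 * (3 + c) * (1 + c))
      have h5 : 0 ≤ 2 * (1 - c) * (1 + c) * T := by
        have : 0 ≤ 1 - c := by linarith
        positivity
      have h6 : 8 * (1 + c) * T = 2 * (3 + c) * (1 + c) * T + 2 * (1 - c) * (1 + c) * T := by ring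
      linarith
    have h5 : F + T + 1 - m0 ≤ (κ - 1) * m0 + 3 := by linarith
    have h6 := mul_le_mul_of_nonneg_left h5 (by linarith : 0 ≤ 8 * (1 + c))
    have h7 : 8 * (1 + c) * (κ - 1) * m0 ≤ 8 * (1 + c) * (κ - 1) * m := by
      apply mul_le_mul_of_nonneg_left _ (mul_nonneg (by linarith) (by linarith))
      rw [hmr]
      linarith
    have h8 : 8 * (1 + c) * (κ - 1) = 4 * (1 - c) - 4 * η := by rw [hη]; ring
    rw [h8] at h7
    have h9 : 8 * (1 + c) * ((κ - 1) * m0 + 3) = 8 * (1 + c) * (κ - 1) * m0 + 24 * (1 + c) := by ring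
    rw [h9, h8] at h6
    have h10 : (4 * (1 - c) - 4 * η) * m = 4 * (1 - c) * m - 4 * (η * m) := by ring
    rw [h10] at h7
    have h11 : 8 * (1 + c) * (F + T + 1 - m0) = 8 * (1 + c) * (F + 1 - m0) + 8 * (1 + c) * T := by ring
    rw [h11] at h6
    have h12 : 30 * (η / 30) * (m : ℝ) = η * m := by ring
    rw [h12]
    linarith
  obtain ⟨X, u, v, i, e, q1, q2, q3, q4, q5, q6, q7, q8, q9, q10⟩ :=
    cbS2 h.1 hb0 hLev' hBis hlow i0 hzm hc hc1.le (δ := η / 30) (by positivity) hmpos hDc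
  exact ⟨X, u, v, i, e, by omega, q2, q3, q4, q5, q6, q7, q8, q9, q10⟩

theorem mainS2 {α : ℝ} (hα : NotQuad α) {κ c : ℝ} (hc : 0 ≤ c) (hκ : 2 * (1 + c) * κ < 3 + c)
    (h : ∃ᶠ n : ℕ in atTop, (OccD (pq α) (pq α) n).Finite ∧ ((OccD (pq α) (pq α) n).ncard : ℝ) ≤ κ * n)
    {L0 : Fin 3 → ℤ} (hL0 : L0 ≠ 0) (L1 L2 : Fin 3 → ℤ) {ε0 : ℝ} (hε0 : 0 < ε0) (N0 : ℕ) :
    ∃ q : ℕ, N0 ≤ q ∧ 0 < q ∧
      (q : ℝ) ^ (1 + c) * (max (nd (q * (qv L1 α / qv L0 α))) (nd (q * (qv L2 α / qv L0 α)))) ^ 2 < ε0 := by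
  have hbp : ¬ EvPer (pq α) := not_evPer hα
  have hb0 : ∀ n, 0 < pq α n := pq_pos hα
  obtain ⟨n0, hn0, hn0f⟩ := (h.and_eventually (eventually_ge_atTop 1)).exists.imp
    (fun n hn => (⟨hn.2, hn.1.1⟩ : 1 ≤ n ∧ (OccD (pq α) (pq α) n).Finite))
  obtain ⟨M, hM⟩ := bd_of_occD hn0 hn0f
  have hf : ∃ᶠ n : ℕ in atTop, ((OccD (pq α) (pq α) n).ncard : ℝ) ≤ κ * n := h.mono fun n hn => hn.2
  have hκ1 := kappa_gt hM hbp hf
  have hκ2 : κ < 2 := by nlinarith
  obtain ⟨δ, hδ, hcomb⟩ := combS2 hM hb0 hbp hc hκ hf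
  -- rates
  have hfr := freqP hM hbp hκ2 hf
  have heq := eqD hM hbp hbp (hfr.mono fun n hn => hn.1)
  have hF : Lang (RecB (pq α)) := lang_RecB hM.1
  have hev : ∀ n, ∃ N, ∀ i, N ≤ i → win (pq α) i n ∈ RecB (pq α) n := fun n => ev_RecB hM.1 n
  have hcard : ∃ᶠ n : ℕ in atTop, ((RecB (pq α) n).ncard : ℝ) ≤ κ * n := by
    refine hf.mono (fun n hn => ?_)
    rw [(heq n).1]
    have h1 : ((OccD (pq α) (pq α) n).ncard : ℝ) = (RecD (pq α) (pq α) n).ncard + (TrD (pq α) (pq α) n).ncard := by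
      exact_mod_cast occD_card hM n
    have h2 : (0 : ℝ) ≤ (TrD (pq α) (pq α) n).ncard := Nat.cast_nonneg _
    linarith
  have hlog2 : 0 ≤ Real.log 2 := Real.log_nonneg (by norm_num)
  obtain ⟨lam, hlam0, hlam⟩ := rate hF (fun n w hw => hw) hev hκ2 hcard hlog2 wt_nonneg wt_append_ge wt_append_le
  have hlampos : 0 < lam := rate_pos hF.nonempty hF.len hlam0 hlam
  have hxB := win_rate hb0 hM.1 hlam0 hlam (fun n => (hev n).imp (fun N hN i hi => Or.inl (hN i hi)))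
  have hc1 : c < 1 := by nlinarith
  exact finS hα hlampos hxB hM.1 hc hc1 hδ hcomb hL0 L1 L2 hε0 N0

end Pool.Agent.H54.TM
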