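import Pool.Agent.H54.TM.CaC
import Pool.Agent.H54.TM.MainS2

/-!
# Module CaD: almost all pairs, almost all numbers, for an ergodic measure of complexity at most `κ n`, `(1+c) κ < 2`
-/

set_option autoImplicit false

namespace Pool.Agent.H54.TM

open Filter MeasureTheory Pool.Agent.H2.MC Pool.Agent.H2.Sturm Pool.Agent.H1.DC Matrix

/-- both sequences read the words `W m`, `m ∈ S`, early -/
def Cl (S : Set ℕ) (W : ℕ → List ℕ) (x y : ℕ → ℕ) : Prop :=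
  ∀ k : ℕ, ∃ M : ℕ, ∀ N : ℕ, ∃ m : ℕ, (m ∈ S ∧ N ≤ m) ∧ ∃ i j : ℕ, (k + 1) * (i + j) ≤ m + M ∧
    (win x i (W m).length = W m ∧ win y j (W m).length = W m)

lemma cl_meas (S : Set ℕ) (W : ℕ → List ℕ) :
    MeasurableSet {p : (ℕ → ℕ) × (ℕ → ℕ) | Cl S W p.1 p.2} := by
  unfold Cl
  simp only [Set.ofPred_forall, Set.ofPred_exists, Set.ofPred_and]
  refine MeasurableSet.iInter fun k => MeasurableSet.iUnion fun M => MeasurableSet.iInter fun N =>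
    MeasurableSet.iUnion fun m => MeasurableSet.inter (MeasurableSet.inter (MeasurableSet.const _)
      (MeasurableSet.const _)) ?_
  refine MeasurableSet.iUnion fun i => MeasurableSet.iUnion fun j =>
    MeasurableSet.inter (MeasurableSet.const _) (MeasurableSet.inter ?_ ?_)
  · exact measurable_fst (measurableSet_win_eq i _ _)
  · exact measurable_snd (measurableSet_win_eq j _ _)

lemma cad_union (K n : ℕ) (w : List ℕ) :
    (⋃ j ∈ Finset.range (K * n), shift^[j] ⁻¹' {x : ℕ → ℕ | win x 0 w.length = w}) =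
      {x | ∃ i < K * n, win x i w.length = w} := by
  ext y
  simp [win_shift]

lemma cl_ae {μ : Measure (ℕ → ℕ)} [IsProbabilityMeasure μ] (hμ : Ergodic shift μ) {S : Set ℕ} (hS : S.Infinite)
    {W : ℕ → List ℕ} {K : ℕ} {c : ENNReal} (hc : 0 < c)
    (h : ∀ m ∈ S, c ≤ μ {x | ∃ i < K * m, win x i (W m).length = W m}) :
    ∀ᵐ p ∂(μ.prod μ), Cl S W p.1 p.2 := by
  rw [Measure.ae_prod_iff_ae_ae (cl_meas S W)]
  have hE : ∀ n, MeasurableSet {x : ℕ → ℕ | win x 0 (W n).length = W n} :=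
    fun n => measurableSet_win_eq 0 _ (W n)
  have h1 := erg (T := shift) hμ (E := fun n => {x : ℕ → ℕ | win x 0 (W n).length = W n}) hE hS (K := K) (c := c) hc
    (by
      intro n hn
      rw [cad_union]
      exact h n hn)
  filter_upwards [h1] with x hx
  have h2 : ∀ᵐ y ∂μ, ∀ k : ℕ, ∃ M : ℕ, ∀ N : ℕ, ∃ m : ℕ, (m ∈ S ∧ N ≤ m) ∧ ∃ i j : ℕ, (k + 1) * (i + j) ≤ m + M ∧
      (win x i (W m).length = W m ∧ win y j (W m).length = W m) := by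
    rw [ae_all_iff]
    intro k
    obtain ⟨M, hM⟩ := hx (2 * k + 1)
    have hS' : {n : ℕ | n ∈ S ∧ ∃ i : ℕ, (2 * k + 1 + 1) * i ≤ n + M ∧ win x i (W n).length = W n}.Infinite := by
      rw [← Nat.frequently_atTop_iff_infinite, frequently_atTop]
      intro N
      obtain ⟨n, hn, hNn, i, hi, hxi⟩ := hM N
      refine ⟨n, hNn, hn, i, hi, ?_⟩
      have h3 : win (shift^[i] x) 0 (W n).length = W n := hxi
      rw [win_shift] at h3
      exact h3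
    have h4 := erg (T := shift) hμ (E := fun n => {x : ℕ → ℕ | win x 0 (W n).length = W n}) hE hS' (K := K) (c := c) hc
      (by
        rintro n ⟨hn, -⟩
        rw [cad_union]
        exact h n hn)
    filter_upwards [h4] with y hy
    obtain ⟨M', hM'⟩ := hy (2 * k + 1)
    refine ⟨M + M', fun N => ?_⟩
    obtain ⟨n, ⟨hnS, i, hi, hwi⟩, hNn, j, hj, hyj⟩ := hM' N
    refine ⟨n, ⟨hnS, hNn⟩, i, j, ?_, hwi, ?_⟩
    · nlinarith [hi, hj]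
    · have h5 : win (shift^[j] y) 0 (W n).length = W n := hyj
      rw [win_shift] at h5
      exact h5
  exact h2

lemma cl_cost {c δ m M k s L : ℝ} (hc : 0 ≤ c) (hc1 : c < 1) (hδ : 0 < δ) (hs : 0 ≤ s) (hk : 16 < δ * k)
    (h : k * s ≤ m + M) (hMm : M ≤ m) (hmL : m ≤ L) : 2 * (1 + c) * s ≤ δ / 2 * L := by
  have h1 : 16 * s ≤ δ * k * s := mul_le_mul_of_nonneg_right hk.le hs
  have h2 : δ * (k * s) ≤ δ * (2 * L) := mul_le_mul_of_nonneg_left (by linarith) hδ.le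
  have h3 : 2 * (1 + c) * s ≤ 4 * s := mul_le_mul_of_nonneg_right (by linarith) hs
  linarith

lemma gd_of_cl {b x y : ℕ → ℕ} {S : Set ℕ} {W : ℕ → List ℕ} {c δ : ℝ} (hc : 0 ≤ c) (hc1 : c < 1) (hδ : 0 < δ)
    (hW : ∀ m ∈ S, Cand b c δ m (W m)) (hbx : ∀ n w, (∃ p, win b p n = w) → ∃ p, win x p n = w)
    (hcl : Cl S W x y) (N : ℕ) : Gd x y c (δ / 2) N := by
  obtain ⟨k, hk⟩ := exists_nat_gt (16 / δ)
  rw [div_lt_iff₀ hδ] at hk
  obtain ⟨M, hM⟩ := hcl k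
  obtain ⟨m, ⟨hmS, hm⟩, i, j, hij, hi, hj⟩ := hM (max N M)
  obtain ⟨hmW, u, v, htw, hdet, hu, hv, hl, hin⟩ := hW m hmS
  have hN : N ≤ m := (le_max_left _ _).trans hm
  have hMm : (M : ℝ) ≤ m := by exact_mod_cast (le_max_right _ _).trans hm
  have hmW' : (m : ℝ) ≤ (W m).length := by exact_mod_cast hmW
  have hij' : ((k : ℝ) + 1) * ((i : ℝ) + j) ≤ m + M := by exact_mod_cast hij
  have hi0 : (0 : ℝ) ≤ i := Nat.cast_nonneg _
  have hj0 : (0 : ℝ) ≤ j := Nat.cast_nonneg _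
  have hcost := cl_cost (s := (i : ℝ) + j) (k := (k : ℝ) + 1) hc hc1 hδ (by linarith) (by linarith) hij' hMm hmW'
  have hcij : 0 ≤ (1 + c) * ((i : ℝ) + j) := by positivity
  refine ⟨W m, u, v, i, j, 0, 0, hN.trans hmW, htw, hdet, ⟨i, hi⟩, hbx _ _ hu, hbx _ _ hv, hl, Nat.zero_le _,
    Nat.zero_le _, ?_, ?_, ?_⟩
  · rw [Nat.sub_zero, List.drop_zero]
    exact hi
  · rw [Nat.sub_zero, List.drop_zero]
    exact hj
  · push_cast
    linarith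

lemma gdS_of_cl {b x y : ℕ → ℕ} {S : Set ℕ} {W : ℕ → List ℕ} {c δ : ℝ} (hc : 0 ≤ c) (hc1 : c < 1) (hδ : 0 < δ)
    (hW : ∀ m ∈ S, Cand b c δ m (W m)) (hbx : ∀ n w, (∃ p, win b p n = w) → ∃ p, win x p n = w)
    (hcl : Cl S W x y) (N : ℕ) : GdS x c (δ / 2) N := by
  obtain ⟨k, hk⟩ := exists_nat_gt (16 / δ)
  rw [div_lt_iff₀ hδ] at hk
  obtain ⟨M, hM⟩ := hcl k
  obtain ⟨m, ⟨hmS, hm⟩, i, j, hij, hi, hj⟩ := hM (max N M)
  obtain ⟨hmW, u, v, htw, hdet, hu, hv, hl, hin⟩ := hW m hmS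
  have hN : N ≤ m := (le_max_left _ _).trans hm
  have hMm : (M : ℝ) ≤ m := by exact_mod_cast (le_max_right _ _).trans hm
  have hmW' : (m : ℝ) ≤ (W m).length := by exact_mod_cast hmW
  have hij' : ((k : ℝ) + 1) * ((i : ℝ) + j) ≤ m + M := by exact_mod_cast hij
  have hi0 : (0 : ℝ) ≤ i := Nat.cast_nonneg _
  have hj0 : (0 : ℝ) ≤ j := Nat.cast_nonneg _
  have hcost := cl_cost (s := (i : ℝ) + j) (k := (k : ℝ) + 1) hc hc1 hδ (by linarith) (by linarith) hij' hMm hmW'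
  have hcj : 0 ≤ 2 * (1 + c) * (j : ℝ) := by positivity
  refine ⟨W m, u, v, i, 0, hN.trans hmW, htw, hdet, ⟨0, ?_⟩, hbx _ _ hu, hbx _ _ hv, hl, by omega, ?_, ?_⟩
  · simp [win]
  · rw [Nat.sub_zero, List.drop_zero]
    exact hi
  · push_cast
    linarith

/-- the rates, at all generic points -/
def Rt (lam : ℝ) (x : ℕ → ℕ) : Prop :=
  ∀ ε : ℝ, 0 < ε → ∃ C : ℝ, ∀ i n : ℕ, |Real.log (siz (win x i n)) - lam * n| ≤ ε * n + C

theorem ae_main {μ : Measure (ℕ → ℕ)} [IsProbabilityMeasure μ] (hμ : Ergodic shift μ) (hna : ∀ x, μ {x} = 0) {A : ℕ}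
    (hA : ∀ᵐ x ∂μ, ∀ n, 0 < x n ∧ x n ≤ A) {κ c : ℝ} (hc : 0 ≤ c) (hκ : (1 + c) * κ < 2)
    (h : ∃ᶠ n : ℕ in atTop, ((PW μ n).ncard : ℝ) ≤ κ * n) :
    c < 1 ∧ ∃ δ lam : ℝ, 0 < δ ∧ 0 < lam ∧ (∀ᵐ x ∂μ, Rt lam x) ∧
      (∀ᵐ p ∂(μ.prod μ), ∀ N, Gd p.1 p.2 c δ N) ∧ ∀ᵐ x ∂μ, ∀ N, GdS x c δ N := by
  have hgen := gn_ae hμ
  obtain ⟨b, hbG, hbA, hbp⟩ := (hgen.and (hA.and (evPer_ae hna))).exists
  have hb0 : ∀ n, 0 < b n := fun n => (hbA n).1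
  have hM : ∀ n, b n ≤ A := fun n => (hbA n).2
  have hf : ∃ᶠ n : ℕ in atTop, ((RecB b n).ncard : ℝ) ≤ κ * n := h.mono fun n hn => by rw [hbG.rec]; exact hn
  have hκ1 : 1 < κ := by
    obtain ⟨n, hn, hn2⟩ := frequently_atTop.1 hf 1
    have h1 := recB_low hM hbp n
    have h3 : ((n : ℝ) + 1) ≤ (RecB b n).ncard := by exact_mod_cast h1
    have h4 : (1 : ℝ) ≤ n := by exact_mod_cast hn
    by_contra hcon
    have h5 : κ * n ≤ 1 * n := mul_le_mul_of_nonneg_right (not_lt.1 hcon) (by linarith)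
    linarith
  have hcκ : 0 ≤ c * κ := mul_nonneg hc (by linarith)
  have hκ2 : κ < 2 := by linarith
  have hc1 : c < 1 := by nlinarith
  obtain ⟨δ, K, hδ, hfr⟩ := combM hM hb0 hbp hc hκ hf
  -- the rates
  have hF : Lang (RecB b) := lang_RecB hM
  have hlog2 : 0 ≤ Real.log 2 := Real.log_nonneg (by norm_num)
  obtain ⟨lam, hlam0, hlam⟩ := rate hF (fun n w hw => hw) (fun n => ev_RecB hM n) hκ2 hf hlog2 wt_nonneg wt_append_ge
    wt_append_le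
  have hlampos : 0 < lam := rate_pos hF.nonempty hF.len hlam0 hlam
  have hrt : ∀ᵐ x ∂μ, Rt lam x := by
    filter_upwards [hgen, hA] with x hxG hxA
    exact win_rate (fun n => (hxA n).1) (fun n => (hxA n).2) hlam0 hlam
      (fun n => ⟨0, fun i _ => Or.inl (by rw [hbG.rec]; exact hxG.1 n i)⟩)
  -- the candidates
  set c0 : ENNReal := ((K : ENNReal) + 1)⁻¹ with hc0
  have hc0p : 0 < c0 := ENNReal.inv_pos.2 (by simp)
  set S : Set ℕ := {m | ∃ W : List ℕ, Cand b c δ m W ∧ c0 ≤ μ {x | ∃ i < 8 * m, win x i W.length = W}} with hSdef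
  have hS : S.Infinite := by
    rw [← Nat.frequently_atTop_iff_infinite]
    refine hfr.mono ?_
    rintro m ⟨𝒲, hcard, hcand, hread⟩
    have h1 : ∀ᵐ x ∂μ, x ∈ ⋃ W ∈ 𝒲, {x : ℕ → ℕ | ∃ i < 8 * m, win x i W.length = W} := by
      filter_upwards [hgen] with x hxG
      obtain ⟨W, hW, i, hi, hwi⟩ := hread x (fun n i => by rw [hbG.rec]; exact hxG.1 n i)
      rw [Set.mem_iUnion₂]
      exact ⟨W, hW, i, hi, hwi⟩
    have h2 : (1 : ENNReal) ≤ μ (⋃ W ∈ 𝒲, {x : ℕ → ℕ | ∃ i < 8 * m, win x i W.length = W}) := by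
      rw [← measure_univ (μ := μ)]
      refine measure_mono_ae ?_
      filter_upwards [h1] with x hx _
      exact hx
    by_contra hcon
    have h3 : ∀ W ∈ 𝒲, μ {x : ℕ → ℕ | ∃ i < 8 * m, win x i W.length = W} ≤ c0 := by
      intro W hW
      by_contra hlt
      exact hcon ⟨W, hcand W hW, (not_le.1 hlt).le⟩
    have h4 : (1 : ENNReal) ≤ K * c0 := by
      calc (1 : ENNReal) ≤ μ (⋃ W ∈ 𝒲, {x : ℕ → ℕ | ∃ i < 8 * m, win x i W.length = W}) := h2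
        _ ≤ ∑ W ∈ 𝒲, μ {x : ℕ → ℕ | ∃ i < 8 * m, win x i W.length = W} := measure_biUnion_finset_le _ _
        _ ≤ ∑ W ∈ 𝒲, c0 := Finset.sum_le_sum h3
        _ = (𝒲.card : ENNReal) * c0 := by rw [Finset.sum_const, nsmul_eq_mul]
        _ ≤ K * c0 := by
          gcongr
    have h5 : (K : ENNReal) * c0 < 1 := by
      rw [hc0, ← div_eq_mul_inv, ENNReal.div_lt_iff (Or.inl (by simp)) (Or.inl (by simp)), one_mul]
      exact ENNReal.lt_add_right (by simp) one_ne_zero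
    exact absurd h4 (not_le.2 h5)
  have hch : ∀ m : ℕ, ∃ W : List ℕ, m ∈ S → Cand b c δ m W ∧ c0 ≤ μ {x | ∃ i < 8 * m, win x i W.length = W} := by
    intro m
    by_cases hm : m ∈ S
    · obtain ⟨W, hW⟩ := hm
      exact ⟨W, fun _ => hW⟩
    · exact ⟨[], fun h' => absurd h' hm⟩
  choose W hW using hch
  have hcl := cl_ae hμ hS (W := W) (K := 8) hc0p (fun m hm => (hW m hm).2)
  have hbx : ∀ x, Gn μ x → ∀ n w, (∃ p, win b p n = w) → ∃ p, win x p n = w := by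
    rintro x hx n w ⟨p, rfl⟩
    exact Filter.Frequently.exists (hx.2 n _ (hbG.1 n p))
  refine ⟨hc1, δ / 2, lam, by positivity, hlampos, hrt, ?_, ?_⟩
  · have h1 : ∀ᵐ p ∂(μ.prod μ), Gn μ p.1 := Measure.quasiMeasurePreserving_fst.ae hgen
    filter_upwards [hcl, h1] with p hp hp1 N
    exact gd_of_cl hc hc1 hδ (fun m hm => (hW m hm).1) (hbx _ hp1) hp N
  · have h1 := Measure.ae_ae_of_ae_prod hcl
    filter_upwards [h1, hgen] with x hx hxG N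
    obtain ⟨y, hy⟩ := hx.exists
    exact gdS_of_cl hc hc1 hδ (fun m hm => (hW m hm).1) (hbx _ hxG) hy N

/-- **Almost all pairs**. -/
theorem ae_pairs {μ : Measure (ℕ → ℕ)} [IsProbabilityMeasure μ] (hμ : Ergodic shift μ) (hna : ∀ x, μ {x} = 0) {A : ℕ}
    (hA : ∀ᵐ x ∂μ, ∀ n, 0 < x n ∧ x n ≤ A) {κ c : ℝ} (hc : 0 ≤ c) (hκ : (1 + c) * κ < 2)
    (h : ∃ᶠ n : ℕ in atTop, ((PW μ n).ncard : ℝ) ≤ κ * n) :
    ∀ᵐ p ∂(μ.prod μ), ∀ α β : ℝ, pq α = p.1 → pq β = p.2 → ∀ g h : Matrix (Fin 2) (Fin 2) ℤ, g.det ≠ 0 → h.det ≠ 0 →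
      PowerLittlewood c (mob g α) (mob h β) := by
  obtain ⟨hc1, δ, lam, hδ, hlam, hrt, hgd, -⟩ := ae_main hμ hna hA hc hκ h
  have hnq := nq_ae hna
  have f1 : ∀ᵐ p ∂(μ.prod μ), Rt lam p.1 ∧ (∀ n, 0 < p.1 n ∧ p.1 n ≤ A) ∧ ∀ α : ℝ, pq α = p.1 → NotQuad α :=
    Measure.quasiMeasurePreserving_fst.ae (hrt.and (hA.and hnq))
  have f2 : ∀ᵐ p ∂(μ.prod μ), Rt lam p.2 ∧ ∀ α : ℝ, pq α = p.2 → NotQuad α :=
    Measure.quasiMeasurePreserving_snd.ae (hrt.and hnq)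
  filter_upwards [hgd, f1, f2] with p hp h1 h2 α β hα hβ g h hg hh
  have hαq := h1.2.2 α hα
  have hβq := h2.2 β hβ
  refine finG hαq hβq hg hh hlam ?_ (A := A) ?_ hc hc1 hδ ?_
  · intro ε hε
    obtain ⟨C, hC⟩ := h1.1 ε hε
    obtain ⟨C', hC'⟩ := h2.1 ε hε
    rw [hα, hβ]
    exact ⟨max C C', fun i n => ⟨(hC i n).trans (by gcongr; exact le_max_left _ _),
      (hC' i n).trans (by gcongr; exact le_max_right _ _)⟩⟩
  · intro n
    rw [hα]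
    exact (h1.2.1 n).2
  · rw [hα, hβ]
    exact hp

/-- **Almost all numbers**. -/
theorem ae_one {μ : Measure (ℕ → ℕ)} [IsProbabilityMeasure μ] (hμ : Ergodic shift μ) (hna : ∀ x, μ {x} = 0) {A : ℕ}
    (hA : ∀ᵐ x ∂μ, ∀ n, 0 < x n ∧ x n ≤ A) {κ c : ℝ} (hc : 0 ≤ c) (hκ : (1 + c) * κ < 2)
    (h : ∃ᶠ n : ℕ in atTop, ((PW μ n).ncard : ℝ) ≤ κ * n) :
    ∀ᵐ x ∂μ, ∀ α : ℝ, pq α = x → ∀ L0 L1 L2 : Fin 3 → ℤ, L0 ≠ 0 → ∀ ε0 : ℝ, 0 < ε0 → ∀ N0 : ℕ,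
      ∃ q : ℕ, N0 ≤ q ∧ 0 < q ∧
        (q : ℝ) ^ (1 + c) * (max (nd (q * (qv L1 α / qv L0 α))) (nd (q * (qv L2 α / qv L0 α)))) ^ 2 < ε0 := by
  obtain ⟨hc1, δ, lam, hδ, hlam, hrt, -, hgd⟩ := ae_main hμ hna hA hc hκ h
  filter_upwards [hgd, hrt, hA, nq_ae hna] with x hx hr hxA hq α hα L0 L1 L2 hL0 ε0 hε0 N0
  refine finS (hq α hα) hlam ?_ (A := A) ?_ hc hc1 hδ ?_ hL0 L1 L2 hε0 N0
  · rw [hα]
    exact hr
  · intro n
    rw [hα]
    exact (hxA n).2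
  · rw [hα]
    exact hx

end Pool.Agent.H54.TM
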