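import Pool.Agent.H54.TM.CritS
import Pool.Agent.H54.TM.FinG

/-!
# One sequence: simultaneous approximation of quotients of quadratic polynomials in `α` (MP_0ea415_nt)

`α = β`, `i = j` in the criterion: the matrix `P` is close to `q (α², α; α, 1)`. So for integer quadratic polynomials `L0`, `L1`,
`L2` the integer `L0(P)` is a good denominator for `L1(α) / L0(α)` and for `L2(α) / L0(α)` at the same time.
-/

set_option autoImplicit false

namespace Pool.Agent.H54.TM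

open Pool.Agent.H2.MC Pool.Agent.H2.Sturm Matrix

/-- a good scale for one sequence -/
def GdS (b : ℕ → ℕ) (c δ : ℝ) (N : ℕ) : Prop :=
  ∃ (X u v : List ℕ) (i e : ℕ), N ≤ X.length ∧
    cfZ X * (tws u v)ᵀ = tws u v * (cfZ X)ᵀ ∧ (tws u v).det ≠ 0 ∧
    (∃ p, win b p e = X.take e) ∧ (∃ p, win b p u.length = u) ∧ (∃ p, win b p v.length = v) ∧
    v.length = u.length ∧ 2 * e ≤ X.length ∧ win b i (X.length - e) = X.drop e ∧
    (3 + c) * u.length + 2 * (1 + c) * i + δ * X.length ≤ (1 - c) * (X.length - 2 * e)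

/-- the value of an integer quadratic polynomial -/
noncomputable def qv (l : Fin 3 → ℤ) (x : ℝ) : ℝ := (l 0 : ℝ) * x ^ 2 + l 1 * x + l 2

lemma qv_ne {x : ℝ} (hx : NotQuad x) {l : Fin 3 → ℤ} (hl : l ≠ 0) : qv l x ≠ 0 := by
  intro h
  obtain ⟨h0, h1, h2⟩ := hx (l 0) (l 1) (l 2) h
  apply hl
  ext k
  fin_cases k
  · exact h0
  · exact h1
  · exact h2

lemma eta_gen {F : ℕ → ℝ} (hF : ∀ q, 0 < q → 0 < F q) {ε0 : ℝ} (hε : 0 < ε0) (N : ℕ) :
    ∃ η : ℝ, 0 < η ∧ η ≤ ε0 ∧ ∀ q : ℕ, 0 < q → q < N → η ≤ F q := by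
  induction N with
  | zero => exact ⟨ε0, hε, le_refl _, fun q _ hq => absurd hq (Nat.not_lt_zero _)⟩
  | succ N ih =>
    obtain ⟨η, h1, h2, h3⟩ := ih
    by_cases hN : 0 < N
    · refine ⟨min η (F N), lt_min h1 (hF N hN), (min_le_left _ _).trans h2, fun q hq hqN => ?_⟩
      rcases Nat.lt_succ_iff_lt_or_eq.1 hqN with h4 | h4
      · exact (min_le_left _ _).trans (h3 q hq h4)
      · subst h4
        exact min_le_right _ _
    · refine ⟨η, h1, h2, fun q hq hqN => ?_⟩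
      omega

/-- the value of a quadratic polynomial at the matrix `P` -/
def qi (l : Fin 3 → ℤ) (P : Matrix (Fin 2) (Fin 2) ℤ) : ℤ := l 0 * P 0 0 + l 1 * P 0 1 + l 2 * P 1 1

lemma qi_bd {P : Matrix (Fin 2) (Fin 2) ℤ} {x E G : ℝ} (hG : 1 ≤ G) (hx : |x| ≤ G) {l : Fin 3 → ℤ}
    (hl : ∀ k, |(l k : ℝ)| ≤ G) (hc : ∀ k, |(P 0 k : ℝ) - x * P 1 k| ≤ E) (hr : ∀ k, |(P k 0 : ℝ) - x * P k 1| ≤ E) :
    |(qi l P : ℝ) - qv l x * P 1 1| ≤ 3 * G ^ 2 * E := by
  have hE : 0 ≤ E := (abs_nonneg _).trans (hc 0)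
  have hG0 : 0 ≤ G := by linarith
  have e1 : (qi l P : ℝ) - qv l x * P 1 1 = l 0 * (((P 0 0 : ℝ) - x * P 1 0) + x * ((P 1 0 : ℝ) - x * P 1 1)) +
      l 1 * ((P 0 1 : ℝ) - x * P 1 1) := by
    unfold qi qv
    push_cast
    ring
  have t1 : |x * ((P 1 0 : ℝ) - x * P 1 1)| ≤ G * E := by
    rw [abs_mul]
    exact mul_le_mul hx (hr 1) (abs_nonneg _) hG0
  have t2 : |((P 0 0 : ℝ) - x * P 1 0) + x * ((P 1 0 : ℝ) - x * P 1 1)| ≤ E + G * E :=
    (abs_add_le _ _).trans (add_le_add (hc 0) t1)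
  have t3 : |(l 0 : ℝ) * (((P 0 0 : ℝ) - x * P 1 0) + x * ((P 1 0 : ℝ) - x * P 1 1))| ≤ G * (E + G * E) := by
    rw [abs_mul]
    exact mul_le_mul (hl 0) t2 (abs_nonneg _) hG0
  have t4 : |(l 1 : ℝ) * ((P 0 1 : ℝ) - x * P 1 1)| ≤ G * E := by
    rw [abs_mul]
    exact mul_le_mul (hl 1) (hc 1) (abs_nonneg _) hG0
  rw [e1]
  refine (abs_add_le _ _).trans ?_
  have h1 : G * E ≤ G * (G * E) := by
    refine mul_le_mul_of_nonneg_left ?_ hG0
    have := mul_le_mul_of_nonneg_right hG hE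
    linarith
  have h2 : 3 * G ^ 2 * E = G * (G * E) + G * (G * E) + G * (G * E) := by ring
  rw [h2]
  have h3 : G * (E + G * E) = G * E + G * (G * E) := by ring
  rw [h3] at t3
  linarith

theorem critQ {α : ℝ} (hα : ∀ n, 0 < pq α n) {A : ℕ} (hA : ∀ n, pq α n ≤ A) {L0 : Fin 3 → ℤ} (h0 : qv L0 α ≠ 0)
    (L1 L2 : Fin 3 → ℤ) :
    ∃ C : ℝ, 1 ≤ C ∧ ∀ (i : ℕ) (s V : List ℕ) (Z Z' : Matrix (Fin 2) (Fin 2) ℤ) (z : ℝ),
      (∀ k l, |(Z k l : ℝ)| ≤ z) → (∀ k l, |(Z' k l : ℝ)| ≤ z) → Z.det ≠ 0 →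
      win (pq α) i V.length = V → (∀ e ∈ s, 0 < e) → cfZ (s ++ V) * Z = Z' * (cfZ (s ++ V))ᵀ →
      siz s ≤ siz V → C * z * siz s < siz V →
      ∃ q : ℕ, 0 < q ∧ (q : ℝ) ≤ C * z * siz (win (pq α) 0 i) ^ 2 * siz V / siz s ∧
        nd (q * (qv L1 α / qv L0 α)) ≤ C * z * siz s / siz V ∧
        nd (q * (qv L2 α / qv L0 α)) ≤ C * z * siz s / siz V := by
  obtain ⟨C0, hC0, hcr⟩ := critS hα hα hA
  obtain ⟨G, hG1, hGa, hG3, hG4, hG5, hGx, hGy, hGi, hGl⟩ : ∃ G : ℝ, 1 ≤ G ∧ |α| ≤ G ∧ (∀ k, |(L0 k : ℝ)| ≤ G) ∧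
      (∀ k, |(L1 k : ℝ)| ≤ G) ∧ (∀ k, |(L2 k : ℝ)| ≤ G) ∧ |qv L1 α / qv L0 α| ≤ G ∧ |qv L2 α / qv L0 α| ≤ G ∧
      |qv L0 α|⁻¹ ≤ G ∧ |qv L0 α| ≤ G := by
    refine ⟨1 + |α| + (∑ k, |(L0 k : ℝ)|) + (∑ k, |(L1 k : ℝ)|) + (∑ k, |(L2 k : ℝ)|) + |qv L1 α / qv L0 α| +
      |qv L2 α / qv L0 α| + |qv L0 α|⁻¹ + |qv L0 α|, ?_, ?_, ?_, ?_, ?_, ?_, ?_, ?_, ?_⟩
    all_goals
      simp only [Fin.sum_univ_three]
      have a1 := abs_nonneg α
      have a2 := abs_nonneg (L0 0 : ℝ)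
      have a3 := abs_nonneg (L0 1 : ℝ)
      have a4 := abs_nonneg (L0 2 : ℝ)
      have a5 := abs_nonneg (L1 0 : ℝ)
      have a6 := abs_nonneg (L1 1 : ℝ)
      have a7 := abs_nonneg (L1 2 : ℝ)
      have a8 := abs_nonneg (L2 0 : ℝ)
      have a9 := abs_nonneg (L2 1 : ℝ)
      have b1 := abs_nonneg (L2 2 : ℝ)
      have b2 := abs_nonneg (qv L1 α / qv L0 α)
      have b3 := abs_nonneg (qv L2 α / qv L0 α)
      have b4 := abs_nonneg (qv L0 α)
      have b5 := inv_nonneg.2 b4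
      first
        | linarith
        | (intro k
           fin_cases k <;> simp only [Fin.zero_eta, Fin.mk_one, Fin.reduceFinMk, Fin.isValue] <;> linarith)
  have hG0 : 0 < G := by linarith
  have hG2 : 1 ≤ G ^ 2 := one_le_pow₀ hG1
  have hG3' : 1 ≤ G ^ 3 := one_le_pow₀ hG1
  have hqpos : 0 < |qv L0 α| := abs_pos.2 h0
  have hqinv : 1 ≤ G * |qv L0 α| := by
    have h1 := mul_le_mul_of_nonneg_right hGi hqpos.le
    rwa [inv_mul_cancel₀ hqpos.ne'] at h1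
  have hCC : C0 ≤ C0 ^ 2 := by nlinarith
  refine ⟨12 * G ^ 3 * C0 ^ 2, by nlinarith, ?_⟩
  intro i s V Z Z' z hZ hZ' hdet hV hs hrel hs1 hs2
  have hVp : ∀ e ∈ V, 0 < e := by
    rw [← hV]
    exact win_pos hα _ _
  have hT : (1 : ℝ) ≤ (siz (win (pq α) 0 i) : ℝ) := by exact_mod_cast siz_pos (win_pos hα 0 i)
  have hsV : (1 : ℝ) ≤ siz V := by exact_mod_cast siz_pos hVp
  have hss : (1 : ℝ) ≤ siz s := by exact_mod_cast siz_pos hs
  have hz0 : 0 ≤ z := (abs_nonneg _).trans (hZ 0 0)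
  have hcond : C0 * z ^ 2 * siz s * siz s < siz V * siz V := by
    have h1 : 0 ≤ z * siz s := by positivity
    have h2 : C0 * z * siz s ≤ 12 * G ^ 3 * C0 ^ 2 * z * siz s := by
      have h3 : C0 ≤ 12 * G ^ 3 * C0 ^ 2 := by nlinarith
      have := mul_le_mul_of_nonneg_right h3 h1
      calc C0 * z * siz s = C0 * (z * siz s) := by ring
        _ ≤ 12 * G ^ 3 * C0 ^ 2 * (z * siz s) := this
        _ = _ := by ring
    have h3 : C0 * z * siz s < siz V := lt_of_le_of_lt h2 hs2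
    have h4 : 0 ≤ C0 * z * siz s := by positivity
    have h5 : (C0 * z * siz s) * (C0 * z * siz s) < siz V * siz V := mul_self_lt_mul_self h4 h3
    have h6 : C0 * z ^ 2 * siz s * siz s ≤ (C0 * z * siz s) * (C0 * z * siz s) := by
      have h7 : 0 ≤ z ^ 2 * siz s * siz s := by positivity
      have h8 := mul_le_mul_of_nonneg_right hCC h7
      calc C0 * z ^ 2 * siz s * siz s = C0 * (z ^ 2 * siz s * siz s) := by ring
        _ ≤ C0 ^ 2 * (z ^ 2 * siz s * siz s) := h8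
        _ = _ := by ring
    linarith
  obtain ⟨hz1, P, -, hP0, hP11, hcol, hrow⟩ :=
    hcr i i s V s V Z Z' z hZ hZ' hdet hV hV hs hs hrel hs1 hs1 hcond
  set T : ℝ := (siz (win (pq α) 0 i) : ℝ) with hTdef
  set v : ℝ := (siz V : ℝ) with hvdef
  set w : ℝ := (siz s : ℝ) with hwdef
  set E : ℝ := C0 * z * w / v with hE
  have hE0 : 0 ≤ E := by positivity
  have hEe : C0 * z * w * T / (T * v) = E := by
    rw [hE]
    field_simp
  rw [hEe] at hcol hrow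
  have hGE : 12 * G ^ 3 * C0 * E < 1 := by
    have h1 : 12 * G ^ 3 * C0 * E = 12 * G ^ 3 * C0 ^ 2 * z * w / v := by
      rw [hE]
      ring
    rw [h1, div_lt_one (by linarith)]
    exact hs2
  have hGE' : 12 * G ^ 3 * E < 1 := by
    have h1 : 0 ≤ 12 * G ^ 3 * E := by positivity
    have h2 : 12 * G ^ 3 * E * 1 ≤ 12 * G ^ 3 * E * C0 := mul_le_mul_of_nonneg_left hC0 h1
    have h3 : 12 * G ^ 3 * E * C0 = 12 * G ^ 3 * C0 * E := by ring
    linarith
  have hI0 := qi_bd hG1 hGa hG3 hcol hrow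
  have hI1 := qi_bd hG1 hGa hG4 hcol hrow
  have hI2 := qi_bd hG1 hGa hG5 hcol hrow
  have hP1 : 1 ≤ |(P 1 1 : ℝ)| := by
    have : 1 ≤ |P 1 1| := Int.one_le_abs hP0
    exact_mod_cast this
  -- the small error against the main term
  have herr : 3 * G ^ 2 * E * (4 * G) < 1 := by
    have : 3 * G ^ 2 * E * (4 * G) = 12 * G ^ 3 * E := by ring
    rw [this]
    exact hGE'
  have herr2 : 3 * G ^ 2 * E < 1 := by
    have h1 : 0 ≤ 3 * G ^ 2 * E := by positivity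
    have h2 : 3 * G ^ 2 * E * 1 ≤ 3 * G ^ 2 * E * (4 * G) := mul_le_mul_of_nonneg_left (by linarith) h1
    linarith
  have hne : qi L0 P ≠ 0 := by
    intro hcon
    rw [hcon, Int.cast_zero, zero_sub, abs_neg, abs_mul] at hI0
    have h1 : |qv L0 α| * 1 ≤ |qv L0 α| * |(P 1 1 : ℝ)| := mul_le_mul_of_nonneg_left hP1 hqpos.le
    have h2 : |qv L0 α| ≤ 3 * G ^ 2 * E := by linarith
    have h3 : G * |qv L0 α| ≤ G * (3 * G ^ 2 * E) := mul_le_mul_of_nonneg_left h2 hG0.le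
    have h4 : 3 * G ^ 2 * E * (4 * G) = 4 * (G * (3 * G ^ 2 * E)) := by ring
    rw [h4] at herr
    linarith
  have hq : ((qi L0 P).natAbs : ℝ) = |(qi L0 P : ℝ)| := natAbs_real _
  have hnd : ∀ L : Fin 3 → ℤ, |(qi L P : ℝ) - qv L α * P 1 1| ≤ 3 * G ^ 2 * E → |qv L α / qv L0 α| ≤ G →
      nd (((qi L0 P).natAbs : ℝ) * (qv L α / qv L0 α)) ≤ 12 * G ^ 3 * C0 ^ 2 * z * w / v := by
    intro L hL hx
    refine (nd_natAbs (qi L0 P) (qv L α / qv L0 α) (qi L P)).trans ?_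
    have e1 : (qi L P : ℝ) - qv L α / qv L0 α * qi L0 P =
        ((qi L P : ℝ) - qv L α * P 1 1) - qv L α / qv L0 α * ((qi L0 P : ℝ) - qv L0 α * P 1 1) := by
      have : qv L α / qv L0 α * qv L0 α = qv L α := div_mul_cancel₀ _ h0
      linear_combination (-(P 1 1 : ℝ)) * this
    rw [e1]
    refine (abs_sub _ _).trans ?_
    rw [abs_mul]
    have h1 : |qv L α / qv L0 α| * |(qi L0 P : ℝ) - qv L0 α * P 1 1| ≤ G * (3 * G ^ 2 * E) :=
      mul_le_mul hx hI0 (abs_nonneg _) hG0.le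
    have h2 : 3 * G ^ 2 * E ≤ G * (3 * G ^ 2 * E) := by
      have : 0 ≤ 3 * G ^ 2 * E := by positivity
      have := mul_le_mul_of_nonneg_right hG1 this
      linarith
    have h3 : 12 * G ^ 3 * C0 ^ 2 * z * w / v = 12 * G ^ 3 * C0 * E := by
      rw [hE]
      ring
    rw [h3]
    have h4 : G * (3 * G ^ 2 * E) + G * (3 * G ^ 2 * E) ≤ 12 * G ^ 3 * C0 * E := by
      have h5 : 0 ≤ G ^ 3 * E := by positivity
      have h6 : G ^ 3 * E * 1 ≤ G ^ 3 * E * C0 := mul_le_mul_of_nonneg_left hC0 h5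
      have h7 : G * (3 * G ^ 2 * E) + G * (3 * G ^ 2 * E) = 6 * (G ^ 3 * E) := by ring
      have h8 : 12 * G ^ 3 * C0 * E = 12 * (G ^ 3 * E * C0) := by ring
      rw [h7, h8]
      linarith
    linarith
  refine ⟨(qi L0 P).natAbs, Int.natAbs_pos.2 hne, ?_, hnd L1 hI1 hGx, hnd L2 hI2 hGy⟩
  rw [hq]
  have h1 : |(qi L0 P : ℝ)| ≤ |(qi L0 P : ℝ) - qv L0 α * P 1 1| + |qv L0 α * P 1 1| := by
    have := abs_add_le ((qi L0 P : ℝ) - qv L0 α * P 1 1) (qv L0 α * P 1 1)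
    rwa [sub_add_cancel] at this
  rw [abs_mul] at h1
  have h2 : |qv L0 α| * |(P 1 1 : ℝ)| ≤ G * |(P 1 1 : ℝ)| := mul_le_mul_of_nonneg_right hGl (abs_nonneg _)
  have h3 : |(P 1 1 : ℝ)| ≤ G * |(P 1 1 : ℝ)| := by
    have := mul_le_mul_of_nonneg_right hG1 (abs_nonneg (P 1 1 : ℝ))
    linarith
  have h4 : |(qi L0 P : ℝ)| ≤ 2 * G * |(P 1 1 : ℝ)| := by linarith
  refine h4.trans ?_
  have h5 : 2 * G * |(P 1 1 : ℝ)| ≤ 2 * G * (C0 * z * T * T * v / w) := mul_le_mul_of_nonneg_left hP11 (by positivity)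
  refine h5.trans ?_
  have h6 : 2 * G * (C0 * z * T * T * v / w) = 2 * G * C0 * (z * T ^ 2 * v / w) := by ring
  have h7 : 12 * G ^ 3 * C0 ^ 2 * z * T ^ 2 * v / w = 12 * G ^ 3 * C0 ^ 2 * (z * T ^ 2 * v / w) := by ring
  rw [h6, h7]
  refine mul_le_mul_of_nonneg_right ?_ (by positivity)
  have h8 : G ≤ G ^ 3 := by
    have := pow_le_pow_right₀ hG1 (by norm_num : 1 ≤ 3)
    rwa [pow_one] at this
  have h9 : G * C0 ≤ G ^ 3 * C0 ^ 2 := mul_le_mul h8 hCC (by linarith) (by positivity)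
  have h10 : 0 ≤ G ^ 3 * C0 ^ 2 := by positivity
  nlinarith

theorem finS {α : ℝ} (hα : NotQuad α) {lam : ℝ} (hlam : 0 < lam)
    (hr : ∀ ε : ℝ, 0 < ε → ∃ C : ℝ, ∀ i n : ℕ, |Real.log (siz (win (pq α) i n)) - lam * n| ≤ ε * n + C)
    {A : ℕ} (hA : ∀ n, pq α n ≤ A) {c δ : ℝ} (hc0 : 0 ≤ c) (hc1 : c < 1) (hδ : 0 < δ)
    (hgd : ∀ N : ℕ, GdS (pq α) c δ N) {L0 : Fin 3 → ℤ} (hL0 : L0 ≠ 0) (L1 L2 : Fin 3 → ℤ) {ε0 : ℝ} (hε0 : 0 < ε0) (N0 : ℕ) :
    ∃ q : ℕ, N0 ≤ q ∧ 0 < q ∧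
      (q : ℝ) ^ (1 + c) * (max (nd (q * (qv L1 α / qv L0 α))) (nd (q * (qv L2 α / qv L0 α)))) ^ 2 < ε0 := by
  have hαp := pq_pos hα
  have hq0 : qv L0 α ≠ 0 := qv_ne hα hL0
  set x : ℝ := qv L1 α / qv L0 α with hx
  set y : ℝ := qv L2 α / qv L0 α with hy
  set F : ℕ → ℝ := fun q => (q : ℝ) ^ (1 + c) * (max (nd (q * x)) (nd (q * y))) ^ 2 with hF
  -- both numbers rational
  by_cases hrat : ∃ q : ℕ, 0 < q ∧ nd (q * x) = 0 ∧ nd (q * y) = 0
  · obtain ⟨q, hq, hqx, hqy⟩ := hrat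
    have hmul : ∀ t : ℝ, nd (q * t) = 0 → nd (((q * (N0 + 1) : ℕ) : ℝ) * t) = 0 := by
      intro t ht
      have h1 : (q : ℝ) * t = round ((q : ℝ) * t) := by
        have := abs_eq_zero.1 ht
        linarith
      have h2 : nd (((q * (N0 + 1) : ℕ) : ℝ) * t) ≤ |((q * (N0 + 1) : ℕ) : ℝ) * t - ((round ((q : ℝ) * t) * (N0 + 1) : ℤ) : ℝ)| :=
        nd_le _ _
      have h3 : ((q * (N0 + 1) : ℕ) : ℝ) * t - ((round ((q : ℝ) * t) * (N0 + 1) : ℤ) : ℝ) = 0 := by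
        push_cast
        linear_combination ((N0 : ℝ) + 1) * h1
      rw [h3, abs_zero] at h2
      exact le_antisymm h2 (abs_nonneg _)
    refine ⟨q * (N0 + 1), ?_, by positivity, ?_⟩
    · calc N0 ≤ 1 * (N0 + 1) := by omega
        _ ≤ q * (N0 + 1) := Nat.mul_le_mul_right _ hq
    · rw [hmul x hqx, hmul y hqy, max_self]
      simpa using hε0
  push Not at hrat
  have hFpos : ∀ q : ℕ, 0 < q → 0 < F q := by
    intro q hq
    have h1 : 0 < max (nd (q * x)) (nd (q * y)) := by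
      by_contra hcon
      have h2 := not_lt.1 hcon
      have h3 : nd (q * x) = 0 := le_antisymm ((le_max_left _ _).trans h2) (abs_nonneg _)
      have h4 : nd (q * y) = 0 := le_antisymm ((le_max_right _ _).trans h2) (abs_nonneg _)
      exact hrat q hq h3 h4
    have h2 : (0 : ℝ) < q := by exact_mod_cast hq
    show 0 < (q : ℝ) ^ (1 + c) * (max (nd (q * x)) (nd (q * y))) ^ 2
    positivity
  obtain ⟨η, hη, hηε, hηq⟩ := eta_gen hFpos hε0 N0
  obtain ⟨C0, hC0, hcrit⟩ := critQ hαp hA hq0 L1 L2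
  set ε : ℝ := lam * δ / 32 with hεdef
  have hε : 0 < ε := by positivity
  obtain ⟨C', hC'⟩ := hr ε hε
  set C : ℝ := max C' 0 with hCdef
  have hC : ∀ i n : ℕ, |Real.log (siz (win (pq α) i n)) - lam * n| ≤ ε * n + C := by
    intro i n
    have h1 := hC' i n
    have := le_max_left C' 0
    exact h1.trans (by linarith)
  have hCn : 0 ≤ C := le_max_right _ _
  have hlC0 : 0 ≤ Real.log C0 := Real.log_nonneg hC0
  have hl2 : 0 ≤ Real.log 2 := Real.log_nonneg (by norm_num)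
  set K : ℝ := 8 * C + Real.log C0 + 3 * Real.log 2 + 1 with hK
  have hK0 : 0 < K := by positivity
  obtain ⟨N, hN⟩ := exists_nat_gt ((4 * K + 1 + |Real.log η|) / (lam * δ / 4))
  obtain ⟨X, u, v, i, e, hNL, hpal, hdet, ⟨p, hp⟩, ⟨pu, hpu⟩, ⟨pv, hpv⟩, hlv, he2, hwi, hineq⟩ := hgd (N + 1)
  set L := X.length with hL
  set D := u.length with hD
  have he : e ≤ L := by omega
  have hLN : (4 * K + 1 + |Real.log η|) / (lam * δ / 4) < L := by
    refine hN.trans_le ?_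
    exact_mod_cast (by omega : N ≤ L)
  rw [div_lt_iff₀ (by positivity)] at hLN
  have hLpos : (0 : ℝ) < L := by exact_mod_cast (by omega : 0 < L)
  have he2' : 2 * (e : ℝ) ≤ L := by exact_mod_cast he2
  have hi0 : (0 : ℝ) ≤ i := Nat.cast_nonneg _
  have he0 : (0 : ℝ) ≤ e := Nat.cast_nonneg _
  have hD0 : (0 : ℝ) ≤ D := Nat.cast_nonneg _
  have hδL : 0 < δ * L := by positivity
  have hcD : 0 ≤ c * D := by positivity
  have hci : 0 ≤ c * i := by positivity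
  have hcL : (1 - c) * ((L : ℝ) - 2 * e) ≤ L - 2 * e := by
    have : 0 ≤ c * ((L : ℝ) - 2 * e) := mul_nonneg hc0 (by linarith)
    linarith
  have hsum : 3 * (D : ℝ) + 2 * i + δ * L ≤ L - 2 * e := by linarith
  -- the words
  have hXp : ∀ x ∈ X.take e, 0 < x := by
    rw [← hp]
    exact win_pos hαp _ _
  have hup : ∀ x ∈ u, 0 < x := by
    rw [← hpu]
    exact win_pos hαp _ _
  have hvp : ∀ x ∈ v, 0 < x := by
    rw [← hpv]
    exact win_pos hαp _ _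
  have bα := fun i n => siz_bounds hαp hC i n
  have b1 := bα p e
  have b2 := bα i (L - e)
  rw [hp] at b1
  rw [hwi] at b2
  have b3 := bα pu D
  have b4 := bα pv v.length
  rw [hpu] at b3
  rw [hpv, hlv] at b4
  have b5 := bα 0 i
  have cL1 : ((L - e : ℕ) : ℝ) = L - e := by rw [Nat.cast_sub he]
  rw [cL1] at b2
  set z : ℝ := siz u + siz v with hz
  have hsu : (1 : ℝ) ≤ siz u := by exact_mod_cast siz_pos hup
  have hsv : (1 : ℝ) ≤ siz v := by exact_mod_cast siz_pos hvp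
  have hzb : z ≤ Real.exp (Real.log 2 + (lam * D + (ε * D + C))) := by
    rw [Real.exp_add, Real.exp_log (by norm_num)]
    linarith [b3.1, b4.1]
  have hz0 : 0 < z := by linarith
  -- quantities
  have hεL : 12 * ε * L + 4 * K + 1 < lam * (δ * L) := by
    have h1 : 0 ≤ |Real.log η| := abs_nonneg _
    have h2 : ε * L = lam * δ * L / 32 := by rw [hεdef]; ring
    have h3 : 0 ≤ lam * δ * L := by positivity
    linarith only [h1, h2, h3, hLN]
  have hεe : ε * (2 * (e : ℝ)) ≤ ε * L := mul_le_mul_of_nonneg_left he2' hε.le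
  have hεs : ε * (3 * (D : ℝ) + 2 * i + 2 * e) ≤ ε * L := mul_le_mul_of_nonneg_left (by linarith) hε.le
  have hεi : 0 ≤ ε * (i : ℝ) := by positivity
  have hεe0 : 0 ≤ ε * (e : ℝ) := by positivity
  have hεD0 : 0 ≤ ε * (D : ℝ) := by positivity
  have hεL0 : 0 ≤ ε * (L : ℝ) := by positivity
  have hlsum : lam * (δ * L) ≤ lam * ((L : ℝ) - 2 * e - 2 * i - 3 * D) :=
    mul_le_mul_of_nonneg_left (by linarith) hlam.le
  have hli : 0 ≤ lam * (i : ℝ) := by positivity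
  have hlD : 0 ≤ lam * (D : ℝ) := by positivity
  have ee0 : (0 : ℝ) ≤ siz (X.take e) := Nat.cast_nonneg _
  have b1p : (0 : ℝ) < siz (X.take e) := lt_of_lt_of_le (Real.exp_pos _) b1.2
  have b2p : (0 : ℝ) < siz (X.drop e) := lt_of_lt_of_le (Real.exp_pos _) b2.2
  -- the error
  have hEb : C0 * z * siz (X.take e) / siz (X.drop e) ≤
      Real.exp (-(lam * (L - 2 * e - D)) + 2 * (ε * L) + K) := by
    rw [div_le_iff₀ b2p]
    have h1 : C0 * z * siz (X.take e) ≤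
        Real.exp (Real.log C0) * Real.exp (Real.log 2 + (lam * D + (ε * D + C))) *
          Real.exp (lam * e + (ε * e + C)) := by
      rw [Real.exp_log (by linarith)]
      exact mul_le_mul (mul_le_mul_of_nonneg_left hzb (by linarith)) b1.1 ee0 (by positivity)
    refine h1.trans ?_
    have h2 : Real.exp (-(lam * (L - 2 * e - D)) + 2 * (ε * L) + K) * Real.exp (lam * (L - e) - (ε * (L - e) + C)) ≤
        Real.exp (-(lam * (L - 2 * e - D)) + 2 * (ε * L) + K) * siz (X.drop e) :=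
      mul_le_mul_of_nonneg_left b2.2 (Real.exp_pos _).le
    refine le_trans ?_ h2
    rw [← Real.exp_add, ← Real.exp_add, ← Real.exp_add]
    refine Real.exp_le_exp.2 ?_
    linarith only [hεs, hεi, hεe0, hεD0, hεL0, hK, hCn, hlC0, hl2]
  have g1 : siz (X.take e) ≤ siz (X.drop e) := by
    have h1 : (siz (X.take e) : ℝ) ≤ siz (X.drop e) := by
      refine b1.1.trans (le_trans (Real.exp_le_exp.2 ?_) b2.2)
      linarith only [hεL, hεe, hεe0, hlsum, hli, hlD, hK, hCn, hlC0, hl2, hεL0]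
    exact_mod_cast h1
  have g2 : C0 * z * siz (X.take e) < siz (X.drop e) := by
    rw [← div_lt_one b2p]
    refine lt_of_le_of_lt hEb ?_
    rw [← Real.exp_zero]
    refine Real.exp_lt_exp.2 ?_
    linarith only [hεL, hεL0, hlsum, hli, hlD, hK0]
  obtain ⟨q, hq0, hq1, hq2, hq3⟩ := hcrit i (X.take e) (X.drop e) (tws u v)ᵀ (tws u v) z
    (fun k l => tws_bd hup hvp l k) (fun k l => tws_bd hup hvp k l) (by rw [Matrix.det_transpose]; exact hdet)
    (by rw [List.length_drop]; exact hwi)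
    hXp (by rw [List.take_append_drop]; exact hpal) g1 g2
  have hq0' : (0 : ℝ) < q := by exact_mod_cast hq0
  -- the bound of q
  have hqb : (q : ℝ) ≤ Real.exp (lam * (2 * i + L - 2 * e + D) + 4 * (ε * L) + K) := by
    refine hq1.trans ?_
    rw [div_le_iff₀ b1p]
    have h1 : C0 * z * siz (win (pq α) 0 i) ^ 2 * siz (X.drop e) ≤
        Real.exp (Real.log C0) * Real.exp (Real.log 2 + (lam * D + (ε * D + C))) *
          Real.exp (lam * i + (ε * i + C)) ^ 2 * Real.exp (lam * (L - e) + (ε * (L - e) + C)) := by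
      rw [Real.exp_log (by linarith)]
      refine mul_le_mul (mul_le_mul (mul_le_mul_of_nonneg_left hzb (by linarith)) ?_
        (by positivity) (by positivity)) b2.1 (Nat.cast_nonneg _) (by positivity)
      exact pow_le_pow_left₀ (Nat.cast_nonneg _) b5.1 2
    refine h1.trans ?_
    have h2 : Real.exp (lam * (2 * i + L - 2 * e + D) + 4 * (ε * L) + K) * Real.exp (lam * e - (ε * e + C)) ≤
        Real.exp (lam * (2 * i + L - 2 * e + D) + 4 * (ε * L) + K) * siz (X.take e) :=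
      mul_le_mul_of_nonneg_left b1.2 (Real.exp_pos _).le
    refine le_trans ?_ h2
    rw [← Real.exp_nat_mul, ← Real.exp_add, ← Real.exp_add, ← Real.exp_add, ← Real.exp_add]
    refine Real.exp_le_exp.2 ?_
    push_cast
    linarith only [hεs, hεi, hεe0, hεD0, hεL0, hK, hCn, hlC0, hl2]
  have hmax : max (nd (q * x)) (nd (q * y)) ≤ Real.exp (-(lam * (L - 2 * e - D)) + 2 * (ε * L) + K) :=
    max_le (hq2.trans hEb) (hq3.trans hEb)
  have hmax0 : 0 ≤ max (nd (q * x)) (nd (q * y)) := le_max_of_le_left (abs_nonneg _)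
  have hqc : (q : ℝ) ^ (1 + c) ≤ Real.exp ((1 + c) * (lam * (2 * i + L - 2 * e + D) + 4 * (ε * L) + K)) := by
    rw [Real.rpow_def_of_pos hq0', mul_comm (1 + c)]
    refine Real.exp_le_exp.2 (mul_le_mul_of_nonneg_right ?_ (by linarith))
    rw [Real.log_le_iff_le_exp hq0']
    exact hqb
  have hall : F q < η := by
    show (q : ℝ) ^ (1 + c) * (max (nd (q * x)) (nd (q * y))) ^ 2 < η
    refine lt_of_le_of_lt (mul_le_mul hqc (pow_le_pow_left₀ hmax0 hmax 2) (by positivity) (Real.exp_pos _).le) ?_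
    rw [← Real.exp_nat_mul, ← Real.exp_add, ← Real.lt_log_iff_exp_lt hη]
    have h3 : -|Real.log η| ≤ Real.log η := neg_abs_le _
    have h4 : lam * ((3 + c) * D + 2 * (1 + c) * i - (1 - c) * (L - 2 * e)) ≤ lam * (-(δ * L)) :=
      mul_le_mul_of_nonneg_left (by linarith) hlam.le
    have h5 : c * (4 * (ε * L) + K) ≤ 4 * (ε * L) + K := mul_le_of_le_one_left (by positivity) hc1.le
    have h6 : ε * L = lam * δ * L / 32 := by rw [hεdef]; ring
    have h7 : 0 ≤ lam * δ * L := by positivity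
    have h8 : (1 + c) * (lam * (2 * i + L - 2 * e + D) + 4 * (ε * L) + K) + ((2 : ℕ) : ℝ) * (-(lam * (L - 2 * e - D)) + 2 * (ε * L) + K) =
        lam * ((3 + c) * D + 2 * (1 + c) * i - (1 - c) * (L - 2 * e)) + c * (4 * (ε * L) + K) + 8 * (ε * L) + 3 * K := by
      push_cast
      ring
    rw [h8]
    linarith only [h3, h4, h5, h6, h7, hLN, hK0]
  refine ⟨q, ?_, hq0, lt_of_lt_of_le hall hηε⟩
  by_contra hcon
  exact absurd (hηq q hq0 (not_le.1 hcon)) (not_le.2 hall)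

end Pool.Agent.H54.TM
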