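import Pool.Agent.H1.DC.CbT
import Pool.Agent.H54.TM.FinS

/-!
# Module CbS: one sequence begins inside a twisted palindrome

`w₁w₂ = R u`, `w₂w₁ = R v`. Every palindrome `σ` over the two return words gives a twisted palindrome `w_σ R` (`tw_pal`). The sequence begins with
a part of `w₁` (of length `d`), then `w₂ᵏ`, then `w₁ R` for some `k` (`cbs_run`), so it begins inside `X = w₁ w₂ᵏ w₁ R`, at the letter `e = A - d`, and
`|X| - 2e = m + 2d + kB`.
-/

set_option autoImplicit false

namespace Pool.Agent.H54.TM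

open Filter Pool.Agent.H2.MC Pool.Agent.H2.Sturm Pool.Agent.H1.DC Matrix

lemma cfZ_rep (w : List ℕ) (k : ℕ) : cfZ (List.replicate k w).flatten = cfZ w ^ k := by
  induction k with
  | zero => simp [cfZ_nil]
  | succ k ih => rw [List.replicate_succ, List.flatten_cons, cfZ_append, ih, pow_succ']

/-- `w₁ w₂ᵏ w₁ R` is a twisted palindrome -/
theorem tw_pal {w1 w2 R u v : List ℕ} (h1 : w1 ++ w2 = R ++ u) (h2 : w2 ++ w1 = R ++ v) (k : ℕ) :
    cfZ (w1 ++ ((List.replicate k w2).flatten ++ (w1 ++ R))) * (tws u v)ᵀ =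
      tws u v * (cfZ (w1 ++ ((List.replicate k w2).flatten ++ (w1 ++ R))))ᵀ := by
  have tR := tw_R h1 h2
  have t1 := tw_1 h1 h2
  have t2 := tw_2 h1 h2
  rw [cfZ_append, Matrix.mul_assoc, Matrix.transpose_mul, ← Matrix.mul_assoc (tws u v)] at t1 t2
  rw [← tR] at t1 t2
  set S := cfZ R * (tws u v)ᵀ with hS
  set W := cfZ w1 with hW
  set V := cfZ w2 with hV
  have hp : ∀ n : ℕ, V ^ n * S = S * (V ^ n)ᵀ := by
    intro n
    induction n with
    | zero => simp
    | succ n ih =>
      rw [pow_succ', Matrix.mul_assoc, ih, ← Matrix.mul_assoc, t2, Matrix.mul_assoc, ← Matrix.transpose_mul, ← pow_succ,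
        ← pow_succ']
  rw [cfZ_append, cfZ_append, cfZ_append, cfZ_rep]
  calc W * (V ^ k * (W * cfZ R)) * (tws u v)ᵀ = W * (V ^ k * (W * S)) := by
        rw [hS]
        simp only [Matrix.mul_assoc]
    _ = S * (Wᵀ * ((V ^ k)ᵀ * Wᵀ)) := by
        rw [t1, ← Matrix.mul_assoc (V ^ k), hp k, Matrix.mul_assoc S, ← Matrix.mul_assoc W, t1, Matrix.mul_assoc]
    _ = tws u v * (W * (V ^ k * (W * cfZ R)))ᵀ := by
        rw [tR, Matrix.transpose_mul, Matrix.transpose_mul, Matrix.transpose_mul]
        simp only [Matrix.mul_assoc]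

/-- from an occurrence of `R`: `w₂ᵏ w₁ R` -/
lemma cbs_run {b : ℕ → ℕ} {m c d A B : ℕ} {R U V : List ℕ} (h : Lev b m R c d) (hU : Ret b m R c A U)
    (hV : Ret b m R d B V) {z : ℕ → ℕ} (hz : In b (m + 1) z) :
    ∀ (n i : ℕ), win z i m = R → win z (i + n) (m + 1) = R ++ [c] →
      ∃ k, win z i (k * B + (A + m)) = (List.replicate k (V.take B)).flatten ++ U := by
  intro n
  induction n using Nat.strong_induction_on with
  | _ n ih =>
    intro i hi hn
    have hs : win z i (m + 1) = R ++ [z (i + m)] := by rw [win_succ, hi]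
    have hmem := hz i
    rw [hs] at hmem
    rcases h.two _ hmem with hx | hx
    · rw [hx] at hs
      refine ⟨0, ?_⟩
      rw [Nat.zero_mul, Nat.zero_add, hU.ret z hz i hs]
      simp
    · rw [hx] at hs
      have hB := hV.pos
      have hn0 : n ≠ 0 := by
        rintro rfl
        rw [Nat.add_zero, hs] at hn
        have h3 : [d] = [c] := List.append_cancel_left hn
        have h4 : d = c := by simpa using h3
        exact h.cd h4.symm
      have hRn : win z (i + n) m = R := by
        have h3 := congrArg (List.take m) hn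
        rw [win_take z _ (Nat.le_succ m)] at h3
        have hRl : R.length = m := by rw [← hi, win_length]
        rw [List.take_append_of_le_length hRl.ge, List.take_of_length_le hRl.le] at h3
        exact h3
      have hBn : B ≤ n := by
        by_contra hcon
        exact hV.no z hz i hs n (Nat.pos_of_ne_zero hn0) (by omega) hRn
      have hnext := ret_next hV hz hs
      obtain ⟨k, hk⟩ := ih (n - B) (by omega) (i + B) hnext (by
        have : i + B + (n - B) = i + n := by omega
        rw [this]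
        exact hn)
      refine ⟨k + 1, ?_⟩
      have e1 : (k + 1) * B + (A + m) = B + (k * B + (A + m)) := by ring
      rw [e1, win_add, hk, List.replicate_succ, List.flatten_cons, List.append_assoc]
      congr 1
      have hVi := hV.ret z hz i hs
      rw [← hVi, win_take _ _ (Nat.le_add_right B m)]

private lemma cbs_len {b : ℕ → ℕ} {n : ℕ} {w : List ℕ} (h : w ∈ RecB b n) : w.length = n := by
  obtain ⟨i, hi⟩ := Filter.Frequently.exists h
  rw [← hi, win_length]

private lemma cbs_symm {b : ℕ → ℕ} {m c d : ℕ} {R : List ℕ} (h : Lev b m R c d) : Lev b m R d c :=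
  ⟨h.cd.symm, h.rd, h.rc, h.uniq, fun e he => (h.two e he).symm, h.card⟩

/-- a loop at `c` which is followed by a loop at `d` -/
private lemma cbs_step {b : ℕ → ℕ} {m c d A : ℕ} {R U : List ℕ} (h : Lev b m R c d)
    (hU : Ret b m R c A U) {z : ℕ → ℕ} (hz : In b (m + 1) z) :
    ∀ (n i : ℕ), win z i (m + 1) = R ++ [c] → win z (i + n) (m + 1) = R ++ [d] →
      ∃ i', win z i' (m + 1) = R ++ [c] ∧ win z (i' + A) (m + 1) = R ++ [d] := by
  intro n
  induction n using Nat.strong_induction_on with
  | _ n ih =>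
    intro i h1 h2
    have hA := hU.pos
    have hn0 : n ≠ 0 := by
      rintro rfl
      rw [Nat.add_zero, h1] at h2
      have h3 : [c] = [d] := List.append_cancel_left h2
      have h4 : c = d := by simpa using h3
      exact h.cd h4
    have hR : win z (i + n) m = R := by
      have h3 := congrArg (List.take m) h2
      rw [win_take z _ (Nat.le_succ m)] at h3
      have hRl : R.length = m := by
        have := congrArg List.length h2
        simp only [win_length, List.length_append, List.length_singleton] at this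
        omega
      rw [List.take_append_of_le_length hRl.ge, List.take_of_length_le hRl.le] at h3
      exact h3
    have hAn : A ≤ n := by
      by_contra hcon
      exact hU.no z hz i h1 n (Nat.pos_of_ne_zero hn0) (by omega) hR
    have h5 := ret_next hU hz h1
    have h6 : win z (i + A) (m + 1) = R ++ [z (i + A + m)] := by rw [win_succ, h5]
    have h7 := hz (i + A)
    rw [h6] at h7
    rcases h.two _ h7 with h8 | h8
    · rw [h8] at h6
      refine ih (n - A) (by omega) (i + A) h6 ?_
      have : i + A + (n - A) = i + n := by omega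
      rw [this]
      exact h2
    · rw [h8] at h6
      exact ⟨i, h1, h6⟩

/-- the word `w₁ w₂` occurs in `b`, and it begins with `R c` -/
private lemma cbs_trans {b : ℕ → ℕ} {M : ℕ} (hM : ∀ n, b n ≤ M) {m c d A B : ℕ} {R U V : List ℕ} (h : Lev b m R c d)
    (hU : Ret b m R c A U) (hV : Ret b m R d B V) :
    ∃ p, win b p (A + B) = U.take A ++ V.take B ∧ win b p (m + 1) = R ++ [c] := by
  obtain ⟨T, hT⟩ := in_late hM (m + 1)
  have hz := hT T le_rfl
  obtain ⟨p1, hp1, h1⟩ := frequently_atTop.1 h.rc T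
  obtain ⟨p2, hp2, h2⟩ := frequently_atTop.1 h.rd p1
  obtain ⟨i1, rfl⟩ := Nat.exists_eq_add_of_le hp1
  obtain ⟨n, rfl⟩ := Nat.exists_eq_add_of_le hp2
  have h1' : win (fun k => b (T + k)) i1 (m + 1) = R ++ [c] := by rw [win_sh]; exact h1
  have h2' : win (fun k => b (T + k)) (i1 + n) (m + 1) = R ++ [d] := by rw [win_sh, ← Nat.add_assoc]; exact h2
  obtain ⟨i, hi1, hi2⟩ := cbs_step h hU hz n i1 h1' h2'
  have hUi := hU.ret _ hz i hi1
  have hVi := hV.ret _ hz (i + A) hi2
  refine ⟨T + i, ?_, ?_⟩
  · rw [← win_sh, win_add]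
    congr 1
    · rw [← hUi, win_take _ _ (Nat.le_add_right A m)]
    · rw [← hVi, win_take _ _ (Nat.le_add_right B m)]
  · rw [← win_sh]
    exact hi1

/-- one of the two cases -/
lemma cbs_side {b : ℕ → ℕ} {m c₀ d₀ A B D : ℕ} {R U V u v : List ℕ}
    (h : Lev b m R c₀ d₀) (hU : Ret b m R c₀ A U) (hV : Ret b m R d₀ B V) {i0 : ℕ}
    (hz : In b (m + 1) (fun k => b (i0 + k))) (hUe : U.take A ++ R = U)
    (w12 : U.take A ++ V.take B = R ++ u) (w21 : V.take B ++ U.take A = R ++ v)
    (huw : ∃ p, win b p u.length = u) (hvw : ∃ p, win b p v.length = v) (hul : u.length = D) (hvl : v.length = D)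
    (hdet : (tws u v).det ≠ 0) (hRl : R.length = m) (hUl : U.length = A + m) (hVl : V.length = B + m)
    {d : ℕ} (hdA : d ≤ A) (hd : win (fun k => b (i0 + k)) 0 (d + m) = U.drop (A - d)) (hAm : (A : ℝ) ≤ 2 * m)
    {c δ : ℝ} (hc1 : c ≤ 1) (hδ : 0 ≤ δ) (hδc : δ ≤ 1 - c)
    (hD : (3 + c) * (D : ℝ) + 2 * (1 + c) * i0 + 5 * δ * m ≤ (1 - c) * m) :
    ∃ (X u v : List ℕ) (i e : ℕ), m ≤ X.length ∧ cfZ X * (tws u v)ᵀ = tws u v * (cfZ X)ᵀ ∧ (tws u v).det ≠ 0 ∧
      (∃ p, win b p e = X.take e) ∧ (∃ p, win b p u.length = u) ∧ (∃ p, win b p v.length = v) ∧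
      v.length = u.length ∧ 2 * e ≤ X.length ∧ win b i (X.length - e) = X.drop e ∧
      (3 + c) * (u.length : ℝ) + 2 * (1 + c) * i + δ * X.length ≤ (1 - c) * (X.length - 2 * e) := by
  have hRd : win (fun k => b (i0 + k)) d m = R := by
    have h1 := congrArg (List.drop d) hd
    rw [win_drop _ 0 (Nat.le_add_right d m), List.drop_drop] at h1
    have e1 : d + m - d = m := by omega
    have e2 : A - d + d = A := by omega
    rw [e1, Nat.zero_add, e2, hU.dr] at h1
    exact h1
  obtain ⟨p, hp, hpw⟩ := frequently_atTop.1 h.rc (i0 + d)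
  obtain ⟨n, rfl⟩ := Nat.exists_eq_add_of_le hp
  obtain ⟨k, hk⟩ := cbs_run h hU hV hz n d hRd (by
    rw [win_sh, ← Nat.add_assoc]
    exact hpw)
  set X := U.take A ++ ((List.replicate k (V.take B)).flatten ++ (U.take A ++ R)) with hX
  have hlA : (U.take A).length = A := by rw [List.length_take, hUl]; omega
  have hlB : (V.take B).length = B := by rw [List.length_take, hVl]; omega
  have hXl : X.length = A + (k * B + (A + m)) := by
    rw [hX, List.length_append, List.length_append, List.length_append, hlA, hRl, List.length_flatten, List.map_replicate,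
      List.sum_replicate, hlB, smul_eq_mul]
  have hXd : X.drop (A - d) = (U.take A).drop (A - d) ++ ((List.replicate k (V.take B)).flatten ++ (U.take A ++ R)) := by
    rw [hX, List.drop_append_of_le_length (by rw [hlA]; omega)]
  have hXt : X.take (A - d) = U.take (A - d) := by
    rw [hX, List.take_append_of_le_length (by rw [hlA]; omega), List.take_take, Nat.min_eq_left (by omega)]
  refine ⟨X, u, v, i0, A - d, by omega, tw_pal w12 w21 k, hdet, ?_, huw, hvw, by rw [hul, hvl], ?_, ?_, ?_⟩
  · obtain ⟨q, hq⟩ := Filter.Frequently.exists hU.mem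
    refine ⟨q, ?_⟩
    rw [hXt, ← hq, win_take _ _ (by omega)]
  · rw [hXl]
    omega
  · have e1 : X.length - (A - d) = d + (k * B + (A + m)) := by omega
    have e2 : win b i0 (d + (k * B + (A + m))) = win (fun k => b (i0 + k)) 0 (d + (k * B + (A + m))) := by
      rw [win_sh, Nat.add_zero]
    rw [e1, e2, win_add, Nat.zero_add, hk, hXd, hUe]
    congr 1
    have h1 := congrArg (List.take d) hd
    rw [win_take _ _ (Nat.le_add_right d m)] at h1
    rw [h1, List.drop_take]
    congr 1
    omega
  · have q1 : ((A - d : ℕ) : ℝ) = (A : ℝ) - d := by rw [Nat.cast_sub hdA]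
    rw [hul, hXl, q1]
    push_cast
    have k1 : 0 ≤ (k : ℝ) * B := by positivity
    have k2 : δ * (k * B) ≤ (1 - c) * (k * B) := mul_le_mul_of_nonneg_right hδc k1
    have k3 : 0 ≤ (1 - c) * (d : ℝ) := mul_nonneg (by linarith) (Nat.cast_nonneg _)
    have k4 : δ * A ≤ δ * (2 * m) := mul_le_mul_of_nonneg_left hAm hδ
    linarith

theorem cbS {b : ℕ → ℕ} {M : ℕ} (hM : ∀ n, b n ≤ M) (hb0 : ∀ n, 0 < b n) {m c₀ d₀ : ℕ} {R : List ℕ}
    (h : Lev b m R c₀ d₀) (hbis : Bis b m R) (hlow : m + 1 ≤ (RecB b m).ncard) (i0 : ℕ)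
    (hz : In b (m + 1) (fun k => b (i0 + k))) {c δ : ℝ} (hc : 0 ≤ c) (hc1 : c ≤ 1) (hδ : 0 ≤ δ) (hδc : δ ≤ 1 - c)
    (hD : (3 + c) * (((RecB b m).ncard : ℝ) + 1 - m) + 2 * (1 + c) * i0 + 5 * δ * m ≤ (1 - c) * m) :
    ∃ (X u v : List ℕ) (i e : ℕ), m ≤ X.length ∧ cfZ X * (tws u v)ᵀ = tws u v * (cfZ X)ᵀ ∧ (tws u v).det ≠ 0 ∧
      (∃ p, win b p e = X.take e) ∧ (∃ p, win b p u.length = u) ∧ (∃ p, win b p v.length = v) ∧
      v.length = u.length ∧ 2 * e ≤ X.length ∧ win b i (X.length - e) = X.drop e ∧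
      (3 + c) * (u.length : ℝ) + 2 * (1 + c) * i + δ * X.length ≤ (1 - c) * (X.length - 2 * e) := by
  obtain ⟨A, U, hU⟩ := ret_ex hM h h.rc
  obtain ⟨B, V, hV⟩ := ret_ex hM h h.rd
  have hcnt := cnt hM h hU hV hbis
  obtain ⟨D, hDdef⟩ : ∃ D, A + B = m + D := Nat.exists_eq_add_of_le (by omega)
  have hDr : ((RecB b m).ncard : ℝ) + 1 - m = D := by
    have h1 : (((RecB b m).ncard + 1 : ℕ) : ℝ) = ((m + D : ℕ) : ℝ) := by rw [← hcnt, hDdef]
    push_cast at h1
    linarith
  rw [hDr] at hD
  have hm0 : (0 : ℝ) ≤ m := Nat.cast_nonneg _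
  have hδm : 0 ≤ δ * m := mul_nonneg hδ hm0
  have hi0 : (0 : ℝ) ≤ i0 := Nat.cast_nonneg _
  have hci : 0 ≤ (1 + c) * (i0 : ℝ) := by positivity
  have hcD : 0 ≤ c * D := by positivity
  have hcm : 0 ≤ c * m := by positivity
  have hD0 : (0 : ℝ) ≤ D := Nat.cast_nonneg _
  have hDm : (D : ℝ) ≤ m := by linarith
  have hUl := cbs_len hU.mem
  have hVl := cbs_len hV.mem
  have hRl : R.length = m := by
    rw [← hU.tk, List.length_take, hUl]
    omega
  have hUe : U.take A ++ R = U := by
    have h1 := List.take_append_drop A U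
    rw [hU.dr] at h1
    exact h1
  have hVe : V.take B ++ R = V := by
    have h1 := List.take_append_drop B V
    rw [hV.dr] at h1
    exact h1
  obtain ⟨p, hp1, hp2⟩ := cbs_trans hM h hU hV
  obtain ⟨p', hp1', hp2'⟩ := cbs_trans hM (cbs_symm h) hV hU
  have hBA : B + A = A + B := Nat.add_comm _ _
  rw [hBA] at hp1'
  have take1 : ∀ q, ∀ x : ℕ, win b q (m + 1) = R ++ [x] → (win b q (A + B)).take m = R := by
    intro q x hx
    rw [win_take b q (by omega : m ≤ A + B)]
    have h1 := congrArg (List.take m) hx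
    rw [win_take b q (Nat.le_succ m), List.take_append_of_le_length hRl.ge, List.take_of_length_le hRl.le] at h1
    exact h1
  have w12 : U.take A ++ V.take B = R ++ (win b p (A + B)).drop m := by
    rw [← hp1]
    have h1 := List.take_append_drop m (win b p (A + B))
    rw [take1 p _ hp2] at h1
    exact h1.symm
  have w21 : V.take B ++ U.take A = R ++ (win b p' (A + B)).drop m := by
    rw [← hp1']
    have h1 := List.take_append_drop m (win b p' (A + B))
    rw [take1 p' _ hp2'] at h1
    exact h1.symm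
  have hu : (win b p (A + B)).drop m = win b (p + m) (A + B - m) := win_drop b p (by omega)
  have hv : (win b p' (A + B)).drop m = win b (p' + m) (A + B - m) := win_drop b p' (by omega)
  have hABm : A + B - m = D := by omega
  rw [hu, hABm] at w12
  rw [hv, hABm] at w21
  have hcomm : U.take A ++ V.take B ≠ V.take B ++ U.take A := by
    rw [← hp1, ← hp1']
    intro hcon
    have h1 := congrArg (List.take (m + 1)) hcon
    rw [win_take b p (by omega), win_take b p' (by omega), hp2, hp2'] at h1
    have h3 : [c₀] = [d₀] := List.append_cancel_left h1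
    have h4 : c₀ = d₀ := by simpa using h3
    exact h.cd h4
  have posw : ∀ q n, ∀ x ∈ win b q n, 0 < x := fun q n => win_pos hb0 q n
  have hpU : ∀ x ∈ U.take A, 0 < x := by
    intro x hx
    exact posw p (A + B) x (by rw [hp1]; exact List.mem_append_left _ hx)
  have hpV : ∀ x ∈ V.take B, 0 < x := by
    intro x hx
    exact posw p (A + B) x (by rw [hp1]; exact List.mem_append_right _ hx)
  have hne : U.take A ≠ [] := by
    intro hcon
    have h1 := congrArg List.length hcon
    rw [List.length_take, hUl, List.length_nil] at h1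
    have := hU.pos
    omega
  set u := win b (p + m) D with hudef
  set v := win b (p' + m) D with hvdef
  have hul : u.length = D := by rw [hudef, win_length]
  have hvl : v.length = D := by rw [hvdef, win_length]
  have tR := tw_R w12 w21
  have tU := tw_1 w12 w21
  have tV := tw_2 w12 w21
  rw [hUe] at tU
  rw [hVe] at tV
  have hdet := tws_det_ne w12 w21 hpU hpV hne hcomm
  have hRw : ∃ q, win b q R.length = R := by
    refine ⟨p, ?_⟩
    rw [hRl]
    have h1 := take1 p _ hp2
    rwa [win_take b p (by omega : m ≤ A + B)] at h1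
  have hUw : ∃ q, win b q U.length = U := by
    rw [hUl]
    exact Filter.Frequently.exists hU.mem
  have hVw : ∃ q, win b q V.length = V := by
    rw [hVl]
    exact Filter.Frequently.exists hV.mem
  have huw : ∃ q, win b q u.length = u := ⟨p + m, by rw [hul]⟩
  have hvw : ∃ q, win b q v.length = v := ⟨p' + m, by rw [hvl]⟩
  have ABr : (A : ℝ) + B = m + D := by exact_mod_cast hDdef
  have hA0 : (0 : ℝ) ≤ A := Nat.cast_nonneg _
  have hB0 : (0 : ℝ) ≤ B := Nat.cast_nonneg _
  obtain ⟨d, ⟨hdA, hd⟩ | ⟨hdB, hd⟩⟩ := suf_ex hM h hU hV hz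
  · exact cbs_side h hU hV hz hUe w12 w21 huw hvw hul hvl hdet hRl hUl hVl hdA hd (by linarith) hc1 hδ hδc hD
  · have hdet' : (tws v u).det ≠ 0 := by
      intro hcon
      apply hdet
      rw [tws_det] at hcon ⊢
      rw [← neg_sub, Matrix.det_neg, Fintype.card_fin]
      rw [hcon]
      norm_num
    exact cbs_side (cbs_symm h) hV hU hz hVe w21 w12 hvw huw hvl hul hdet' hRl hVl hUl hdB hd (by linarith) hc1 hδ hδc hD

end Pool.Agent.H54.TM
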