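import Pool.Agent.H54.TM.CbS

/-!
# Module CbS2: one sequence, two twisted palindromes near its beginning

`w₁w₂ = R u`, `w₂w₁ = R v`. The sequence begins with a part of `w₁` (length `d`). If `w₁ʲ w₂ᵏ w₁ R` follows, `j ≥ 1`: take `X = w₁ʲ⁺¹ R` from the
beginning or `X = w₁ w₂ᵏ w₁ R` at `d + (j-1) A`. If `w₂ᵏ w₁ʲ w₂ R` follows, `k, j ≥ 1`: take `X = w₁ w₂ᵏ w₁ R` from the beginning or
`X = w₂ w₁ʲ w₂ R` at `d + (k-1) B`. One of the two costs is small enough if `2 D < m` (for `c = 0`).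
-/

set_option autoImplicit false

namespace Pool.Agent.H54.TM

open Filter Pool.Agent.H2.MC Pool.Agent.H2.Sturm Pool.Agent.H1.DC Matrix

/-- a twisted palindrome of matrices -/
lemma pal_mat {Rm T W V : Matrix (Fin 2) (Fin 2) ℤ} (tR : Rm * Tᵀ = T * Rmᵀ) (tW : W * (Rm * Tᵀ) = (Rm * Tᵀ) * Wᵀ)
    (tV : V * (Rm * Tᵀ) = (Rm * Tᵀ) * Vᵀ) (k : ℕ) :
    (W * (V ^ k * (W * Rm))) * Tᵀ = T * (W * (V ^ k * (W * Rm)))ᵀ := by
  set S := Rm * Tᵀ with hS
  have hp : ∀ n : ℕ, V ^ n * S = S * (V ^ n)ᵀ := by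
    intro n
    induction n with
    | zero => simp
    | succ n ih =>
      rw [pow_succ', Matrix.mul_assoc, ih, ← Matrix.mul_assoc, tV, Matrix.mul_assoc, ← Matrix.transpose_mul, ← pow_succ,
        ← pow_succ']
  calc W * (V ^ k * (W * Rm)) * Tᵀ = W * (V ^ k * (W * S)) := by
        rw [hS]
        simp only [Matrix.mul_assoc]
    _ = S * (Wᵀ * ((V ^ k)ᵀ * Wᵀ)) := by
        rw [tW, ← Matrix.mul_assoc (V ^ k), hp k, Matrix.mul_assoc S, ← Matrix.mul_assoc W, tW, Matrix.mul_assoc]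
    _ = T * (W * (V ^ k * (W * Rm)))ᵀ := by
        rw [tR, Matrix.transpose_mul, Matrix.transpose_mul, Matrix.transpose_mul]
        simp only [Matrix.mul_assoc]

lemma tw_S {w R u v : List ℕ} (tR : cfZ R * (tws u v)ᵀ = tws u v * (cfZ R)ᵀ)
    (tw : cfZ (w ++ R) * (tws u v)ᵀ = tws u v * (cfZ (w ++ R))ᵀ) :
    cfZ w * (cfZ R * (tws u v)ᵀ) = (cfZ R * (tws u v)ᵀ) * (cfZ w)ᵀ := by
  rw [cfZ_append, Matrix.mul_assoc, Matrix.transpose_mul, ← Matrix.mul_assoc (tws u v), ← tR] at tw
  exact tw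

/-- `w w'ᵏ w R` for `w`, `w'` each one of the two return words -/
lemma tw_gen {w w' R u v : List ℕ} (tR : cfZ R * (tws u v)ᵀ = tws u v * (cfZ R)ᵀ)
    (tw : cfZ (w ++ R) * (tws u v)ᵀ = tws u v * (cfZ (w ++ R))ᵀ)
    (tw' : cfZ (w' ++ R) * (tws u v)ᵀ = tws u v * (cfZ (w' ++ R))ᵀ) (k : ℕ) :
    cfZ (w ++ ((List.replicate k w').flatten ++ (w ++ R))) * (tws u v)ᵀ =
      tws u v * (cfZ (w ++ ((List.replicate k w').flatten ++ (w ++ R))))ᵀ := by
  rw [cfZ_append, cfZ_append, cfZ_append, cfZ_rep]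
  exact pal_mat tR (tw_S tR tw) (tw_S tR tw') k

/-- the two costs -/
lemma two_cost {c δ m D t y : ℝ} (hc : 0 ≤ c) (hc1 : c ≤ 1) (hδ : 0 ≤ δ) (hm : 0 < m) (hD0 : 0 ≤ D) (ht : 0 ≤ t)
    (hD : 8 * (1 + c) * D + 2 * (3 + c) * (1 + c) * t + 30 * δ * m ≤ 4 * (1 - c) * m)
    (hf : (1 - c) * (m + y) < (3 + c) * D + 2 * (1 + c) * t + δ * (y + 5 * m)) :
    (3 + c) * D + 2 * (1 + c) * t + 2 * (1 + c) * y ≤ (1 - c - δ) * (2 * m + D) := by
  have h1c : 0 ≤ 1 - c := by linarith
  have hcD : 0 ≤ c * D := mul_nonneg hc hD0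
  have hct : 0 ≤ c * t := mul_nonneg hc ht
  have hcct : 0 ≤ c * (c * t) := mul_nonneg hc hct
  have hδm : 0 ≤ δ * m := mul_nonneg hδ hm.le
  have hcm : 0 ≤ c * m := mul_nonneg hc hm.le
  have hDm : 2 * D ≤ m := by linarith
  obtain ⟨E, hE⟩ : ∃ E, E = (3 + c) * D + 2 * (1 + c) * t := ⟨_, rfl⟩
  rw [← hE] at hf ⊢
  have hE0 : 0 ≤ E := by rw [hE]; positivity
  -- θ
  have hδc : 30 * δ ≤ 4 * (1 - c) := by
    have h1 : 30 * δ * m ≤ 4 * (1 - c) * m := by linarith
    exact le_of_mul_le_mul_right h1 hm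
  obtain ⟨θ, hθ⟩ : ∃ θ, θ = 1 - c - δ := ⟨_, rfl⟩
  rw [← hθ]
  have hθ0 : 0 ≤ θ := by rw [hθ]; linarith
  have hf' : θ * y < E + 5 * (δ * m) - (1 - c) * m := by rw [hθ]; linarith
  have hθpos : 0 < θ := by
    rcases hθ0.lt_or_eq with h | h
    · exact h
    · exfalso
      have h1 : 1 - c = 0 := by linarith
      have h2 : δ = 0 := by linarith
      have h3 : c = 1 := by linarith
      rw [h3] at hD
      have h4 : D = 0 := by rw [h2] at hD; linarith
      have h5 : t = 0 := by rw [h2, h4] at hD; linarith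
      rw [← h, h1, h2, hE, h4, h5] at hf'
      simp at hf'
  have key : θ * E + 2 * (1 + c) * (E + 5 * (δ * m) - (1 - c) * m) ≤ θ ^ 2 * (2 * m + D) := by
    have k1 : θ * E ≤ (1 - c) * E := mul_le_mul_of_nonneg_right (by rw [hθ]; linarith) hE0
    have k2 : ((1 - c) ^ 2 - 2 * (1 - c) * δ) * (2 * m + D) ≤ θ ^ 2 * (2 * m + D) := by
      refine mul_le_mul_of_nonneg_right ?_ (by linarith)
      rw [hθ]
      have := sq_nonneg δ
      nlinarith
    have k3 : 2 * (1 - c) * δ * (2 * m + D) ≤ 6 * (δ * m) := by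
      have e1 : 2 * (1 - c) * δ * (2 * m + D) = 2 * δ * ((1 - c) * (2 * m + D)) := by ring
      have e2 : (1 - c) * (2 * m + D) ≤ 1 * (2 * m + D) := mul_le_mul_of_nonneg_right (by linarith) (by linarith)
      have e3 : 2 * δ * ((1 - c) * (2 * m + D)) ≤ 2 * δ * (3 * m) := mul_le_mul_of_nonneg_left (by linarith) (by linarith)
      rw [e1]
      linarith
    have k4 : 10 * (1 + c) * (δ * m) ≤ 20 * (δ * m) := mul_le_mul_of_nonneg_right (by linarith) hδm
    have k5 : (3 + c) * E - (1 - c) ^ 2 * D = 8 * (1 + c) * D + 2 * (3 + c) * (1 + c) * t := by rw [hE]; ring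
    have k6 : 2 * (1 - c) ^ 2 * m + 2 * (1 + c) * ((1 - c) * m) = 4 * (1 - c) * m := by ring
    have k7 : (1 - c) * E + 2 * (1 + c) * (E + 5 * (δ * m) - (1 - c) * m) =
        (3 + c) * E + 10 * (1 + c) * (δ * m) - 2 * (1 + c) * ((1 - c) * m) := by ring
    have k8 : ((1 - c) ^ 2 - 2 * (1 - c) * δ) * (2 * m + D) =
        2 * (1 - c) ^ 2 * m + (1 - c) ^ 2 * D - 2 * (1 - c) * δ * (2 * m + D) := by ring
    linarith
  have h9 : θ * (E + 2 * (1 + c) * y) ≤ θ * (θ * (2 * m + D)) := by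
    have e1 : θ * (E + 2 * (1 + c) * y) = θ * E + 2 * (1 + c) * (θ * y) := by ring
    have e2 : 2 * (1 + c) * (θ * y) ≤ 2 * (1 + c) * (E + 5 * (δ * m) - (1 - c) * m) :=
      mul_le_mul_of_nonneg_left hf'.le (by linarith)
    have e3 : θ * (θ * (2 * m + D)) = θ ^ 2 * (2 * m + D) := by ring
    rw [e1, e3]
    linarith
  exact le_of_mul_le_mul_left h9 hθpos

lemma rep_len (w : List ℕ) (k : ℕ) : (List.replicate k w).flatten.length = k * w.length := by
  rw [List.length_flatten, List.map_replicate, List.sum_replicate, smul_eq_mul]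

lemma rep_succ' (w : List ℕ) (k : ℕ) : (List.replicate (k + 1) w).flatten = (List.replicate k w).flatten ++ w := by
  rw [List.replicate_succ', List.flatten_append, List.flatten_singleton]

/-- from the beginning: the word `X = w₁ Y` -/
lemma out_part {b : ℕ → ℕ} {m A D i0 d : ℕ} {w1 u v Y : List ℕ} (hdA : d ≤ A) (hlA : w1.length = A)
    (hq : ∃ q, win b q A = w1) (h0 : win b i0 d = w1.drop (A - d)) (hY : win b (i0 + d) Y.length = Y)
    (tw : cfZ (w1 ++ Y) * (tws u v)ᵀ = tws u v * (cfZ (w1 ++ Y))ᵀ) (hdet : (tws u v).det ≠ 0)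
    (huw : ∃ p, win b p u.length = u) (hvw : ∃ p, win b p v.length = v) (hul : u.length = D) (hvl : v.length = D)
    (hYm : A + m ≤ Y.length) {c δ : ℝ}
    (hin : (3 + c) * (D : ℝ) + 2 * (1 + c) * i0 + δ * (A + Y.length) ≤ (1 - c) * (Y.length - A + 2 * d)) :
    GdS b c δ m := by
  have hXl : (w1 ++ Y).length = A + Y.length := by rw [List.length_append, hlA]
  refine ⟨w1 ++ Y, u, v, i0, A - d, by omega, tw, hdet, ?_, huw, hvw, by rw [hul, hvl], by omega, ?_, ?_⟩
  · obtain ⟨q, hq⟩ := hq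
    refine ⟨q, ?_⟩
    rw [List.take_append_of_le_length (by rw [hlA]; omega), ← hq, win_take _ _ (by omega)]
  · have e1 : (w1 ++ Y).length - (A - d) = d + Y.length := by omega
    rw [e1, win_add, h0, hY, List.drop_append_of_le_length (by rw [hlA]; omega)]
  · have q1 : ((A - d : ℕ) : ℝ) = (A : ℝ) - d := by rw [Nat.cast_sub hdA]
    rw [hul, hXl, q1]
    push_cast
    have e1 : (1 - c) * ((A : ℝ) + Y.length - 2 * (A - d)) = (1 - c) * (Y.length - A + 2 * d) := by ring
    rw [e1]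
    exact hin

/-- inside: the word `X` at `p` -/
lemma out_in {b : ℕ → ℕ} {m D i0 p : ℕ} {u v X : List ℕ} (hX : win b (i0 + p) X.length = X)
    (tw : cfZ X * (tws u v)ᵀ = tws u v * (cfZ X)ᵀ) (hdet : (tws u v).det ≠ 0)
    (huw : ∃ p, win b p u.length = u) (hvw : ∃ p, win b p v.length = v) (hul : u.length = D) (hvl : v.length = D)
    (hXm : m ≤ X.length) {c δ : ℝ}
    (hin : (3 + c) * (D : ℝ) + 2 * (1 + c) * i0 + 2 * (1 + c) * p + δ * X.length ≤ (1 - c) * X.length) :
    GdS b c δ m := by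
  refine ⟨X, u, v, i0 + p, 0, hXm, tw, hdet, ⟨0, ?_⟩, huw, hvw, by rw [hul, hvl], by omega, ?_, ?_⟩
  · simp [win]
  · rw [Nat.sub_zero, List.drop_zero]
    exact hX
  · rw [hul]
    push_cast
    linarith

/-- the last step of both cases -/
lemma two_end {c δ m D t y L1 G1 L2 : ℝ} (hc : 0 ≤ c) (hc1 : c ≤ 1) (hδ : 0 ≤ δ) (hm : 0 < m) (hD0 : 0 ≤ D) (ht : 0 ≤ t)
    (hD : 8 * (1 + c) * D + 2 * (3 + c) * (1 + c) * t + 30 * δ * m ≤ 4 * (1 - c) * m)
    (hG : m + y ≤ G1) (hL : L1 ≤ y + 5 * m) (hL2 : 2 * m + D ≤ L2)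
    (hf : ¬ (3 + c) * D + 2 * (1 + c) * t + δ * L1 ≤ (1 - c) * G1) :
    (3 + c) * D + 2 * (1 + c) * t + 2 * (1 + c) * y + δ * L2 ≤ (1 - c) * L2 := by
  rw [not_le] at hf
  have h1 : (1 - c) * (m + y) ≤ (1 - c) * G1 := mul_le_mul_of_nonneg_left hG (by linarith)
  have h2 : δ * L1 ≤ δ * (y + 5 * m) := mul_le_mul_of_nonneg_left hL hδ
  have h3 := two_cost (y := y) hc hc1 hδ hm hD0 ht hD (by linarith)
  have hδc : 30 * δ ≤ 4 * (1 - c) := by
    have h1 : 30 * δ * m ≤ 4 * (1 - c) * m := by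
      have a1 : 0 ≤ 8 * (1 + c) * D := by positivity
      have a2 : 0 ≤ 2 * (3 + c) * (1 + c) * t := by positivity
      linarith
    exact le_of_mul_le_mul_right h1 hm
  have h4 : (1 - c - δ) * (2 * m + D) ≤ (1 - c - δ) * L2 := mul_le_mul_of_nonneg_left hL2 (by linarith)
  linarith

/-- the number of copies is positive -/
lemma cbs_k1 {b : ℕ → ℕ} {m c d A B : ℕ} {R U V : List ℕ} (h : Lev b m R c d) (hU : Ret b m R c A U) {z : ℕ → ℕ} {i k : ℕ}
    (hk : win z i (k * B + (A + m)) = (List.replicate k (V.take B)).flatten ++ U) (hd : win z i (m + 1) = R ++ [d]) :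
    k ≠ 0 := by
  rintro rfl
  have hA := hU.pos
  rw [Nat.zero_mul, Nat.zero_add] at hk
  have h1 := congrArg (List.take (m + 1)) hk
  rw [win_take _ _ (by omega), hd] at h1
  simp only [List.replicate_zero, List.flatten_nil, List.nil_append] at h1
  rw [hU.t1] at h1
  have h3 : [d] = [c] := List.append_cancel_left h1
  have h4 : d = c := by simpa using h3
  exact h.cd h4.symm

/-- start inside `w₁` -/
lemma cbs_side2 {b : ℕ → ℕ} {m c₀ d₀ A B D : ℕ} {R U V u v : List ℕ}
    (h : Lev b m R c₀ d₀) (h' : Lev b m R d₀ c₀) (hU : Ret b m R c₀ A U) (hV : Ret b m R d₀ B V) {i0 : ℕ}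
    (hz : In b (m + 1) (fun k => b (i0 + k))) (hUe : U.take A ++ R = U) (hVe : V.take B ++ R = V)
    (tR : cfZ R * (tws u v)ᵀ = tws u v * (cfZ R)ᵀ) (tU : cfZ U * (tws u v)ᵀ = tws u v * (cfZ U)ᵀ)
    (tV : cfZ V * (tws u v)ᵀ = tws u v * (cfZ V)ᵀ)
    (huw : ∃ p, win b p u.length = u) (hvw : ∃ p, win b p v.length = v) (hul : u.length = D) (hvl : v.length = D)
    (hdet : (tws u v).det ≠ 0) (hRl : R.length = m) (hUl : U.length = A + m) (hVl : V.length = B + m)
    {d : ℕ} (hdA : d ≤ A) (hd : win (fun k => b (i0 + k)) 0 (d + m) = U.drop (A - d)) (hAB : A + B = m + D)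
    {c δ : ℝ} (hc : 0 ≤ c) (hc1 : c ≤ 1) (hδ : 0 ≤ δ) (hm : (0 : ℝ) < m)
    (hD : 8 * (1 + c) * (D : ℝ) + 2 * (3 + c) * (1 + c) * i0 + 30 * δ * m ≤ 4 * (1 - c) * m) :
    GdS b c δ m := by
  set z : ℕ → ℕ := fun k => b (i0 + k) with hzdef
  have hsh : ∀ i n, win z i n = win b (i0 + i) n := fun i n => win_sh b i0 i n
  have hRd : win z d m = R := by
    have h1 := congrArg (List.drop d) hd
    rw [win_drop _ 0 (Nat.le_add_right d m), List.drop_drop] at h1
    have e1 : d + m - d = m := by omega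
    have e2 : A - d + d = A := by omega
    rw [e1, Nat.zero_add, e2, hU.dr] at h1
    exact h1
  have hlA : (U.take A).length = A := by rw [List.length_take, hUl]; omega
  have hlB : (V.take B).length = B := by rw [List.length_take, hVl]; omega
  have hq : ∃ q, win b q A = U.take A := by
    obtain ⟨q, hq⟩ := Filter.Frequently.exists hU.mem
    exact ⟨q, by rw [← hq, win_take _ _ (Nat.le_add_right A m)]⟩
  have h0 : win b i0 d = (U.take A).drop (A - d) := by
    have h1 := congrArg (List.take d) hd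
    rw [win_take _ _ (Nat.le_add_right d m), hsh, Nat.add_zero] at h1
    rw [h1, List.drop_take]
    congr 1
    omega
  have occ : ∀ N, ∃ n, win z (N + n) (m + 1) = R ++ [c₀] := by
    intro N
    obtain ⟨p, hp, hpw⟩ := frequently_atTop.1 h.rc (i0 + N)
    obtain ⟨n, rfl⟩ := Nat.exists_eq_add_of_le hp
    exact ⟨n, by rw [hsh, ← Nat.add_assoc]; exact hpw⟩
  have occ' : ∀ N, ∃ n, win z (N + n) (m + 1) = R ++ [d₀] := by
    intro N
    obtain ⟨p, hp, hpw⟩ := frequently_atTop.1 h'.rc (i0 + N)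
    obtain ⟨n, rfl⟩ := Nat.exists_eq_add_of_le hp
    exact ⟨n, by rw [hsh, ← Nat.add_assoc]; exact hpw⟩
  have tU' : cfZ (U.take A ++ R) * (tws u v)ᵀ = tws u v * (cfZ (U.take A ++ R))ᵀ := by rw [hUe]; exact tU
  have tV' : cfZ (V.take B ++ R) * (tws u v)ᵀ = tws u v * (cfZ (V.take B ++ R))ᵀ := by rw [hVe]; exact tV
  set w1 := U.take A with hw1
  set w2 := V.take B with hw2
  have ABr : (A : ℝ) + B = m + D := by exact_mod_cast hAB
  have hA0 : (0 : ℝ) ≤ A := Nat.cast_nonneg _
  have hB0 : (0 : ℝ) ≤ B := Nat.cast_nonneg _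
  have hD0 : (0 : ℝ) ≤ D := Nat.cast_nonneg _
  have hd0 : (0 : ℝ) ≤ d := Nat.cast_nonneg _
  have ht0 : (0 : ℝ) ≤ i0 := Nat.cast_nonneg _
  have hDm : 2 * (D : ℝ) ≤ m := by
    have a2 : 0 ≤ 2 * (3 + c) * (1 + c) * (i0 : ℝ) := by positivity
    have a3 : 0 ≤ 30 * δ * (m : ℝ) := by positivity
    have a4 : 0 ≤ c * (D : ℝ) := mul_nonneg hc hD0
    have a5 : 0 ≤ c * (m : ℝ) := mul_nonneg hc hm.le
    linarith
  have hs : win z d (m + 1) = R ++ [z (d + m)] := by rw [win_succ, hRd]
  have hmem := hz d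
  rw [hs] at hmem
  -- the reading of `V` after `j` copies of `w₁`, of `U` after `k` copies of `w₂`
  have hV1 : ∀ i j, win z i (j * A + (B + m)) = (List.replicate j w1).flatten ++ V →
      win z i (j * A) = (List.replicate j w1).flatten ∧ win z (i + j * A) (B + m) = V := by
    intro i j hj
    rw [win_add] at hj
    exact List.append_inj hj (by rw [win_length, rep_len, hlA])
  have hU1 : ∀ i k, win z i (k * B + (A + m)) = (List.replicate k w2).flatten ++ U →
      win z i (k * B) = (List.replicate k w2).flatten ∧ win z (i + k * B) (A + m) = U := by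
    intro i k hk
    rw [win_add] at hk
    exact List.append_inj hk (by rw [win_length, rep_len, hlB])
  have lastcopy : ∀ (w : List ℕ) (a i j : ℕ), w.length = a → win z i ((j + 1) * a) = (List.replicate (j + 1) w).flatten →
      win z (i + j * a) a = w := by
    intro w a i j hw hj
    have e1 : (j + 1) * a = j * a + a := by ring
    rw [e1, win_add, rep_succ'] at hj
    exact (List.append_inj hj (by rw [win_length, rep_len, hw])).2
  rcases h.two _ hmem with hx | hx
  · -- `w₁ʲ w₂ᵏ w₁ R` follows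
    rw [hx] at hs
    obtain ⟨n1, hn1⟩ := occ' d
    obtain ⟨j, hj⟩ := cbs_run h' hV hU hz n1 d hRd hn1
    have hj0 : j ≠ 0 := cbs_k1 h' hV hj hs
    obtain ⟨j', rfl⟩ := Nat.exists_eq_succ_of_ne_zero hj0
    rw [Nat.succ_eq_add_one] at hj
    obtain ⟨r1, r2⟩ := hV1 _ _ hj
    have hRq : win z (d + (j' + 1) * A) m = R := by
      have h1 := congrArg (List.take m) r2
      rw [win_take _ _ (Nat.le_add_left m B), hV.tk] at h1
      exact h1
    have hRq1 : win z (d + (j' + 1) * A) (m + 1) = R ++ [d₀] := by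
      have h1 := congrArg (List.take (m + 1)) r2
      have hBp := hV.pos
      rw [win_take _ _ (by omega : m + 1 ≤ B + m), hV.t1] at h1
      exact h1
    obtain ⟨n2, hn2⟩ := occ (d + (j' + 1) * A)
    obtain ⟨k, hk⟩ := cbs_run h hU hV hz n2 _ hRq hn2
    have hk0 : k ≠ 0 := cbs_k1 h hU hk hRq1
    have hk1 : 1 ≤ k := Nat.one_le_iff_ne_zero.2 hk0
    have hlast := lastcopy w1 A d j' hlA r1
    -- the word from the beginning
    have hYr : win z d ((j' + 1) * A + m) = (List.replicate j' w1).flatten ++ (w1 ++ R) := by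
      rw [win_add, r1, hRq, rep_succ', List.append_assoc]
    have hYl : ((List.replicate j' w1).flatten ++ (w1 ++ R)).length = (j' + 1) * A + m := by
      rw [← hYr, win_length]
    by_cases hF : (3 + c) * (D : ℝ) + 2 * (1 + c) * i0 +
        δ * (A + ((List.replicate j' w1).flatten ++ (w1 ++ R)).length) ≤
        (1 - c) * (((List.replicate j' w1).flatten ++ (w1 ++ R)).length - A + 2 * d)
    · refine out_part hdA hlA hq h0 ?_ (tw_gen tR tU' tU' j') hdet huw hvw hul hvl ?_ hF
      · rw [← hsh, hYl]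
        exact hYr
      · rw [hYl]
        have : A ≤ (j' + 1) * A := Nat.le_mul_of_pos_left A (Nat.succ_pos j')
        omega
    · have hXr : win z (d + j' * A) (A + (k * B + (A + m))) =
          w1 ++ ((List.replicate k w2).flatten ++ (w1 ++ R)) := by
        have e1 : d + j' * A + A = d + (j' + 1) * A := by ring
        rw [win_add, hlast, e1, hk, hUe]
      have hXl : (w1 ++ ((List.replicate k w2).flatten ++ (w1 ++ R))).length = A + (k * B + (A + m)) := by
        rw [← hXr, win_length]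
      refine out_in (i0 := i0) (p := d + j' * A) ?_ (tw_gen tR tU' tV' k) hdet huw hvw hul hvl ?_ ?_
      · rw [← hsh, hXl]
        exact hXr
      · rw [hXl]
        omega
      · rw [hYl] at hF
        rw [hXl]
        push_cast at hF ⊢
        have hk1' : (1 : ℝ) ≤ k := by exact_mod_cast hk1
        have hkB : (B : ℝ) ≤ k * B := by
          have := mul_le_mul_of_nonneg_right hk1' hB0
          linarith
        have hj'A : 0 ≤ (j' : ℝ) * A := by positivity
        exact two_end (y := (d : ℝ) + j' * A) hc hc1 hδ hm hD0 ht0 hD (by linarith) (by linarith) (by linarith) hF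
  · -- `w₂ᵏ w₁ʲ w₂ R` follows
    rw [hx] at hs
    obtain ⟨n1, hn1⟩ := occ d
    obtain ⟨k, hk⟩ := cbs_run h hU hV hz n1 d hRd hn1
    have hk0 : k ≠ 0 := cbs_k1 h hU hk hs
    obtain ⟨k', rfl⟩ := Nat.exists_eq_succ_of_ne_zero hk0
    rw [Nat.succ_eq_add_one] at hk
    obtain ⟨r1, r2⟩ := hU1 _ _ hk
    have hRq : win z (d + (k' + 1) * B) m = R := by
      have h1 := congrArg (List.take m) r2
      rw [win_take _ _ (Nat.le_add_left m A), hU.tk] at h1
      exact h1
    have hRq1 : win z (d + (k' + 1) * B) (m + 1) = R ++ [c₀] := by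
      have h1 := congrArg (List.take (m + 1)) r2
      have hAp := hU.pos
      rw [win_take _ _ (by omega : m + 1 ≤ A + m), hU.t1] at h1
      exact h1
    obtain ⟨n2, hn2⟩ := occ' (d + (k' + 1) * B)
    obtain ⟨j, hj⟩ := cbs_run h' hV hU hz n2 _ hRq hn2
    have hj0 : j ≠ 0 := cbs_k1 h' hV hj hRq1
    have hj1 : 1 ≤ j := Nat.one_le_iff_ne_zero.2 hj0
    have hlast := lastcopy w2 B d k' hlB r1
    -- the word from the beginning
    have hYr : win z d ((k' + 1) * B + (A + m)) = (List.replicate (k' + 1) w2).flatten ++ (w1 ++ R) := by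
      rw [hk, hUe]
    have hYl : ((List.replicate (k' + 1) w2).flatten ++ (w1 ++ R)).length = (k' + 1) * B + (A + m) := by
      rw [← hYr, win_length]
    by_cases hF : (3 + c) * (D : ℝ) + 2 * (1 + c) * i0 +
        δ * (A + ((List.replicate (k' + 1) w2).flatten ++ (w1 ++ R)).length) ≤
        (1 - c) * (((List.replicate (k' + 1) w2).flatten ++ (w1 ++ R)).length - A + 2 * d)
    · refine out_part hdA hlA hq h0 ?_ (tw_gen tR tU' tV' (k' + 1)) hdet huw hvw hul hvl ?_ hF
      · rw [← hsh, hYl]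
        exact hYr
      · rw [hYl]
        omega
    · have hXr : win z (d + k' * B) (B + (j * A + (B + m))) =
          w2 ++ ((List.replicate j w1).flatten ++ (w2 ++ R)) := by
        have e1 : d + k' * B + B = d + (k' + 1) * B := by ring
        rw [win_add, hlast, e1, hj, hVe]
      have hXl : (w2 ++ ((List.replicate j w1).flatten ++ (w2 ++ R))).length = B + (j * A + (B + m)) := by
        rw [← hXr, win_length]
      refine out_in (i0 := i0) (p := d + k' * B) ?_ (tw_gen tR tV' tU' j) hdet huw hvw hul hvl ?_ ?_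
      · rw [← hsh, hXl]
        exact hXr
      · rw [hXl]
        omega
      · rw [hYl] at hF
        rw [hXl]
        push_cast at hF ⊢
        have hj1' : (1 : ℝ) ≤ j := by exact_mod_cast hj1
        have hjA : (A : ℝ) ≤ j * A := by
          have := mul_le_mul_of_nonneg_right hj1' hA0
          linarith
        have hk'B : 0 ≤ (k' : ℝ) * B := by positivity
        exact two_end (y := (d : ℝ) + k' * B) hc hc1 hδ hm hD0 ht0 hD (by linarith) (by linarith) (by linarith) hF

private lemma cbz_len {b : ℕ → ℕ} {n : ℕ} {w : List ℕ} (h : w ∈ RecB b n) : w.length = n := by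
  obtain ⟨i, hi⟩ := Filter.Frequently.exists h
  rw [← hi, win_length]

private lemma cbz_symm {b : ℕ → ℕ} {m c d : ℕ} {R : List ℕ} (h : Lev b m R c d) : Lev b m R d c :=
  ⟨h.cd.symm, h.rd, h.rc, h.uniq, fun e he => (h.two e he).symm, h.card⟩

/-- a loop at `c` which is followed by a loop at `d` -/
private lemma cbz_step {b : ℕ → ℕ} {m c d A : ℕ} {R U : List ℕ} (h : Lev b m R c d)
    (hU : Ret b m R c A U) {z : ℕ → ℕ} (hz : In b (m + 1) z) :
    ∀ (n i : ℕ), win z i (m + 1) = R ++ [c] → win z (i + n) (m + 1) = R ++ [d] →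
      ∃ i', win z i' (m + 1) = R ++ [c] ∧ win z (i' + A) (m + 1) = R ++ [d] := by
  intro n
  induction n using Nat.strong_induction_on with
  | _ n ih =>
    intro i h1 h2
    have hA := hU.pos
    have hn0 : n ≠ 0 := by
      rintro rfl
      rw [Nat.add_zero, h1] at h2
      have h3 : [c] = [d] := List.append_cancel_left h2
      have h4 : c = d := by simpa using h3
      exact h.cd h4
    have hR : win z (i + n) m = R := by
      have h3 := congrArg (List.take m) h2
      rw [win_take z _ (Nat.le_succ m)] at h3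
      have hRl : R.length = m := by
        have := congrArg List.length h2
        simp only [win_length, List.length_append, List.length_singleton] at this
        omega
      rw [List.take_append_of_le_length hRl.ge, List.take_of_length_le hRl.le] at h3
      exact h3
    have hAn : A ≤ n := by
      by_contra hcon
      exact hU.no z hz i h1 n (Nat.pos_of_ne_zero hn0) (by omega) hR
    have h5 := ret_next hU hz h1
    have h6 : win z (i + A) (m + 1) = R ++ [z (i + A + m)] := by rw [win_succ, h5]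
    have h7 := hz (i + A)
    rw [h6] at h7
    rcases h.two _ h7 with h8 | h8
    · rw [h8] at h6
      refine ih (n - A) (by omega) (i + A) h6 ?_
      have : i + A + (n - A) = i + n := by omega
      rw [this]
      exact h2
    · rw [h8] at h6
      exact ⟨i, h1, h6⟩

/-- the word `w₁ w₂` occurs in `b`, and it begins with `R c` -/
private lemma cbz_trans {b : ℕ → ℕ} {M : ℕ} (hM : ∀ n, b n ≤ M) {m c d A B : ℕ} {R U V : List ℕ} (h : Lev b m R c d)
    (hU : Ret b m R c A U) (hV : Ret b m R d B V) :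
    ∃ p, win b p (A + B) = U.take A ++ V.take B ∧ win b p (m + 1) = R ++ [c] := by
  obtain ⟨T, hT⟩ := in_late hM (m + 1)
  have hz := hT T le_rfl
  obtain ⟨p1, hp1, h1⟩ := frequently_atTop.1 h.rc T
  obtain ⟨p2, hp2, h2⟩ := frequently_atTop.1 h.rd p1
  obtain ⟨i1, rfl⟩ := Nat.exists_eq_add_of_le hp1
  obtain ⟨n, rfl⟩ := Nat.exists_eq_add_of_le hp2
  have h1' : win (fun k => b (T + k)) i1 (m + 1) = R ++ [c] := by rw [win_sh]; exact h1
  have h2' : win (fun k => b (T + k)) (i1 + n) (m + 1) = R ++ [d] := by rw [win_sh, ← Nat.add_assoc]; exact h2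
  obtain ⟨i, hi1, hi2⟩ := cbz_step h hU hz n i1 h1' h2'
  have hUi := hU.ret _ hz i hi1
  have hVi := hV.ret _ hz (i + A) hi2
  refine ⟨T + i, ?_, ?_⟩
  · rw [← win_sh, win_add]
    congr 1
    · rw [← hUi, win_take _ _ (Nat.le_add_right A m)]
    · rw [← hVi, win_take _ _ (Nat.le_add_right B m)]
  · rw [← win_sh]
    exact hi1

theorem cbS2 {b : ℕ → ℕ} {M : ℕ} (hM : ∀ n, b n ≤ M) (hb0 : ∀ n, 0 < b n) {m c₀ d₀ : ℕ} {R : List ℕ}
    (h : Lev b m R c₀ d₀) (hbis : Bis b m R) (hlow : m + 1 ≤ (RecB b m).ncard) (i0 : ℕ)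
    (hz : In b (m + 1) (fun k => b (i0 + k))) {c δ : ℝ} (hc : 0 ≤ c) (hc1 : c ≤ 1) (hδ : 0 ≤ δ) (hm : (0 : ℝ) < m)
    (hD : 8 * (1 + c) * (((RecB b m).ncard : ℝ) + 1 - m) + 2 * (3 + c) * (1 + c) * i0 + 30 * δ * m ≤ 4 * (1 - c) * m) :
    GdS b c δ m := by
  obtain ⟨A, U, hU⟩ := ret_ex hM h h.rc
  obtain ⟨B, V, hV⟩ := ret_ex hM h h.rd
  have hcnt := cnt hM h hU hV hbis
  obtain ⟨D, hDdef⟩ : ∃ D, A + B = m + D := Nat.exists_eq_add_of_le (by omega)
  have hDr : ((RecB b m).ncard : ℝ) + 1 - m = D := by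
    have h1 : (((RecB b m).ncard + 1 : ℕ) : ℝ) = ((m + D : ℕ) : ℝ) := by rw [← hcnt, hDdef]
    push_cast at h1
    linarith
  rw [hDr] at hD
  have hUl := cbz_len hU.mem
  have hVl := cbz_len hV.mem
  have hRl : R.length = m := by
    rw [← hU.tk, List.length_take, hUl]
    omega
  have hUe : U.take A ++ R = U := by
    have h1 := List.take_append_drop A U
    rw [hU.dr] at h1
    exact h1
  have hVe : V.take B ++ R = V := by
    have h1 := List.take_append_drop B V
    rw [hV.dr] at h1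
    exact h1
  obtain ⟨p, hp1, hp2⟩ := cbz_trans hM h hU hV
  obtain ⟨p', hp1', hp2'⟩ := cbz_trans hM (cbz_symm h) hV hU
  have hBA : B + A = A + B := Nat.add_comm _ _
  rw [hBA] at hp1'
  have take1 : ∀ q, ∀ x : ℕ, win b q (m + 1) = R ++ [x] → (win b q (A + B)).take m = R := by
    intro q x hx
    rw [win_take b q (by omega : m ≤ A + B)]
    have h1 := congrArg (List.take m) hx
    rw [win_take b q (Nat.le_succ m), List.take_append_of_le_length hRl.ge, List.take_of_length_le hRl.le] at h1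
    exact h1
  have w12 : U.take A ++ V.take B = R ++ (win b p (A + B)).drop m := by
    rw [← hp1]
    have h1 := List.take_append_drop m (win b p (A + B))
    rw [take1 p _ hp2] at h1
    exact h1.symm
  have w21 : V.take B ++ U.take A = R ++ (win b p' (A + B)).drop m := by
    rw [← hp1']
    have h1 := List.take_append_drop m (win b p' (A + B))
    rw [take1 p' _ hp2'] at h1
    exact h1.symm
  have hu : (win b p (A + B)).drop m = win b (p + m) (A + B - m) := win_drop b p (by omega)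
  have hv : (win b p' (A + B)).drop m = win b (p' + m) (A + B - m) := win_drop b p' (by omega)
  have hABm : A + B - m = D := by omega
  rw [hu, hABm] at w12
  rw [hv, hABm] at w21
  have hcomm : U.take A ++ V.take B ≠ V.take B ++ U.take A := by
    rw [← hp1, ← hp1']
    intro hcon
    have h1 := congrArg (List.take (m + 1)) hcon
    rw [win_take b p (by omega), win_take b p' (by omega), hp2, hp2'] at h1
    have h3 : [c₀] = [d₀] := List.append_cancel_left h1
    have h4 : c₀ = d₀ := by simpa using h3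
    exact h.cd h4
  have posw : ∀ q n, ∀ x ∈ win b q n, 0 < x := fun q n => win_pos hb0 q n
  have hpU : ∀ x ∈ U.take A, 0 < x := by
    intro x hx
    exact posw p (A + B) x (by rw [hp1]; exact List.mem_append_left _ hx)
  have hpV : ∀ x ∈ V.take B, 0 < x := by
    intro x hx
    exact posw p (A + B) x (by rw [hp1]; exact List.mem_append_right _ hx)
  have hne : U.take A ≠ [] := by
    intro hcon
    have h1 := congrArg List.length hcon
    rw [List.length_take, hUl, List.length_nil] at h1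
    have := hU.pos
    omega
  set u := win b (p + m) D with hudef
  set v := win b (p' + m) D with hvdef
  have hul : u.length = D := by rw [hudef, win_length]
  have hvl : v.length = D := by rw [hvdef, win_length]
  have tR := tw_R w12 w21
  have tU := tw_1 w12 w21
  have tV := tw_2 w12 w21
  rw [hUe] at tU
  rw [hVe] at tV
  have hdet := tws_det_ne w12 w21 hpU hpV hne hcomm
  have hRw : ∃ q, win b q R.length = R := by
    refine ⟨p, ?_⟩
    rw [hRl]
    have h1 := take1 p _ hp2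
    rwa [win_take b p (by omega : m ≤ A + B)] at h1
  have hUw : ∃ q, win b q U.length = U := by
    rw [hUl]
    exact Filter.Frequently.exists hU.mem
  have hVw : ∃ q, win b q V.length = V := by
    rw [hVl]
    exact Filter.Frequently.exists hV.mem
  have huw : ∃ q, win b q u.length = u := ⟨p + m, by rw [hul]⟩
  have hvw : ∃ q, win b q v.length = v := ⟨p' + m, by rw [hvl]⟩
  have hTU : cfZ U * (tws u v)ᵀ = tws u v * (cfZ U)ᵀ := tU
  have hTV : cfZ V * (tws u v)ᵀ = tws u v * (cfZ V)ᵀ := tV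
  obtain ⟨d, ⟨hdA, hd⟩ | ⟨hdB, hd⟩⟩ := suf_ex hM h hU hV hz
  · exact cbs_side2 h (cbz_symm h) hU hV hz hUe hVe tR hTU hTV huw hvw hul hvl hdet hRl hUl hVl hdA hd hDdef hc hc1 hδ hm hD
  · exact cbs_side2 (cbz_symm h) h hV hU hz hVe hUe tR hTV hTU huw hvw hul hvl hdet hRl hVl hUl hdB hd
      (by omega) hc hc1 hδ hm hD

end Pool.Agent.H54.TM
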