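import Pool.Agent.H54.TM.Mat

/-!
# Twisted mirror criterion (MP_0ea415_nt)

`α` has the word `Va` at the index `i`, `β` has the word `Vb` at the index `j`, and `M(za Va) Z = Z' M(zb Vb)ᵗ` with integer
matrices `Z`, `Z'` with entries at most `z`, `det Z ≠ 0` (`za`, `zb`: virtual words in front of `Va`, `Vb`). Then
`P = cm α i * M(Va) * Z * adj(M zb)ᵗ * (cm β j)ᵗ` satisfies
`P = cm α (i+|Va|) * (Z adj(M zb)ᵗ (cm β j)ᵗ)`, so its columns are close to the direction `(α,1)`, and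
`P = ± (cm α i adj(M za) Z') * (cm β (j+|Vb|))ᵗ`, so its rows are close to the direction `(β,1)`. `q = |P₁₁|`.
-/

set_option autoImplicit false

namespace Pool.Agent.H54.TM

open Pool.Agent.H2.MC Pool.Agent.H2.Sturm Matrix

/-- columns: `|(M N) 0 k - x (M N) 1 k|` -/
lemma col_bd {M N : Matrix (Fin 2) (Fin 2) ℤ} {x e b : ℝ} (he : ∀ k, |(M 0 k : ℝ) - x * M 1 k| ≤ e)
    (hb : ∀ i j, |(N i j : ℝ)| ≤ b) (k : Fin 2) : |((M * N) 0 k : ℝ) - x * (M * N) 1 k| ≤ 2 * e * b := by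
  have he0 : 0 ≤ e := (abs_nonneg _).trans (he 0)
  rw [Matrix.mul_apply, Matrix.mul_apply, Fin.sum_univ_two, Fin.sum_univ_two]
  push_cast
  have e1 : (M 0 0 : ℝ) * N 0 k + M 0 1 * N 1 k - x * (M 1 0 * N 0 k + M 1 1 * N 1 k) =
      ((M 0 0 : ℝ) - x * M 1 0) * N 0 k + ((M 0 1 : ℝ) - x * M 1 1) * N 1 k := by ring
  rw [e1]
  have h1 : |((M 0 0 : ℝ) - x * M 1 0) * N 0 k| ≤ e * b := by
    rw [abs_mul]
    exact mul_le_mul (he 0) (hb _ _) (abs_nonneg _) he0
  have h2 : |((M 0 1 : ℝ) - x * M 1 1) * N 1 k| ≤ e * b := by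
    rw [abs_mul]
    exact mul_le_mul (he 1) (hb _ _) (abs_nonneg _) he0
  refine (abs_add_le _ _).trans ?_
  linarith

/-- the bound of the middle matrix -/
lemma mid_bd {a' b' x e Q K0 K1 : ℝ} (ha : 1 ≤ a') (hb : 0 ≤ b') (hx : 1 ≤ x) (he : |K0 - x * K1| ≤ e)
    (hQ : |a' * K0 + b' * K1| ≤ Q) : |K0| ≤ Q / a' + 2 * e ∧ |K1| ≤ Q / a' + 2 * e := by
  have he0 : 0 ≤ e := (abs_nonneg _).trans he
  have hQ0 : 0 ≤ Q := (abs_nonneg _).trans hQ
  have h1 : |K1| * (a' * x + b') ≤ Q + a' * e := by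
    have e1 : K1 * (a' * x + b') = (a' * K0 + b' * K1) - a' * (K0 - x * K1) := by ring
    have h2 : |K1 * (a' * x + b')| ≤ Q + a' * e := by
      rw [e1]
      refine (abs_sub _ _).trans ?_
      rw [abs_mul a', abs_of_nonneg (by linarith : 0 ≤ a')]
      have := mul_le_mul_of_nonneg_left he (by linarith : 0 ≤ a')
      linarith
    rw [abs_mul, abs_of_nonneg (by positivity : 0 ≤ a' * x + b')] at h2
    exact h2
  have h3 : |K1| * x ≤ Q / a' + e := by
    have ha0 : 0 < a' := by linarith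
    have h4 : |K1| * x * a' ≤ Q + a' * e := by
      have := mul_nonneg (abs_nonneg K1) hb
      nlinarith
    have h5 : |K1| * x ≤ (Q + a' * e) / a' := by
      rw [le_div_iff₀ ha0]
      exact h4
    have h6 : (Q + a' * e) / a' = Q / a' + e := by
      field_simp
    rw [h6] at h5
    exact h5
  have h7 : |K1| ≤ |K1| * x := by
    have := mul_le_mul_of_nonneg_left hx (abs_nonneg K1)
    linarith
  refine ⟨?_, by linarith⟩
  have h8 : |K0| ≤ |K0 - x * K1| + |x * K1| := by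
    have : K0 = (K0 - x * K1) + x * K1 := by ring
    nth_rewrite 1 [this]
    exact abs_add_le _ _
  rw [abs_mul, abs_of_nonneg (by linarith : 0 ≤ x)] at h8
  linarith

lemma natAbs_real (p : ℤ) : (p.natAbs : ℝ) = |(p : ℝ)| := by
  rw [Nat.cast_natAbs, Int.cast_abs]

lemma nd_natAbs (p : ℤ) (x : ℝ) (r : ℤ) : nd ((p.natAbs : ℝ) * x) ≤ |(r : ℝ) - x * p| := by
  rw [natAbs_real]
  rcases le_total 0 (p : ℝ) with h | h
  · rw [abs_of_nonneg h]
    refine (nd_le _ r).trans (le_of_eq ?_)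
    rw [abs_sub_comm, mul_comm]
  · rw [abs_of_nonpos h]
    refine (nd_le _ (-r)).trans (le_of_eq ?_)
    push_cast
    have : -(p : ℝ) * x - -(r : ℝ) = (r : ℝ) - x * p := by ring
    rw [this]

lemma adj_mul_cfZ (u v : List ℕ) : (cfZ u).adjugate * cfZ (u ++ v) = (cfZ u).det • cfZ v := by
  rw [cfZ_append, ← Matrix.mul_assoc, cfZ_adj, Matrix.smul_mul, Matrix.one_mul]

lemma smul_sq_one {d : ℤ} (hd : d ^ 2 = 1) (M : Matrix (Fin 2) (Fin 2) ℤ) : d • (d • M) = M := by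
  rw [smul_smul, ← pow_two, hd, one_smul]

theorem crit {α β : ℝ} (hα : ∀ n, 0 < pq α n) (hβ : ∀ n, 0 < pq β n) {A : ℕ} (hA : ∀ n, pq α n ≤ A) :
    ∃ C : ℝ, 1 ≤ C ∧ ∀ (i j : ℕ) (za Va zb Vb : List ℕ) (Z Z' : Matrix (Fin 2) (Fin 2) ℤ) (z : ℝ),
      (∀ k l, |(Z k l : ℝ)| ≤ z) → (∀ k l, |(Z' k l : ℝ)| ≤ z) → Z.det ≠ 0 →
      win (pq α) i Va.length = Va → win (pq β) j Vb.length = Vb →
      (∀ e ∈ za, 0 < e) → (∀ e ∈ zb, 0 < e) →
      cfZ (za ++ Va) * Z = Z' * (cfZ (zb ++ Vb))ᵀ →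
      siz zb ≤ siz Va → siz za ≤ siz Vb →
      C * z ^ 2 * siz za * siz zb < siz Va * siz Vb →
      ∃ q : ℕ, 0 < q ∧
        (q : ℝ) ≤ C * z * siz (win (pq α) 0 i) * siz (win (pq β) 0 j) * siz Vb / siz za ∧
        (q : ℝ) * nd (q * α) * nd (q * β) ≤
          C * z ^ 3 * siz (win (pq α) 0 i) * siz (win (pq β) 0 j) * siz zb / siz Va := by
  set cα : ℝ := |(⌊α⌋ : ℝ)| + 1 with hcα
  set cβ : ℝ := |(⌊β⌋ : ℝ)| + 1 with hcβ
  have hcα1 : 1 ≤ cα := by
    have := abs_nonneg (⌊α⌋ : ℝ)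
    linarith
  have hcβ1 : 1 ≤ cβ := by
    have := abs_nonneg (⌊β⌋ : ℝ)
    linarith
  set X : ℝ := (A : ℝ) + 1 with hX
  have hX1 : 1 ≤ X := by
    have : (0 : ℝ) ≤ A := Nat.cast_nonneg _
    linarith
  refine ⟨256 * (2 + 8 * X) * cα * cβ, ?_, ?_⟩
  · have h1 : 1 ≤ cα * cβ := one_le_mul_of_one_le_of_one_le hcα1 hcβ1
    nlinarith
  intro i j za Va zb Vb Z Z' z hZ hZ' hdet hVa hVb hza hzb hrel hs1 hs2 hs3
  have hVap : ∀ e ∈ Va, 0 < e := by
    rw [← hVa]
    exact win_pos hα _ _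
  have hVbp : ∀ e ∈ Vb, 0 < e := by
    rw [← hVb]
    exact win_pos hβ _ _
  have hz0 : 0 ≤ z := (abs_nonneg _).trans (hZ 0 0)
  have hz1 : 1 ≤ z := by
    by_contra hcon
    have h1 : ∀ k l, Z k l = 0 := by
      intro k l
      have h2 := (hZ k l).trans_lt (not_le.1 hcon)
      have h3 : |Z k l| < 1 := by exact_mod_cast h2
      exact Int.abs_lt_one_iff.1 h3
    apply hdet
    rw [Matrix.det_fin_two, h1, h1, h1, h1]
    norm_num
  -- sizes
  have hTa : (1 : ℝ) ≤ (siz (win (pq α) 0 i) : ℝ) := by exact_mod_cast siz_pos (win_pos hα 0 i)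
  have hTb : (1 : ℝ) ≤ (siz (win (pq β) 0 j) : ℝ) := by exact_mod_cast siz_pos (win_pos hβ 0 j)
  have hsVa : (1 : ℝ) ≤ siz Va := by exact_mod_cast siz_pos hVap
  have hsVb : (1 : ℝ) ≤ siz Vb := by exact_mod_cast siz_pos hVbp
  have hsza : (1 : ℝ) ≤ siz za := by exact_mod_cast siz_pos hza
  have hszb : (1 : ℝ) ≤ siz zb := by exact_mod_cast siz_pos hzb
  have hs1' : (siz zb : ℝ) ≤ siz Va := by exact_mod_cast hs1
  have hs2' : (siz za : ℝ) ≤ siz Vb := by exact_mod_cast hs2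
  set Ta : ℝ := (siz (win (pq α) 0 i) : ℝ) with hTadef
  set Tb : ℝ := (siz (win (pq β) 0 j) : ℝ) with hTbdef
  set va : ℝ := (siz Va : ℝ) with hva
  set vb : ℝ := (siz Vb : ℝ) with hvb
  set sa : ℝ := (siz za : ℝ) with hsa
  set sb : ℝ := (siz zb : ℝ) with hsb
  -- the matrices
  set Mα := cm α i with hMα
  set Mβ := cm β j with hMβ
  set K := cfZ Va * (Z * ((cfZ zb).adjugate)ᵀ) with hK
  set P := Mα * K * Mβᵀ with hP
  have hMαVa : Mα * cfZ Va = cm α (i + Va.length) := by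
    rw [cm_add, hVa]
  have hMβVb : Mβ * cfZ Vb = cm β (j + Vb.length) := by
    rw [cm_add, hVb]
  have hP1 : P = cm α (i + Va.length) * (Z * ((cfZ zb).adjugate)ᵀ * Mβᵀ) := by
    rw [← hMαVa, hP, hK]
    simp only [Matrix.mul_assoc]
  -- the second form of the middle matrix
  have hK2 : cfZ za * K = (cfZ zb).det • (Z' * (cfZ Vb)ᵀ) := by
    rw [hK, ← Matrix.mul_assoc, ← cfZ_append, ← Matrix.mul_assoc, hrel, Matrix.mul_assoc,
      ← Matrix.transpose_mul, adj_mul_cfZ, Matrix.transpose_smul, Matrix.mul_smul]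
  have hK3 : K = ((cfZ za).det * (cfZ zb).det) • ((cfZ za).adjugate * (Z' * (cfZ Vb)ᵀ)) := by
    have h1 : (cfZ za).adjugate * (cfZ za * K) = (cfZ za).det • K := by
      rw [← Matrix.mul_assoc, cfZ_adj, Matrix.smul_mul, Matrix.one_mul]
    have h2 : (cfZ za).det • ((cfZ za).det • K) = K := smul_sq_one (cfZ_det_sq za) K
    rw [← h2, ← h1, hK2, Matrix.mul_smul, smul_smul]
  have hP2 : P = ((cfZ za).det * (cfZ zb).det) •
      (Mα * (cfZ za).adjugate * Z' * (cm β (j + Vb.length))ᵀ) := by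
    rw [← hMβVb, hP, hK3, Matrix.mul_smul, Matrix.smul_mul, Matrix.transpose_mul]
    simp only [Matrix.mul_assoc]
  have hdd : ((cfZ za).det * (cfZ zb).det) ^ 2 = 1 := by
    rw [mul_pow, cfZ_det_sq, cfZ_det_sq, one_mul]
  -- determinant
  have hPdet : P.det ^ 2 = Z.det ^ 2 := by
    have h1 : (cfZ zb).adjugate.det ^ 2 = 1 := by
      rw [Matrix.det_adjugate, Fintype.card_fin]
      show ((cfZ zb).det ^ 1) ^ 2 = 1
      rw [pow_one]
      exact cfZ_det_sq zb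
    rw [hP, hK, Matrix.det_mul, Matrix.det_mul, Matrix.det_mul, Matrix.det_mul, Matrix.det_transpose,
      Matrix.det_transpose, mul_pow, mul_pow, mul_pow, mul_pow, h1, cm_det_sq, cm_det_sq, cfZ_det_sq]
    ring
  have hPdet1 : 1 ≤ |(P.det : ℝ)| := by
    have h1 : P.det ≠ 0 := by
      intro h0
      rw [h0] at hPdet
      exact hdet (pow_eq_zero_iff two_ne_zero |>.1 (by simpa using hPdet.symm))
    have h2 : 1 ≤ |P.det| := Int.one_le_abs h1
    exact_mod_cast h2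
  -- entries of the factors
  have hZb : ∀ k l, |((Z * ((cfZ zb).adjugate)ᵀ) k l : ℝ)| ≤ 2 * z * sb :=
    mul_bd hZ (tr_bd (adj_bd (cfZ_bd hzb)))
  have hR : ∀ k l, |((Z * ((cfZ zb).adjugate)ᵀ * Mβᵀ) k l : ℝ)| ≤ 2 * (2 * z * sb) * (cβ * Tb) :=
    mul_bd hZb (tr_bd (cm_bd hβ j))
  have hcol : ∀ k, |(P 0 k : ℝ) - α * P 1 k| ≤ 8 * z * cβ * sb * Tb / (Ta * va) := by
    intro k
    have h1 := col_bd (cm_err hα (i + Va.length)) hR k
    rw [← hP1] at h1
    refine h1.trans ?_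
    have h2 : Ta * va ≤ siz (win (pq α) 0 (i + Va.length)) := by
      rw [win_add, Nat.zero_add, hVa, hTadef, hva]
      exact_mod_cast siz_append_ge (win (pq α) 0 i) Va
    have h3 : 1 / (siz (win (pq α) 0 (i + Va.length)) : ℝ) ≤ 1 / (Ta * va) :=
      one_div_le_one_div_of_le (by positivity) h2
    have h4 : 2 * (1 / (siz (win (pq α) 0 (i + Va.length)) : ℝ)) * (2 * (2 * z * sb) * (cβ * Tb)) ≤
        2 * (1 / (Ta * va)) * (2 * (2 * z * sb) * (cβ * Tb)) := by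
      refine mul_le_mul_of_nonneg_right (mul_le_mul_of_nonneg_left h3 (by norm_num)) (by positivity)
    refine h4.trans (le_of_eq ?_)
    field_simp
    ring
  have hrow : ∀ k, |(P k 0 : ℝ) - β * P k 1| ≤ 8 * z * cα * sa * Ta / (Tb * vb) := by
    intro k
    have hL : ∀ k l, |((Mα * (cfZ za).adjugate * Z') k l : ℝ)| ≤ 2 * (2 * (cα * Ta) * sa) * z :=
      mul_bd (mul_bd (cm_bd hα i) (adj_bd (cfZ_bd hza))) hZ'
    have h1 := col_bd (M := cm β (j + Vb.length)) (N := (Mα * (cfZ za).adjugate * Z')ᵀ)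
      (cm_err hβ (j + Vb.length)) (tr_bd hL) k
    rw [← Matrix.transpose_transpose (cm β (j + Vb.length)), ← Matrix.transpose_mul] at h1
    have hPk : ∀ _ : ℕ, |(P k 0 : ℝ) - β * P k 1| =
        |(((Mα * (cfZ za).adjugate * Z' * (cm β (j + Vb.length))ᵀ)ᵀ 0 k : ℤ) : ℝ) -
          β * ((Mα * (cfZ za).adjugate * Z' * (cm β (j + Vb.length))ᵀ)ᵀ 1 k : ℤ)| := by
      intro _
      rw [hP2]
      simp only [Matrix.smul_apply, smul_eq_mul, Matrix.transpose_apply]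
      set d := (cfZ za).det * (cfZ zb).det with hd
      have hd1 : |(d : ℝ)| = 1 := by
        have h5 : ((d : ℝ)) ^ 2 = 1 := by exact_mod_cast hdd
        rw [← sq_abs] at h5
        exact (pow_eq_one_iff_of_nonneg (abs_nonneg _) two_ne_zero).mp h5
      push_cast
      rw [show ∀ a b : ℝ, (d : ℝ) * a - β * ((d : ℝ) * b) = d * (a - β * b) from fun a b => by ring,
        abs_mul, hd1, one_mul]
    rw [hPk 0]
    refine h1.trans ?_
    have h2 : Tb * vb ≤ siz (win (pq β) 0 (j + Vb.length)) := by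
      rw [win_add, Nat.zero_add, hVb, hTbdef, hvb]
      exact_mod_cast siz_append_ge (win (pq β) 0 j) Vb
    have h3 : 1 / (siz (win (pq β) 0 (j + Vb.length)) : ℝ) ≤ 1 / (Tb * vb) :=
      one_div_le_one_div_of_le (by positivity) h2
    have h4 : 2 * (1 / (siz (win (pq β) 0 (j + Vb.length)) : ℝ)) * (2 * (2 * (cα * Ta) * sa) * z) ≤
        2 * (1 / (Tb * vb)) * (2 * (2 * (cα * Ta) * sa) * z) := by
      refine mul_le_mul_of_nonneg_right (mul_le_mul_of_nonneg_left h3 (by norm_num)) (by positivity)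
    refine h4.trans (le_of_eq ?_)
    field_simp
    ring
  -- the middle matrix
  have hmid : ∀ k l, |(K k l : ℝ)| ≤ (2 + 8 * X) * z * vb / sa := by
    have hQ : ∀ k l, |((cfZ za * K) k l : ℝ)| ≤ 2 * z * vb := by
      intro k l
      rw [hK2, Matrix.smul_apply, smul_eq_mul, Int.cast_mul]
      have hd1 : |((cfZ zb).det : ℝ)| = 1 := by
        have h5 : (((cfZ zb).det : ℝ)) ^ 2 = 1 := by exact_mod_cast cfZ_det_sq zb
        rw [← sq_abs] at h5
        exact (pow_eq_one_iff_of_nonneg (abs_nonneg _) two_ne_zero).mp h5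
      rw [abs_mul, hd1, one_mul]
      exact mul_bd hZ' (tr_bd (cfZ_bd hVbp)) k l
    have hxq := one_lt_q hα i
    have hxX : cq α (i + 1) ≤ X := q_le hα (hA i)
    have hKe : ∀ l, |(K 0 l : ℝ) - cq α (i + 1) * K 1 l| ≤ 4 * z * X := by
      intro l
      have h1 := col_bd (M := cfZ Va) (N := Z * ((cfZ zb).adjugate)ᵀ) (x := cq α (i + 1))
        (e := cq α (i + 1) / va) (fun k => by
          have := win_err hα i Va.length k
          rw [hVa] at this
          exact this) hZb l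
      refine h1.trans ?_
      have h2 : 2 * (cq α (i + 1) / va) * (2 * z * sb) = 4 * z * cq α (i + 1) * (sb / va) := by
        ring
      rw [h2]
      have h3 : sb / va ≤ 1 := by
        rw [div_le_one (by linarith)]
        exact hs1'
      have h4 : 0 ≤ 4 * z * cq α (i + 1) := by
        have : 0 ≤ cq α (i + 1) := by linarith
        positivity
      calc 4 * z * cq α (i + 1) * (sb / va) ≤ 4 * z * cq α (i + 1) * 1 := mul_le_mul_of_nonneg_left h3 h4
        _ ≤ 4 * z * X := by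
          rw [mul_one]
          exact mul_le_mul_of_nonneg_left hxX (by positivity)
    have hfin : 2 * z * vb / sa + 2 * (4 * z * X) ≤ (2 + 8 * X) * z * vb / sa := by
      have h1 : 1 ≤ vb / sa := by
        rw [le_div_iff₀ (by linarith)]
        linarith
      have h2 : (2 + 8 * X) * z * vb / sa = 2 * z * vb / sa + 8 * z * X * (vb / sa) := by ring
      rw [h2]
      have h3 : 0 ≤ 8 * z * X := by positivity
      nlinarith [mul_le_mul_of_nonneg_left h1 h3]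
    have hent : ∀ l, |(K 0 l : ℝ)| ≤ 2 * z * vb / sa + 2 * (4 * z * X) ∧
        |(K 1 l : ℝ)| ≤ 2 * z * vb / sa + 2 * (4 * z * X) := by
      intro l
      have h1 := hQ 0 l
      rw [Matrix.mul_apply, Fin.sum_univ_two] at h1
      push_cast at h1
      have h2 : (cfZ za 0 0 : ℝ) = sa := by
        rw [cfZ_apply]
        push_cast
        rfl
      have h3 : (0 : ℝ) ≤ cfZ za 0 1 := by
        rw [cfZ_apply]
        positivity
      rw [h2] at h1
      exact mid_bd hsza h3 hxq.le (hKe l) h1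
    intro k l
    fin_cases k
    · exact ((hent l).1).trans hfin
    · exact ((hent l).2).trans hfin
  -- the entry P 1 1
  have hP11 : |(P 1 1 : ℝ)| ≤ 4 * ((2 + 8 * X) * z * vb / sa) * Ta * Tb := by
    have h1 : ∀ l, |((Mα * K) 1 l : ℝ)| ≤ 2 * Ta * ((2 + 8 * X) * z * vb / sa) := by
      intro l
      rw [Matrix.mul_apply, Fin.sum_univ_two]
      push_cast
      have g1 := cm_row hα i 0
      have g2 := cm_row hα i 1
      have k1 := hmid 0 l
      have k2 := hmid 1 l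
      have t0 : (0 : ℝ) ≤ Ta := by linarith
      have e1 : |(Mα 1 0 : ℝ) * K 0 l| ≤ Ta * ((2 + 8 * X) * z * vb / sa) := by
        rw [abs_mul]
        exact mul_le_mul g1 k1 (abs_nonneg _) t0
      have e2 : |(Mα 1 1 : ℝ) * K 1 l| ≤ Ta * ((2 + 8 * X) * z * vb / sa) := by
        rw [abs_mul]
        exact mul_le_mul g2 k2 (abs_nonneg _) t0
      refine (abs_add_le _ _).trans ?_
      linarith
    rw [hP, Matrix.mul_apply, Fin.sum_univ_two]
    push_cast
    have g1 : |((Mβᵀ 0 1 : ℤ) : ℝ)| ≤ Tb := cm_row hβ j 0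
    have g2 : |((Mβᵀ 1 1 : ℤ) : ℝ)| ≤ Tb := cm_row hβ j 1
    have k0 : 0 ≤ 2 * Ta * ((2 + 8 * X) * z * vb / sa) := by positivity
    have e1 : |((Mα * K) 1 0 : ℝ) * (Mβᵀ 0 1 : ℤ)| ≤ 2 * Ta * ((2 + 8 * X) * z * vb / sa) * Tb := by
      rw [abs_mul]
      exact mul_le_mul (h1 0) g1 (abs_nonneg _) k0
    have e2 : |((Mα * K) 1 1 : ℝ) * (Mβᵀ 1 1 : ℤ)| ≤ 2 * Ta * ((2 + 8 * X) * z * vb / sa) * Tb := by
      rw [abs_mul]
      exact mul_le_mul (h1 1) g2 (abs_nonneg _) k0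
    refine (abs_add_le _ _).trans ?_
    linarith
  have hP0 : P 1 1 ≠ 0 := by
    intro h0
    have h1 := hcol 1
    have h2 := hrow 1
    rw [h0] at h1 h2
    simp only [Int.cast_zero, mul_zero, sub_zero] at h1 h2
    have h3 : |(P.det : ℝ)| = |(P 0 1 : ℝ)| * |(P 1 0 : ℝ)| := by
      rw [Matrix.det_fin_two, h0]
      push_cast
      rw [mul_zero, zero_sub, abs_neg, abs_mul]
    have h4 : |(P 0 1 : ℝ)| * |(P 1 0 : ℝ)| ≤
        (8 * z * cβ * sb * Tb / (Ta * va)) * (8 * z * cα * sa * Ta / (Tb * vb)) :=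
      mul_le_mul h1 h2 (abs_nonneg _) (by positivity)
    have h5 : (8 * z * cβ * sb * Tb / (Ta * va)) * (8 * z * cα * sa * Ta / (Tb * vb)) =
        64 * cα * cβ * z ^ 2 * sa * sb / (va * vb) := by
      field_simp
      ring
    have h6 : 64 * cα * cβ * z ^ 2 * sa * sb / (va * vb) < 1 := by
      rw [div_lt_one (by positivity)]
      refine lt_of_le_of_lt ?_ hs3
      have h7 : 64 * cα * cβ ≤ 256 * (2 + 8 * X) * cα * cβ := by
        have : 0 ≤ cα * cβ := by positivity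
        nlinarith
      have h8 : 0 ≤ z ^ 2 * sa * sb := by positivity
      nlinarith [mul_le_mul_of_nonneg_right h7 h8]
    rw [h3] at hPdet1
    linarith
  refine ⟨(P 1 1).natAbs, Int.natAbs_pos.2 hP0, ?_, ?_⟩
  · have h1 : ((P 1 1).natAbs : ℝ) = |(P 1 1 : ℝ)| := natAbs_real _
    rw [h1]
    refine hP11.trans ?_
    have h2 : 4 * ((2 + 8 * X) * z * vb / sa) * Ta * Tb = 4 * (2 + 8 * X) * (z * Ta * Tb * vb / sa) := by ring
    have h3 : 256 * (2 + 8 * X) * cα * cβ * z * Ta * Tb * vb / sa =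
        256 * (2 + 8 * X) * (cα * cβ) * (z * Ta * Tb * vb / sa) := by ring
    rw [h2, h3]
    refine mul_le_mul_of_nonneg_right ?_ (by positivity)
    have h4 : 1 ≤ cα * cβ := one_le_mul_of_one_le_of_one_le hcα1 hcβ1
    nlinarith
  · have h1 : ((P 1 1).natAbs : ℝ) = |(P 1 1 : ℝ)| := natAbs_real _
    have h2 : nd (((P 1 1).natAbs : ℝ) * α) ≤ 8 * z * cβ * sb * Tb / (Ta * va) :=
      (nd_natAbs (P 1 1) α (P 0 1)).trans (hcol 1)
    have h3 : nd (((P 1 1).natAbs : ℝ) * β) ≤ 8 * z * cα * sa * Ta / (Tb * vb) :=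
      (nd_natAbs (P 1 1) β (P 1 0)).trans (hrow 1)
    have h4 : 0 ≤ nd (((P 1 1).natAbs : ℝ) * α) := abs_nonneg _
    have h5 : 0 ≤ nd (((P 1 1).natAbs : ℝ) * β) := abs_nonneg _
    have h6 : ((P 1 1).natAbs : ℝ) * nd (((P 1 1).natAbs : ℝ) * α) * nd (((P 1 1).natAbs : ℝ) * β) ≤
        (4 * ((2 + 8 * X) * z * vb / sa) * Ta * Tb) * (8 * z * cβ * sb * Tb / (Ta * va)) *
          (8 * z * cα * sa * Ta / (Tb * vb)) := by
      refine mul_le_mul (mul_le_mul ?_ h2 h4 (by positivity)) h3 h5 (by positivity)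
      rw [h1]
      exact hP11
    refine h6.trans (le_of_eq ?_)
    field_simp
    ring

end Pool.Agent.H54.TM
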