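import Pool.Agent.H54.TM.CritG

/-!
# The integer matrix of the twisted mirror criterion, all bounds (MP_0ea415_nt)

`crit0` with the additional statement `P 1 1 ≠ 0`.
-/

set_option autoImplicit false

namespace Pool.Agent.H54.TM

open Pool.Agent.H2.MC Pool.Agent.H2.Sturm Matrix

/-- a matrix with nonzero determinant and small errors has a nonzero corner -/
lemma corner_ne {P : Matrix (Fin 2) (Fin 2) ℤ} {x y E E' : ℝ} (hd : P.det ≠ 0)
    (hc : ∀ k, |(P 0 k : ℝ) - x * P 1 k| ≤ E) (hr : ∀ k, |(P k 0 : ℝ) - y * P k 1| ≤ E') (hE : E * E' < 1) :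
    P 1 1 ≠ 0 := by
  intro h0
  have h1 := hc 1
  have h2 := hr 1
  rw [h0] at h1 h2
  simp only [Int.cast_zero, mul_zero, sub_zero] at h1 h2
  have h3 : |(P.det : ℝ)| = |(P 0 1 : ℝ)| * |(P 1 0 : ℝ)| := by
    rw [Matrix.det_fin_two, h0]
    push_cast
    rw [mul_zero, zero_sub, abs_neg, abs_mul]
  have h4 : |(P 0 1 : ℝ)| * |(P 1 0 : ℝ)| ≤ E * E' :=
    mul_le_mul h1 h2 (abs_nonneg _) ((abs_nonneg _).trans h1)
  have h10 : 1 ≤ |(P.det : ℝ)| := by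
    have : 1 ≤ |P.det| := Int.one_le_abs hd
    exact_mod_cast this
  rw [h3] at h10
  linarith

theorem critS {α β : ℝ} (hα : ∀ n, 0 < pq α n) (hβ : ∀ n, 0 < pq β n) {A : ℕ} (hA : ∀ n, pq α n ≤ A) :
    ∃ C : ℝ, 1 ≤ C ∧ ∀ (i j : ℕ) (za Va zb Vb : List ℕ) (Z Z' : Matrix (Fin 2) (Fin 2) ℤ) (z : ℝ),
      (∀ k l, |(Z k l : ℝ)| ≤ z) → (∀ k l, |(Z' k l : ℝ)| ≤ z) → Z.det ≠ 0 →
      win (pq α) i Va.length = Va → win (pq β) j Vb.length = Vb →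
      (∀ e ∈ za, 0 < e) → (∀ e ∈ zb, 0 < e) →
      cfZ (za ++ Va) * Z = Z' * (cfZ (zb ++ Vb))ᵀ →
      siz zb ≤ siz Va → siz za ≤ siz Vb →
      C * z ^ 2 * siz za * siz zb < siz Va * siz Vb →
      1 ≤ z ∧ ∃ P : Matrix (Fin 2) (Fin 2) ℤ, P.det ≠ 0 ∧ P 1 1 ≠ 0 ∧
        |(P 1 1 : ℝ)| ≤ C * z * siz (win (pq α) 0 i) * siz (win (pq β) 0 j) * siz Vb / siz za ∧
        (∀ k, |(P 0 k : ℝ) - α * P 1 k| ≤
          C * z * siz zb * siz (win (pq β) 0 j) / (siz (win (pq α) 0 i) * siz Va)) ∧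
        ∀ k, |(P k 0 : ℝ) - β * P k 1| ≤
          C * z * siz za * siz (win (pq α) 0 i) / (siz (win (pq β) 0 j) * siz Vb) := by
  obtain ⟨C0, hC0, hcr⟩ := crit0 hα hβ hA
  have hCC : C0 ≤ C0 ^ 2 := by nlinarith
  refine ⟨C0 ^ 2, hC0.trans hCC, ?_⟩
  intro i j za Va zb Vb Z Z' z hZ hZ' hdet hVa hVb hza hzb hrel hs1 hs2 hs3
  obtain ⟨hz1, P, hPd, hP11, hcol, hrow⟩ := hcr i j za Va zb Vb Z Z' z hZ hZ' hdet hVa hVb hza hzb hrel hs1 hs2
  have hVap : ∀ e ∈ Va, 0 < e := by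
    rw [← hVa]
    exact win_pos hα _ _
  have hVbp : ∀ e ∈ Vb, 0 < e := by
    rw [← hVb]
    exact win_pos hβ _ _
  have hTa : (1 : ℝ) ≤ (siz (win (pq α) 0 i) : ℝ) := by exact_mod_cast siz_pos (win_pos hα 0 i)
  have hTb : (1 : ℝ) ≤ (siz (win (pq β) 0 j) : ℝ) := by exact_mod_cast siz_pos (win_pos hβ 0 j)
  have hsVa : (1 : ℝ) ≤ siz Va := by exact_mod_cast siz_pos hVap
  have hsVb : (1 : ℝ) ≤ siz Vb := by exact_mod_cast siz_pos hVbp
  have hsza : (1 : ℝ) ≤ siz za := by exact_mod_cast siz_pos hza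
  have hszb : (1 : ℝ) ≤ siz zb := by exact_mod_cast siz_pos hzb
  set Ta : ℝ := (siz (win (pq α) 0 i) : ℝ) with hTadef
  set Tb : ℝ := (siz (win (pq β) 0 j) : ℝ) with hTbdef
  set va : ℝ := (siz Va : ℝ) with hva
  set vb : ℝ := (siz Vb : ℝ) with hvb
  set sa : ℝ := (siz za : ℝ) with hsa
  set sb : ℝ := (siz zb : ℝ) with hsb
  have hP0 : P 1 1 ≠ 0 := by
    refine corner_ne hPd hcol hrow ?_
    have h1 : C0 * z * sb * Tb / (Ta * va) * (C0 * z * sa * Ta / (Tb * vb)) =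
        C0 ^ 2 * z ^ 2 * sa * sb / (va * vb) := by
      field_simp
    rw [h1, div_lt_one (by positivity)]
    exact hs3
  refine ⟨hz1, P, hPd, hP0, hP11.trans ?_, fun k => (hcol k).trans ?_, fun k => (hrow k).trans ?_⟩
  · have h1 : C0 * z * Ta * Tb * vb / sa = C0 * (z * Ta * Tb * vb / sa) := by ring
    have h2 : C0 ^ 2 * z * Ta * Tb * vb / sa = C0 ^ 2 * (z * Ta * Tb * vb / sa) := by ring
    rw [h1, h2]
    exact mul_le_mul_of_nonneg_right hCC (by positivity)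
  · have h1 : C0 * z * sb * Tb / (Ta * va) = C0 * (z * sb * Tb / (Ta * va)) := by ring
    have h2 : C0 ^ 2 * z * sb * Tb / (Ta * va) = C0 ^ 2 * (z * sb * Tb / (Ta * va)) := by ring
    rw [h1, h2]
    exact mul_le_mul_of_nonneg_right hCC (by positivity)
  · have h1 : C0 * z * sa * Ta / (Tb * vb) = C0 * (z * sa * Ta / (Tb * vb)) := by ring
    have h2 : C0 ^ 2 * z * sa * Ta / (Tb * vb) = C0 ^ 2 * (z * sa * Ta / (Tb * vb)) := by ring
    rw [h1, h2]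
    exact mul_le_mul_of_nonneg_right hCC (by positivity)

end Pool.Agent.H54.TM
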