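import Pool.Agent.H2.MC.DioA

/-!
# Twisted mirror trick (MP_0ea415_nt): matrices of words and of prefixes

`cfZ w`: the product of the matrices `(a 1; 1 0)` over the letters of `w`, as an integer matrix. `cm x n`: the matrix of the
first `n + 1` partial quotients `⌊x⌋, a_1, …, a_n` of `x`. Its columns are close to the direction `(x, 1)`: `cm_err`.
-/

set_option autoImplicit false

namespace Pool.Agent.H54.TM

open Pool.Agent.H2.MC Pool.Agent.H2.Sturm Matrix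

/-- the integer matrix of a word -/
def cfZ (w : List ℕ) : Matrix (Fin 2) (Fin 2) ℤ := (cfMat w).map (fun x : ℕ => (x : ℤ))

lemma cfZ_apply (w : List ℕ) (i j : Fin 2) : cfZ w i j = (cfMat w i j : ℤ) := rfl

lemma cfZ_nil : cfZ [] = 1 := by
  ext i j
  fin_cases i <;> fin_cases j <;> simp [cfZ, cfMat_nil]

lemma cfZ_append (u v : List ℕ) : cfZ (u ++ v) = cfZ u * cfZ v := by
  ext i j
  rw [cfZ_apply, cfMat_append, Matrix.mul_apply, Matrix.mul_apply]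
  push_cast
  rfl

lemma cfZ_reverse (u : List ℕ) : cfZ u.reverse = (cfZ u)ᵀ := by
  ext i j
  rw [cfZ_apply, cfMat_reverse]
  rfl

lemma cfZ_det_sq (u : List ℕ) : (cfZ u).det ^ 2 = 1 := by
  rw [Matrix.det_fin_two]
  exact det_cfMat u

lemma cfZ_adj (u : List ℕ) : (cfZ u).adjugate * cfZ u = (cfZ u).det • (1 : Matrix (Fin 2) (Fin 2) ℤ) :=
  Matrix.adjugate_mul _

/-- bounds of a product of two matrices -/
lemma mul_bd {M N : Matrix (Fin 2) (Fin 2) ℤ} {a b : ℝ} (ha : ∀ i j, |(M i j : ℝ)| ≤ a)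
    (hb : ∀ i j, |(N i j : ℝ)| ≤ b) (i j : Fin 2) : |((M * N) i j : ℝ)| ≤ 2 * a * b := by
  rw [Matrix.mul_apply, Fin.sum_univ_two]
  push_cast
  have ha0 : 0 ≤ a := (abs_nonneg _).trans (ha 0 0)
  have h1 : |(M i 0 : ℝ) * N 0 j| ≤ a * b := by
    rw [abs_mul]
    exact mul_le_mul (ha _ _) (hb _ _) (abs_nonneg _) ha0
  have h2 : |(M i 1 : ℝ) * N 1 j| ≤ a * b := by
    rw [abs_mul]
    exact mul_le_mul (ha _ _) (hb _ _) (abs_nonneg _) ha0
  calc |(M i 0 : ℝ) * N 0 j + M i 1 * N 1 j| ≤ |(M i 0 : ℝ) * N 0 j| + |(M i 1 : ℝ) * N 1 j| := abs_add_le _ _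
    _ ≤ 2 * a * b := by linarith

lemma tr_bd {M : Matrix (Fin 2) (Fin 2) ℤ} {a : ℝ} (ha : ∀ i j, |(M i j : ℝ)| ≤ a) (i j : Fin 2) :
    |(Mᵀ i j : ℝ)| ≤ a := ha j i

lemma adj_bd {M : Matrix (Fin 2) (Fin 2) ℤ} {a : ℝ} (ha : ∀ i j, |(M i j : ℝ)| ≤ a) (i j : Fin 2) :
    |(M.adjugate i j : ℝ)| ≤ a := by
  rw [Matrix.adjugate_fin_two]
  fin_cases i <;> fin_cases j
  · exact ha 1 1
  · show |((-M 0 1 : ℤ) : ℝ)| ≤ a
    push_cast
    rw [abs_neg]
    exact ha 0 1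
  · show |((-M 1 0 : ℤ) : ℝ)| ≤ a
    push_cast
    rw [abs_neg]
    exact ha 1 0
  · exact ha 0 0

lemma cfZ_bd {w : List ℕ} (hw : ∀ x ∈ w, 0 < x) (i j : Fin 2) : |(cfZ w i j : ℝ)| ≤ siz w := by
  obtain ⟨h1, h2, h3, h4, -⟩ := cfMat_ineq w hw
  rw [cfZ_apply]
  push_cast
  rw [abs_of_nonneg (Nat.cast_nonneg _)]
  unfold siz
  fin_cases i <;> fin_cases j
  · exact le_refl _
  · exact_mod_cast h2
  · exact_mod_cast h3
  · exact_mod_cast h4

/-- the matrix of the partial quotients of index `0, …, n` -/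
noncomputable def cm (x : ℝ) (n : ℕ) : Matrix (Fin 2) (Fin 2) ℤ := !![⌊x⌋, 1; 1, 0] * cfZ (win (pq x) 0 n)

lemma cm_add (x : ℝ) (n m : ℕ) : cm x (n + m) = cm x n * cfZ (win (pq x) n m) := by
  unfold cm
  rw [win_add, Nat.zero_add, cfZ_append, Matrix.mul_assoc]

lemma cm_10 (x : ℝ) (n : ℕ) : cm x n 1 0 = siz (win (pq x) 0 n) := by
  unfold cm
  rw [Matrix.mul_apply, Fin.sum_univ_two]
  simp [cfZ_apply, siz]

lemma cm_11 (x : ℝ) (n : ℕ) : cm x n 1 1 = cfMat (win (pq x) 0 n) 0 1 := by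
  unfold cm
  rw [Matrix.mul_apply, Fin.sum_univ_two]
  simp [cfZ_apply]

lemma cm_00 (x : ℝ) (n : ℕ) : cm x n 0 0 = ⌊x⌋ * cfMat (win (pq x) 0 n) 0 0 + cfMat (win (pq x) 0 n) 1 0 := by
  unfold cm
  rw [Matrix.mul_apply, Fin.sum_univ_two]
  simp [cfZ_apply]

lemma cm_01 (x : ℝ) (n : ℕ) : cm x n 0 1 = ⌊x⌋ * cfMat (win (pq x) 0 n) 0 1 + cfMat (win (pq x) 0 n) 1 1 := by
  unfold cm
  rw [Matrix.mul_apply, Fin.sum_univ_two]
  simp [cfZ_apply]

lemma cm_det_sq (x : ℝ) (n : ℕ) : (cm x n).det ^ 2 = 1 := by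
  unfold cm
  rw [Matrix.det_mul, mul_pow, cfZ_det_sq, Matrix.det_fin_two]
  simp

variable {x : ℝ}

lemma dig_pos (hx : ∀ n, 0 < pq x n) (m t : ℕ) : 0 < cfDigit x (m + 1 + t) := by
  have e : m + 1 + t = (m + t) + 1 := by omega
  rw [e, cfDigit_pq]
  exact_mod_cast hx _

lemma one_lt_q (hx : ∀ n, 0 < pq x n) (n : ℕ) : 1 < cq x (n + 1) :=
  one_lt_cq (k := 0 + 1) (fun t => dig_pos hx 0 t) n

lemma q_le (hx : ∀ n, 0 < pq x n) {A : ℕ} {n : ℕ} (hA : pq x n ≤ A) : cq x (n + 1) ≤ A + 1 := by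
  have h1 : ((cfDigit x (n + 1) : ℤ) : ℝ) = ((pq x n : ℕ) : ℝ) := by
    rw [cfDigit_pq]
    push_cast
    rfl
  have h2 := Int.lt_floor_add_one (cq x (n + 1))
  rw [← cfDigit_eq, h1] at h2
  have h3 : ((pq x n : ℕ) : ℝ) ≤ A := by exact_mod_cast hA
  linarith

/-- the Moebius relation along a window -/
lemma win_rel (hx : ∀ n, 0 < pq x n) (i l : ℕ) :
    ((cfMat (win (pq x) i l) 1 0 : ℝ) * cq x (i + l + 1) + cfMat (win (pq x) i l) 1 1) * cq x (i + 1) =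
      cfMat (win (pq x) i l) 0 0 * cq x (i + l + 1) + cfMat (win (pq x) i l) 0 1 := by
  have h := word_rel (k := 0 + 1) (fun t => dig_pos hx 0 t) (win (pq x) i l) (i + 1) (by
    intro t ht
    have e : i + 1 + t = (i + t) + 1 := by omega
    rw [e, cfDigit_pq, win_getElem])
  rw [win_length] at h
  have e2 : i + 1 + l = i + l + 1 := by omega
  rw [e2] at h
  exact h

lemma cm_rel (hx : ∀ n, 0 < pq x n) (n : ℕ) :
    ((cm x n 1 0 : ℝ) * cq x (n + 1) + cm x n 1 1) * x = cm x n 0 0 * cq x (n + 1) + cm x n 0 1 := by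
  have h1 := win_rel hx 0 n
  rw [Nat.zero_add] at h1
  have h2 := cq_rel (k := 0 + 1) (fun t => dig_pos hx 0 t) 0
  rw [cq_zero, cfDigit_eq, cq_zero] at h2
  rw [cm_10, cm_11, cm_00, cm_01]
  unfold siz
  push_cast
  have h0 : cq x (0 + 1) ≠ 0 := by
    have := one_lt_q hx 0
    linarith
  linear_combination ((cfMat (win (pq x) 0 n) 1 0 : ℝ) * cq x (n + 1) + cfMat (win (pq x) 0 n) 1 1) * h2
    - (x - ⌊x⌋) * h1

/-- abstract error: a unimodular matrix `(a b; c d)` with `(c y + d) x = a y + b` -/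
lemma err_abs {a b c d y x : ℝ} (hdet : (a * d - b * c) ^ 2 = 1) (hrel : (c * y + d) * x = a * y + b)
    (hy : 1 ≤ y) (hpos : 0 < c * y + d) :
    |a - x * c| = 1 / (c * y + d) ∧ |b - x * d| = y / (c * y + d) := by
  have h1 : (a - x * c) * y + (b - x * d) = 0 := by linarith
  have h2 : (a - x * c) * (c * y + d) = a * d - b * c := by
    have : b - x * d = -((a - x * c) * y) := by linarith
    linear_combination c * h1
  have h3 : |a * d - b * c| = 1 := by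
    rw [← sq_abs] at hdet
    exact (pow_eq_one_iff_of_nonneg (abs_nonneg _) two_ne_zero).mp hdet
  have h4 : |a - x * c| * (c * y + d) = 1 := by
    rw [← abs_of_pos hpos, ← abs_mul, h2, h3]
  have h5 : |a - x * c| = 1 / (c * y + d) := by
    rw [eq_div_iff hpos.ne']
    exact h4
  refine ⟨h5, ?_⟩
  have h6 : b - x * d = -((a - x * c) * y) := by linarith
  rw [h6, abs_neg, abs_mul, h5, abs_of_pos (by linarith : 0 < y)]
  ring

lemma cm_err (hx : ∀ n, 0 < pq x n) (n : ℕ) (k : Fin 2) :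
    |(cm x n 0 k : ℝ) - x * cm x n 1 k| ≤ 1 / siz (win (pq x) 0 n) := by
  have hrel := cm_rel hx n
  have hy := one_lt_q hx n
  have hs : 1 ≤ siz (win (pq x) 0 n) := siz_pos (win_pos hx 0 n)
  have hs' : (1 : ℝ) ≤ siz (win (pq x) 0 n) := by exact_mod_cast hs
  have hC : (cm x n 1 0 : ℝ) = siz (win (pq x) 0 n) := by
    rw [cm_10]
    push_cast
    rfl
  have hD : (0 : ℝ) ≤ cm x n 1 1 := by
    rw [cm_11]
    positivity
  have hdet : ((cm x n 0 0 : ℝ) * cm x n 1 1 - cm x n 0 1 * cm x n 1 0) ^ 2 = 1 := by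
    have h := cm_det_sq x n
    rw [Matrix.det_fin_two] at h
    exact_mod_cast h
  have hpos : 0 < (cm x n 1 0 : ℝ) * cq x (n + 1) + cm x n 1 1 := by
    rw [hC]
    positivity
  obtain ⟨h1, h2⟩ := err_abs hdet hrel hy.le hpos
  fin_cases k
  · show |(cm x n 0 0 : ℝ) - x * cm x n 1 0| ≤ _
    rw [h1]
    apply one_div_le_one_div_of_le (by linarith)
    rw [hC]
    nlinarith
  · show |(cm x n 0 1 : ℝ) - x * cm x n 1 1| ≤ _
    rw [h2, div_le_div_iff₀ hpos (by linarith), hC]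
    nlinarith

/-- the error of the matrix of a window in the direction of the complete quotient -/
lemma win_err (hx : ∀ n, 0 < pq x n) (i l : ℕ) (k : Fin 2) :
    |(cfZ (win (pq x) i l) 0 k : ℝ) - cq x (i + 1) * cfZ (win (pq x) i l) 1 k| ≤
      cq x (i + 1) / siz (win (pq x) i l) := by
  set w := win (pq x) i l with hw
  have hrel := win_rel hx i l
  rw [← hw] at hrel
  have hy := one_lt_q hx (i + l)
  have hx1 := one_lt_q hx i
  have hs : 1 ≤ siz w := siz_pos (win_pos hx i l)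
  have hs' : (1 : ℝ) ≤ siz w := by exact_mod_cast hs
  have hdet : ((cfMat w 0 0 : ℝ) * cfMat w 1 1 - cfMat w 0 1 * cfMat w 1 0) ^ 2 = 1 := by
    have h := det_cfMat w
    exact_mod_cast h
  have hsz : (cfMat w 0 0 : ℝ) = siz w := rfl
  have h01 : (0 : ℝ) ≤ cfMat w 0 1 := Nat.cast_nonneg _
  have hpos : 0 < (cfMat w 1 0 : ℝ) * cq x (i + l + 1) + cfMat w 1 1 := by
    have h3 : 0 < ((cfMat w 1 0 : ℝ) * cq x (i + l + 1) + cfMat w 1 1) * cq x (i + 1) := by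
      rw [hrel, hsz]
      positivity
    by_contra hcon
    have h4 := mul_nonpos_of_nonpos_of_nonneg (not_lt.1 hcon) (by linarith : 0 ≤ cq x (i + 1))
    linarith
  obtain ⟨h1, h2⟩ := err_abs hdet hrel hy.le hpos
  have key : (siz w : ℝ) ≤ ((cfMat w 1 0 : ℝ) * cq x (i + l + 1) + cfMat w 1 1) * cq x (i + 1) := by
    rw [hrel, hsz]
    nlinarith
  have key2 : (siz w : ℝ) * cq x (i + l + 1) ≤
      ((cfMat w 1 0 : ℝ) * cq x (i + l + 1) + cfMat w 1 1) * cq x (i + 1) := by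
    rw [hrel, hsz]
    linarith
  fin_cases k
  · show |((cfMat w 0 0 : ℤ) : ℝ) - cq x (i + 1) * ((cfMat w 1 0 : ℤ) : ℝ)| ≤ _
    push_cast
    rw [h1, div_le_div_iff₀ hpos (by linarith), one_mul, mul_comm (cq x (i + 1))]
    exact key
  · show |((cfMat w 0 1 : ℤ) : ℝ) - cq x (i + 1) * ((cfMat w 1 1 : ℤ) : ℝ)| ≤ _
    push_cast
    rw [h2, div_le_div_iff₀ hpos (by linarith), mul_comm (cq x (i + l + 1)), mul_comm (cq x (i + 1))]
    exact key2

lemma cm_bd (hx : ∀ n, 0 < pq x n) (n : ℕ) (i j : Fin 2) :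
    |(cm x n i j : ℝ)| ≤ (|(⌊x⌋ : ℝ)| + 1) * siz (win (pq x) 0 n) := by
  obtain ⟨h1, h2, h3, h4, -⟩ := cfMat_ineq _ (win_pos hx 0 n)
  set w := win (pq x) 0 n with hw
  have e : (siz w : ℝ) = cfMat w 0 0 := rfl
  have h2' : (cfMat w 0 1 : ℝ) ≤ siz w := by rw [e]; exact_mod_cast h2
  have h3' : (cfMat w 1 0 : ℝ) ≤ siz w := by rw [e]; exact_mod_cast h3
  have h4' : (cfMat w 1 1 : ℝ) ≤ siz w := by rw [e]; exact_mod_cast h4
  have g1 : (0 : ℝ) ≤ cfMat w 0 1 := Nat.cast_nonneg _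
  have g2 : (0 : ℝ) ≤ cfMat w 1 0 := Nat.cast_nonneg _
  have g3 : (0 : ℝ) ≤ cfMat w 1 1 := Nat.cast_nonneg _
  have g0 : (0 : ℝ) ≤ siz w := Nat.cast_nonneg _
  have hf := abs_nonneg (⌊x⌋ : ℝ)
  fin_cases i <;> fin_cases j
  · show |(cm x n 0 0 : ℝ)| ≤ _
    rw [cm_00, ← hw]
    push_cast
    rw [← e]
    calc |(⌊x⌋ : ℝ) * siz w + cfMat w 1 0| ≤ |(⌊x⌋ : ℝ) * siz w| + |(cfMat w 1 0 : ℝ)| := abs_add_le _ _
      _ = |(⌊x⌋ : ℝ)| * siz w + cfMat w 1 0 := by rw [abs_mul, abs_of_nonneg g0, abs_of_nonneg g2]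
      _ ≤ _ := by nlinarith
  · show |(cm x n 0 1 : ℝ)| ≤ _
    rw [cm_01, ← hw]
    push_cast
    calc |(⌊x⌋ : ℝ) * cfMat w 0 1 + cfMat w 1 1| ≤ |(⌊x⌋ : ℝ) * cfMat w 0 1| + |(cfMat w 1 1 : ℝ)| := abs_add_le _ _
      _ = |(⌊x⌋ : ℝ)| * cfMat w 0 1 + cfMat w 1 1 := by rw [abs_mul, abs_of_nonneg g1, abs_of_nonneg g3]
      _ ≤ _ := by nlinarith
  · show |(cm x n 1 0 : ℝ)| ≤ _
    rw [cm_10, ← hw]
    push_cast
    rw [abs_of_nonneg g0]
    nlinarith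
  · show |(cm x n 1 1 : ℝ)| ≤ _
    rw [cm_11, ← hw]
    push_cast
    rw [abs_of_nonneg g1]
    nlinarith

/-- the lower row is bounded by the continuant -/
lemma cm_row (hx : ∀ n, 0 < pq x n) (n : ℕ) (j : Fin 2) :
    |(cm x n 1 j : ℝ)| ≤ siz (win (pq x) 0 n) := by
  obtain ⟨h1, h2, h3, h4, -⟩ := cfMat_ineq _ (win_pos hx 0 n)
  set w := win (pq x) 0 n with hw
  have e : (siz w : ℝ) = cfMat w 0 0 := rfl
  fin_cases j
  · show |(cm x n 1 0 : ℝ)| ≤ _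
    rw [cm_10, ← hw]
    push_cast
    rw [abs_of_nonneg (Nat.cast_nonneg _)]
  · show |(cm x n 1 1 : ℝ)| ≤ _
    rw [cm_11, ← hw]
    push_cast
    rw [abs_of_nonneg (Nat.cast_nonneg _), e]
    exact_mod_cast h2

end Pool.Agent.H54.TM
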